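import Pool.Agent.MP_ca1109_lc.Ov.GT

/-!
# Families of overlapping blocks
-/

namespace Pool.Agent.MP_ca1109_lc.Ovr

open Finset Pool.Agent.MP_ca1109_lc.Ov

/-- Every family in which a bit is in at most two blocks. -/
theorem over_two {n q : ℕ} {I : Fin q → Finset (Fin n)}
    (h : ∀ i, (univ.filter fun j => i ∈ I j).card ≤ 2) : Over 2 I := by
  classical
  refine ⟨h, fun j j' hne i hi i' hi' l => ?_⟩
  have key : ∀ i ∈ I j ∩ I j', ∀ l, i ∈ I l → l = j ∨ l = j' := by
    intro i hi l hl
    by_contra hcon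
    push Not at hcon
    have h1 : ({j, j', l} : Finset (Fin q)) ⊆ univ.filter fun j => i ∈ I j := by
      intro m hm
      rw [mem_filter]
      simp only [mem_insert, mem_singleton] at hm
      rcases hm with rfl | rfl | rfl
      · exact ⟨mem_univ _, (mem_inter.1 hi).1⟩
      · exact ⟨mem_univ _, (mem_inter.1 hi).2⟩
      · exact ⟨mem_univ _, hl⟩
    have h2 : ({j, j', l} : Finset (Fin q)).card = 3 := by
      rw [card_eq_three]
      exact ⟨j, j', l, hne, fun e => hcon.1 e.symm, fun e => hcon.2 e.symm, rfl⟩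
    have h3 := card_le_card h1
    have h4 := h i
    omega
  constructor
  · intro hl
    rcases key i hi l hl with rfl | rfl
    · exact (mem_inter.1 hi').1
    · exact (mem_inter.1 hi').2
  · intro hl
    rcases key i' hi' l hl with rfl | rfl
    · exact (mem_inter.1 hi).1
    · exact (mem_inter.1 hi).2

/-- Two blocks share at most one bit. -/
theorem over_inter {n q r : ℕ} {I : Fin q → Finset (Fin n)}
    (h : ∀ i, (univ.filter fun j => i ∈ I j).card ≤ r)
    (h1 : ∀ j j', j ≠ j' → (I j ∩ I j').card ≤ 1) : Over r I := by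
  refine ⟨h, fun j j' hne i hi i' hi' l => ?_⟩
  rw [card_le_one.1 (h1 j j' hne) i hi i' hi']

end Pool.Agent.MP_ca1109_lc.Ovr
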