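import Pool.Agent.MP_ca1109_lc.Ot.Test

/-!
# Sums in any abelian group over blocks
-/

namespace Pool.Agent.MP_ca1109_lc.Ovr

open Finset Pool.Agent.MP_ca1109_lc.Ov

/-- A finitely generated abelian group has finite quotients which are injective on a given finite
set. -/
theorem ag_fin (H : Type) [AddCommGroup H] [AddGroup.FG H] (F : Finset H) :
    ∃ (G' : Type) (_ : AddCommGroup G') (_ : Finite G') (φ : H →+ G'),
      Function.Surjective φ ∧ Set.InjOn φ (F : Set H) := by
  classical
  obtain ⟨n, ι, hι, p, hp, e, ⟨E⟩⟩ := AddCommGroup.equiv_free_prod_directSum_zmod H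
  have : Fintype ι := hι
  obtain ⟨N, hN⟩ : ∃ N : ℕ, N = 1 + 2 * ∑ g ∈ F, ∑ i, ((E g).1 i).natAbs := ⟨_, rfl⟩
  have hN0 : N ≠ 0 := by omega
  have : NeZero N := ⟨hN0⟩
  have : ∀ i, NeZero (p i ^ e i) := fun i => ⟨pow_ne_zero _ (hp i).ne_zero⟩
  let α : (Fin n →₀ ℤ) →+ (Fin n → ZMod N) :=
    AddMonoidHom.mk' (fun v i => ((v i : ℤ) : ZMod N)) (by
      intro a b
      funext i
      simp)
  let β : H →+ (Fin n → ZMod N) × ((i : ι) → ZMod (p i ^ e i)) :=
    (AddMonoidHom.prodMap α (DirectSum.addEquivProd fun i => ZMod (p i ^ e i)).toAddMonoidHom).comp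
      E.toAddMonoidHom
  have : Finite (β.range) := inferInstance
  refine ⟨β.range, inferInstance, inferInstance, β.rangeRestrict, β.rangeRestrict_surjective, ?_⟩
  intro u hu v hv huv
  have h1 : β u = β v := congrArg Subtype.val huv
  have h2 : α (E u).1 = α (E v).1 := congrArg Prod.fst h1
  have h3 : (DirectSum.addEquivProd fun i => ZMod (p i ^ e i)) (E u).2 =
      (DirectSum.addEquivProd fun i => ZMod (p i ^ e i)) (E v).2 := congrArg Prod.snd h1
  have h4 : (E u).2 = (E v).2 := (DirectSum.addEquivProd fun i => ZMod (p i ^ e i)).injective h3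
  have hb : ∀ g ∈ F, ∀ i, 2 * ((E g).1 i).natAbs < N := by
    intro g hg i
    have h5 : ((E g).1 i).natAbs ≤ ∑ i, ((E g).1 i).natAbs :=
      single_le_sum (f := fun i => ((E g).1 i).natAbs) (fun _ _ => Nat.zero_le _) (mem_univ i)
    have h6 : ∑ i, ((E g).1 i).natAbs ≤ ∑ g ∈ F, ∑ i, ((E g).1 i).natAbs :=
      single_le_sum (f := fun g => ∑ i, ((E g).1 i).natAbs) (fun _ _ => Nat.zero_le _) hg
    omega
  have h5 : (E u).1 = (E v).1 := by
    ext i
    have h6 : (((E u).1 i : ℤ) : ZMod N) = (((E v).1 i : ℤ) : ZMod N) := congrFun h2 i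
    have h7 : (N : ℤ) ∣ (E v).1 i - (E u).1 i := (ZMod.intCast_eq_intCast_iff_dvd_sub _ _ _).1 h6
    have h8 := hb u hu i
    have h9 := hb v hv i
    obtain ⟨k, hk⟩ := h7
    have h10 : |(E v).1 i - (E u).1 i| < (N : ℤ) := by
      rw [abs_lt]
      constructor <;> omega
    rw [hk, abs_mul, Nat.abs_cast] at h10
    have h11 : |k| < 1 := by
      by_contra hc
      push Not at hc
      have : (N : ℤ) * 1 ≤ (N : ℤ) * |k| := mul_le_mul_of_nonneg_left hc (by positivity)
      omega
    have h12 : k = 0 := Int.abs_lt_one_iff.1 h11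
    rw [h12, mul_zero] at hk
    omega
  exact E.injective (Prod.ext h5 h4)

/-- A test of a sum in any abelian group is a test of a sum in a finite abelian group. -/
theorem agate_tgate {n q B : ℕ} {I : Fin q → Finset (Fin n)} {G : Type} [AddCommGroup G]
    {a : Fin q → (Fin n → Bool) → G} {A : Finset G} {g : (Fin n → Bool) → Bool} (hA : A.card ≤ B)
    (ha : OnBlocks I a) (hg : ∀ x, g x = true ↔ ∑ j, a j x ∈ A) : TGate B I g := by
  classical
  let H : AddSubgroup G := AddSubgroup.closure (Set.range fun p : Fin q × (Fin n → Bool) => a p.1 p.2)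
  have hc : ∀ j x, a j x ∈ H := fun j x => AddSubgroup.subset_closure ⟨(j, x), rfl⟩
  let aH : Fin q → (Fin n → Bool) → H := fun j x => ⟨a j x, hc j x⟩
  have hval : ∀ x, ((∑ j, aH j x : H) : G) = ∑ j, a j x := by
    intro x
    rw [AddSubgroup.val_finsetSum]
  let AH : Finset H := A.preimage (fun h : H => (h : G)) Subtype.val_injective.injOn
  have : AddGroup.FG H := AddGroup.closure_finite_fg _
  obtain ⟨G', i1, i2, φ, hφ, hinj⟩ := ag_fin H ((univ.image fun x => ∑ j, aH j x) ∪ AH)
  refine Or.inl (Or.inl ⟨G', i1, i2, fun j x => φ (aH j x), AH.image φ, ?_, ?_, fun x => ?_⟩)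
  · refine (card_image_le.trans ?_).trans hA
    rw [← card_image_of_injective AH (Subtype.val_injective (p := fun y => y ∈ H))]
    refine card_le_card fun y hy => ?_
    obtain ⟨u, hu, rfl⟩ := mem_image.1 hy
    exact mem_preimage.1 hu
  · intro j x y hxy
    have h : a j x = a j y := ha j x y hxy
    show φ (aH j x) = φ (aH j y)
    congr 1
    exact Subtype.ext h
  · rw [hg x, ← hval x, ← map_sum]
    constructor
    · intro h
      exact mem_image_of_mem φ (mem_preimage.2 h)
    · intro h
      obtain ⟨u, hu, hux⟩ := mem_image.1 h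
      have h1 : u = ∑ j, aH j x := hinj
        (by simp only [coe_union, Set.mem_union, mem_coe]; exact Or.inr hu)
        (by
          simp only [coe_union, Set.mem_union, mem_coe]
          exact Or.inl (mem_image_of_mem _ (mem_univ x))) hux
      rw [← h1]
      exact mem_preimage.1 hu

end Pool.Agent.MP_ca1109_lc.Ovr
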