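import Pool.Agent.MP_ca1109_lc.Ovr.Test

/-!
# Partitions into subcubes of small average codimension with search trees over gates on overlapping
blocks: the class
-/

namespace Pool.Agent.MP_ca1109_lc.Ovr

open Pool.Agent.MP_ca1109_lc.Ov

/-- The cube is partitioned into any number of subcubes (the subcube `j` is given by the values `a j`
of the bits in `L j`), of average codimension at most `h ⌈log₂ n⌉`: this is the sum of
`|L j| 2 ^ (-|L j|)`, the average of `|L j|` for the subcube `j` of a random point. On each of them `T`
agrees with a search tree with `D` searches, over its own family of overlapping blocks of at most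
`c log n` bits. For instance, the subcubes are at most `n ^ h` in number, or they are the leaves of a
decision tree of average depth at most `h ⌈log₂ n⌉`, of any size and any depth. -/
def OATest (c r B k D h n : ℕ) (T : (Fin n → Bool) → Bool) : Prop :=
  ∃ (N : ℕ) (L : Fin N → Finset (Fin n)) (a : Fin N → Fin n → Bool)
    (g : Fin N → (Fin n → Bool) → Bool),
    ∑ j, ((L j).card : ℝ) * (1 / 2) ^ (L j).card ≤ h * Nat.clog 2 n ∧
    (∀ x : Fin n → Bool, ∃! j, ∀ i ∈ L j, x i = a j i) ∧
    (∀ j, ∃ (q : ℕ) (I : Fin q → Finset (Fin n)), (∀ i, 2 ^ (I i).card ≤ n ^ c) ∧ Over r I ∧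
      STree (n ^ c) B k I D (g j)) ∧
    ∀ (j : Fin N) (x : Fin n → Bool), (∀ i ∈ L j, x i = a j i) → T x = g j x

end Pool.Agent.MP_ca1109_lc.Ovr
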