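import Pool.Agent.MP_ca1109_lc.Ovr.OF
import Pool.Agent.MP_ca1109_lc.Ovr.TestA
import Pool.Agent.MP_ca1109_lc.Xp.SPb

/-!
# Partitions into subcubes of small average codimension with search trees over gates on overlapping
blocks: the theorem

* `AWU`: the search trees over some family of overlapping blocks.
* `LWtr P W ε X`: at every pattern of at most `W` bits the string `X` fools the functions in `P` and
  the constant `1`, with relative error `ε`.
* `aw_avg`: from the cells to the partitions of small average codimension.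
* `oafinal`: the theorem; `aw_le`: at most `n ^ h` subcubes have a small average codimension.
-/

namespace Pool.Agent.MP_ca1109_lc.Ovr

open Finset Pool.Agent.H66 Pool.Agent.MP_ca1109_lc.Mpg Pool.Agent.MP_ca1109_lc.Agp
  Pool.Agent.MP_ca1109_lc.Xp Pool.Agent.MP_ca1109_lc.Ov
open Pool.Agent.MP_ca1109_lc.Dnf (Cube one Term)
open Pool.Agent.MP_ca1109_lc.Rf (DTree pat)

variable {n : ℕ}

/-- The search trees over some family of overlapping blocks. -/
def AWU (N r B k D : ℕ) (U : (Fin n → Bool) → Bool) : Prop :=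
  ∃ (q : ℕ) (I : Fin q → Finset (Fin n)), (∀ i, 2 ^ (I i).card ≤ N) ∧ Over r I ∧
    STree N B k I D U

/-! ## Monotonicity -/

theorem aw_map {𝒯 𝒰 : ((Fin n → Bool) → Bool) → Prop} (h : ∀ T, 𝒯 T → 𝒰 T) {d : ℕ}
    {T : (Fin n → Bool) → Bool} (hT : DTree 𝒯 d T) : DTree 𝒰 d T := by
  induction hT with
  | leaf h1 => exact DTree.leaf (h _ h1)
  | node i _ _ h1 h2 => exact DTree.node i h1 h2

theorem aw_search_mono {q : ℕ} {I : Fin q → Finset (Fin n)} {𝒯 𝒰 : ((Fin n → Bool) → Bool) → Prop}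
    (h : ∀ T, 𝒯 T → 𝒰 T) {T : (Fin n → Bool) → Bool} (hT : Search I 𝒯 T) : Search I 𝒰 T := by
  obtain ⟨π, p, U, T₀, h1, h2, h3, h4, h5⟩ := hT
  exact ⟨π, p, U, T₀, h1, h2, h _ h3, fun j w => h _ (h4 j w), h5⟩

theorem aw_stree_mono {N N' B k q : ℕ} (hN : N ≤ N') {I : Fin q → Finset (Fin n)} :
    ∀ (D : ℕ) (T : (Fin n → Bool) → Bool), STree N B k I D T → STree N' B k I D T
  | 0, _, hT => hT
  | D + 1, _, hT => by
    obtain ⟨d, hd, hT⟩ := hT
    exact ⟨d, hd.trans hN, aw_map (fun _ hU => aw_search_mono (aw_stree_mono hN D) hU) hT⟩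

theorem aw_mono {N N' r B k D : ℕ} (hN : N ≤ N') {T : (Fin n → Bool) → Bool}
    (hT : AWU N r B k D T) : AWU N' r B k D T := by
  obtain ⟨q, I, h1, h2, h3⟩ := hT
  exact ⟨q, I, fun j => (h1 j).trans hN, h2, aw_stree_mono hN D T h3⟩

theorem aw_gate_true (B : ℕ) {q : ℕ} (I : Fin q → Finset (Fin n)) : TGate B I fun _ => true := by
  refine Or.inr ⟨fun _ _ => 0, 0, fun _ _ _ _ => rfl, fun _ _ => by simp, fun x => ?_⟩
  simp

theorem aw_stree_true {N B k q : ℕ} (hN : 1 ≤ N) (I : Fin q → Finset (Fin n)) :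
    ∀ D : ℕ, STree N B k I D fun _ => true
  | 0 => ⟨fun _ _ => true, fun _ => true, fun _ => aw_gate_true B I, fun _ => rfl⟩
  | D + 1 => by
    refine ⟨0, by simpa using hN, DTree.leaf ?_⟩
    exact ⟨Equiv.refl _, fun _ _ => false, fun _ _ _ => true, fun _ => true,
      fun _ _ _ _ => rfl, fun _ _ _ _ => rfl, aw_stree_true hN I D, fun _ _ => aw_stree_true hN I D,
      fun x => ⟨fun _ => rfl, fun _ _ _ => rfl⟩⟩

theorem aw_true {N r B k D : ℕ} (hN : 1 ≤ N) : AWU (n := n) N r B k D fun _ => true := by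
  refine ⟨0, fun i => i.elim0, fun i => i.elim0, ⟨fun i => ?_, fun j => j.elim0⟩,
    aw_stree_true hN _ D⟩
  simp

/-! ## One string -/

/-- At every pattern of at most `W` bits the string fools the functions in `P`, with relative error
`ε`. -/
def LWtr (P : ((Fin n → Bool) → Bool) → Prop) (W : ℕ) (ε : ℝ) {Ω : Type} [Fintype Ω]
    (X : Ω → Fin n → Bool) : Prop :=
  ∀ (L : Finset (Fin n)) (a : Fin n → Bool), L.card ≤ W →
    |(avg fun ω => one (pat L a (X ω))) - (1 / 2) ^ L.card| ≤ ε * (1 / 2) ^ L.card ∧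
    ∀ f : (Fin n → Bool) → Bool, P f →
      |(avg fun ω => one (pat L a (X ω)) * ind (f (X ω))) -
        avg fun x : Fin n → Bool => one (pat L a x) * ind (f x)| ≤ ε * (1 / 2) ^ L.card

theorem aw_pat (S : Finset (Fin n)) (y : Cube n) :
    (avg fun x : Cube n => one (pat S y x)) = (1 / 2) ^ S.card := by
  rw [spb_avg_E]
  exact Dnf.E_term (⟨S, y⟩ : Term n)

theorem aw_ind (b : Bool) : ind b = one (b = true) := by
  cases b
  · rw [Dnf.one_false (by simp)]
    rfl
  · rw [Dnf.one_true rfl]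
    rfl

/-- From an absolute error. -/
theorem LWtr.of {P : (Cube n → Bool) → Prop} {W : ℕ} {ε τ : ℝ} {Ω : Type} [Fintype Ω] [Nonempty Ω]
    {X : Ω → Cube n} (hP : P fun _ => true)
    (H : ∀ T, P T → ∀ (D : Finset (Fin n)) (v : Cube n), D.card ≤ W →
      |(avg fun ω => one (pat D v (X ω)) * one (T (X ω) = true)) -
        avg fun x => one (pat D v x) * one (T x = true)| ≤ (1 / 2) ^ D.card * ε + τ)
    (hτ0 : 0 ≤ τ) (hτ : τ * 2 ^ W ≤ ε) : LWtr P W (2 * ε) X := by
  have key : ∀ T, P T → ∀ (D : Finset (Fin n)) (v : Cube n), D.card ≤ W →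
      |(avg fun ω => one (pat D v (X ω)) * one (T (X ω) = true)) -
        avg fun x => one (pat D v x) * one (T x = true)| ≤ 2 * ε * (1 / 2) ^ D.card := by
    intro T hT D v hD
    refine (H T hT D v hD).trans ?_
    have h1 : τ * 2 ^ D.card ≤ ε :=
      (mul_le_mul_of_nonneg_left (pow_le_pow_right₀ (by norm_num) hD) hτ0).trans hτ
    have h2 : (1 / 2 : ℝ) ^ D.card * (2 : ℝ) ^ D.card = 1 := by
      rw [← mul_pow]
      norm_num
    have h3 : (0 : ℝ) < (1 / 2) ^ D.card := by positivity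
    have h4 : τ ≤ (1 / 2) ^ D.card * ε := by
      calc τ = (1 / 2 : ℝ) ^ D.card * (τ * (2 : ℝ) ^ D.card) := by
            rw [mul_comm τ, ← mul_assoc, h2, one_mul]
        _ ≤ _ := mul_le_mul_of_nonneg_left h1 h3.le
    calc (1 / 2 : ℝ) ^ D.card * ε + τ ≤ (1 / 2 : ℝ) ^ D.card * ε + (1 / 2 : ℝ) ^ D.card * ε := by
          linarith
      _ = 2 * ε * (1 / 2) ^ D.card := by ring
  intro L a hL
  refine ⟨?_, fun f hf => ?_⟩
  · have h1 := key _ hP L a hL
    simp only [Dnf.one_true, mul_one] at h1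
    have h2 : (avg fun x : Cube n => one (pat L a x)) = (1 / 2) ^ L.card := by
      rw [spb_avg_E]
      exact Dnf.E_term (⟨L, a⟩ : Term n)
    rw [h2] at h1
    exact h1
  · simp only [aw_ind]
    exact key f hf L a hL

/-- The cells. -/
theorem aw_cell (c r B k D e : ℕ) {ε : ℝ} (hε : 0 < ε) : ∃ E G, NG E G ∧ ∃ n₀ : ℕ, ∀ n ≥ n₀,
    LWtr (AWU (n := n) (n ^ c) r B k D) (e * Nat.clog 2 n) ε
      fun ω : Fin (2 ^ E n) => out G n ω := by
  obtain ⟨c', hc'⟩ : ∃ c' : ℕ, c' = c + 2 * e + 1 := ⟨_, rfl⟩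
  obtain ⟨K, ε₂, hε₂, b, n₁, hleaf⟩ := ostree c' r B k D (show 0 < ε / 2 by positivity)
  obtain ⟨E, G, hNG, n₀, hG⟩ := omain c' b r K hε₂
  obtain ⟨n₂, hn₂⟩ := exists_nat_gt (2 / ε)
  refine ⟨E, G, hNG, max 2 (max n₀ (max n₁ n₂)), fun n hn => ?_⟩
  have hn2 : 2 ≤ n := (le_max_left _ _).trans hn
  have hn' := (le_max_right 2 (max n₀ (max n₁ n₂))).trans hn
  have hn0 : n₀ ≤ n := (le_max_left _ _).trans hn'
  have hn1 : n₁ ≤ n := ((le_max_left _ _).trans (le_max_right _ _)).trans hn'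
  have hn3 : n₂ ≤ n := ((le_max_right _ _).trans (le_max_right _ _)).trans hn'
  have hne : Nonempty (Fin (2 ^ E n)) := ⟨⟨0, by positivity⟩⟩
  have hcl : 2 ^ (e * Nat.clog 2 n) ≤ n ^ c' := by
    have h1 : 2 ^ Nat.clog 2 n ≤ n ^ 2 := by
      have h2 : 2 ^ (Nat.clog 2 n - 1) < n := Nat.pow_pred_clog_lt_self (by norm_num) (by omega)
      have h3 : 0 < Nat.clog 2 n := Nat.clog_pos (by norm_num) (by omega)
      have h4 : 2 ^ Nat.clog 2 n = 2 * 2 ^ (Nat.clog 2 n - 1) := by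
        rw [← pow_succ']
        congr 1
        omega
      rw [h4, sq]
      exact Nat.mul_le_mul hn2 h2.le
    calc 2 ^ (e * Nat.clog 2 n) = (2 ^ Nat.clog 2 n) ^ e := by rw [mul_comm, pow_mul]
      _ ≤ (n ^ 2) ^ e := Nat.pow_le_pow_left h1 e
      _ = n ^ (2 * e) := by rw [pow_mul]
      _ ≤ n ^ c' := Nat.pow_le_pow_right (by omega) (by omega)
  have hX : LWtr (AWU (n := n) (n ^ c') r B k D) (e * Nat.clog 2 n) (2 * (ε / 2))
      fun ω : Fin (2 ^ E n) => out G n ω := by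
    refine LWtr.of (τ := 1 / ((n : ℝ) + 1) ^ (c' + 1)) (aw_true (Nat.one_le_pow _ _ (by omega)))
      (fun T hT D' v hD => ?_) (by positivity) ?_
    · obtain ⟨q, I, h1, h2, h3⟩ := hT
      exact hleaf n hn1 (fun ω : Fin (2 ^ E n) => out G n ω) (hG n hn0) h2 h1 h3 D' v
        ((Nat.pow_le_pow_right (by norm_num) hD).trans hcl)
    · have h4 : (2 : ℝ) ^ (e * Nat.clog 2 n) ≤ ((n : ℝ) + 1) ^ c' := by
        have h5 : (2 : ℝ) ^ (e * Nat.clog 2 n) ≤ (n : ℝ) ^ c' := by exact_mod_cast hcl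
        exact h5.trans (pow_le_pow_left₀ (Nat.cast_nonneg n) (by linarith) c')
      have h6 : (0 : ℝ) < (n : ℝ) + 1 := by positivity
      have h7 : 1 / ((n : ℝ) + 1) ^ (c' + 1) * ((n : ℝ) + 1) ^ c' = 1 / ((n : ℝ) + 1) := by
        rw [pow_succ]
        field_simp
      refine (mul_le_mul_of_nonneg_left h4 (by positivity)).trans ?_
      rw [h7, div_le_iff₀ h6]
      have h8 : (n₂ : ℝ) ≤ n := by exact_mod_cast hn3
      have h9 : 2 / ε ≤ n := by linarith
      rw [div_le_iff₀ hε] at h9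
      nlinarith
  rw [mul_div_cancel₀ ε (two_ne_zero)] at hX
  intro L a hL
  obtain ⟨h1, h2⟩ := hX L a hL
  exact ⟨h1, fun f hf => h2 f (aw_mono (Nat.pow_le_pow_right (by omega) (by omega)) hf)⟩

/-! ## Average codimension -/

theorem aw_sum {A J : Type*} [Fintype A] [Fintype J] (c : J → ℝ) (F : J → A → ℝ) :
    (avg fun a => ∑ j, c j * F j a) = ∑ j, c j * avg (F j) := by
  unfold avg
  rw [Finset.sum_comm, Finset.sum_div]
  refine Finset.sum_congr rfl fun j _ => ?_
  rw [← Finset.mul_sum, mul_div_assoc]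

theorem aw_ind01 (b : Bool) : 0 ≤ ind b ∧ ind b ≤ 1 := by
  unfold ind
  split_ifs <;> norm_num

/-- The partitions of average codimension at most `D`. -/
def AvgP (P : ((Fin n → Bool) → Bool) → Prop) (D : ℕ) (f : (Fin n → Bool) → Bool) : Prop :=
  ∃ (N : ℕ) (L : Fin N → Finset (Fin n)) (a : Fin N → Fin n → Bool)
    (g : Fin N → (Fin n → Bool) → Bool),
    ∑ j, ((L j).card : ℝ) * (1 / 2) ^ (L j).card ≤ D ∧
    (∀ x : Fin n → Bool, ∃! j, ∀ i ∈ L j, x i = a j i) ∧ (∀ j, P (g j)) ∧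
    ∀ (j : Fin N) (x : Fin n → Bool), (∀ i ∈ L j, x i = a j i) → f x = g j x

/-- From the cells to the partitions of small average codimension. -/
theorem aw_avg {P : ∀ n : ℕ, ((Fin n → Bool) → Bool) → Prop} (h : ℕ)
    (H : ∀ (e : ℕ) (ε : ℝ), 0 < ε → ∃ E G, NG E G ∧ ∃ n₀ : ℕ, ∀ n ≥ n₀,
      LWtr (P n) (e * Nat.clog 2 n) ε fun ω : Fin (2 ^ E n) => out G n ω) {ε : ℝ} (hε : 0 < ε) :
    LogGen (fun n f => AvgP (P n) (h * Nat.clog 2 n) f) ε := by
  classical
  obtain ⟨C, hC⟩ := exists_nat_gt (4 * (h : ℝ) / ε)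
  have hC0 : (0 : ℝ) < C := lt_of_le_of_lt (by positivity) hC
  obtain ⟨E, G, hNG, n₀, HG⟩ := H C (ε / 4) (by positivity)
  refine of_eventually (𝒯 := fun n f => max n₀ 2 ≤ n ∧ AvgP (P n) (h * Nat.clog 2 n) f)
    (logGen_of hNG fun n T hT => ?_) (max n₀ 2) fun n hn T hT => ⟨hn, hT⟩
  obtain ⟨hn, N, L, a, g, hD, huniq, hP, hT⟩ := hT
  have hn0 : n₀ ≤ n := (le_max_left _ _).trans hn
  have hn2 : 2 ≤ n := (le_max_right _ _).trans hn
  have hlog : 0 < Nat.clog 2 n := Nat.clog_pos (by norm_num) hn2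
  have hlog' : (0 : ℝ) < (Nat.clog 2 n : ℝ) := by exact_mod_cast hlog
  have hne : Nonempty (Fin (2 ^ E n)) := ⟨⟨0, by positivity⟩⟩
  have e1 : nr (2 ^ E n) (fun p => ind (T (out G n p))) =
      avg fun p : Fin (2 ^ E n) => ind (T (out G n p)) := by
    rw [← of_avg_fin]
  rw [e1, prob_eq_avg]
  -- the pointwise identities
  have hcount : ∀ x : Cube n, (∑ j, (1 : ℝ) * one (pat (L j) (a j) x)) = 1 := by
    intro x
    obtain ⟨t, ht, hu⟩ := huniq x
    rw [Finset.sum_eq_single t]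
    · rw [one_mul]
      exact Dnf.one_true ht
    · intro t' _ hne
      rw [one_mul]
      exact Dnf.one_false fun h => hne (hu t' h)
    · exact fun h => absurd (mem_univ t) h
  have hf : ∀ x : Cube n, ind (T x) = ∑ j, (1 : ℝ) * (one (pat (L j) (a j) x) * ind (g j x)) := by
    intro x
    obtain ⟨t, ht, hu⟩ := huniq x
    rw [Finset.sum_eq_single t]
    · rw [one_mul, Dnf.one_true (show pat (L t) (a t) x from ht), one_mul, hT t x ht]
    · intro t' _ hne
      rw [one_mul, Dnf.one_false (fun h : pat (L t') (a t') x => hne (hu t' h)), zero_mul]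
    · exact fun h => absurd (mem_univ t) h
  simp only [hf]
  rw [aw_sum (fun _ => (1 : ℝ)) fun j (p : Fin (2 ^ E n)) =>
      one (pat (L j) (a j) (out G n p)) * ind (g j (out G n p)),
    aw_sum (fun _ => (1 : ℝ)) fun j (x : Cube n) => one (pat (L j) (a j) x) * ind (g j x),
    ← Finset.sum_sub_distrib]
  -- the numbers
  obtain ⟨pG, hpG⟩ : ∃ pG : Fin N → ℝ, pG = fun j =>
    avg fun p : Fin (2 ^ E n) => one (pat (L j) (a j) (out G n p)) := ⟨_, rfl⟩
  obtain ⟨pU, hpU⟩ : ∃ pU : Fin N → ℝ, pU = fun j => (1 / 2 : ℝ) ^ (L j).card := ⟨_, rfl⟩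
  have hsG : ∑ j, pG j = 1 := by
    have h1 : (avg fun p : Fin (2 ^ E n) => ∑ j, (1 : ℝ) * one (pat (L j) (a j) (out G n p))) =
        1 := by
      simp only [hcount]
      exact avg_const 1
    rw [aw_sum (fun _ => (1 : ℝ)) fun j (p : Fin (2 ^ E n)) =>
      one (pat (L j) (a j) (out G n p))] at h1
    rw [hpG]
    simpa using h1
  have hsU : ∑ j, pU j = 1 := by
    have h1 : (avg fun x : Cube n => ∑ j, (1 : ℝ) * one (pat (L j) (a j) x)) = 1 := by
      simp only [hcount]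
      exact avg_const 1
    rw [aw_sum (fun _ => (1 : ℝ)) fun j (x : Cube n) => one (pat (L j) (a j) x)] at h1
    rw [hpU]
    simp only [aw_pat, one_mul] at h1
    exact h1
  have hpU0 : ∀ j, 0 ≤ pU j := fun j => by rw [hpU]; positivity
  -- the deep cells
  obtain ⟨Dp, hDp⟩ : ∃ Dp : Finset (Fin N), Dp = univ.filter fun j =>
    ¬ (L j).card ≤ C * Nat.clog 2 n := ⟨_, rfl⟩
  have hdeep : ∑ j ∈ Dp, pU j ≤ ε / 4 := by
    have h1 : (∑ j ∈ Dp, pU j) * ((C : ℝ) * Nat.clog 2 n) ≤ h * Nat.clog 2 n := by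
      rw [sum_mul]
      calc ∑ j ∈ Dp, pU j * ((C : ℝ) * Nat.clog 2 n) ≤ ∑ j ∈ Dp, ((L j).card : ℝ) * pU j := by
            refine sum_le_sum fun j hj => ?_
            rw [hDp, mem_filter, not_le] at hj
            have h2 : (C : ℝ) * Nat.clog 2 n ≤ (L j).card := by exact_mod_cast hj.2.le
            rw [mul_comm]
            exact mul_le_mul_of_nonneg_right h2 (hpU0 j)
        _ ≤ ∑ j, ((L j).card : ℝ) * pU j :=
            sum_le_sum_of_subset_of_nonneg (subset_univ _) fun j _ _ =>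
              mul_nonneg (Nat.cast_nonneg _) (hpU0 j)
        _ ≤ h * Nat.clog 2 n := by
            rw [hpU]
            exact_mod_cast hD
    have h2 : (∑ j ∈ Dp, pU j) * C ≤ h := by
      refine le_of_mul_le_mul_right ?_ hlog'
      calc (∑ j ∈ Dp, pU j) * C * (Nat.clog 2 n : ℝ) =
          (∑ j ∈ Dp, pU j) * ((C : ℝ) * Nat.clog 2 n) := by ring
        _ ≤ _ := h1
    have h3 : (h : ℝ) ≤ ε / 4 * C := by
      rw [div_lt_iff₀ hε] at hC
      linarith
    exact le_of_mul_le_mul_right (h2.trans h3) hC0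
  have hsplitU : ∑ j ∈ Dp, pU j + ∑ j ∈ univ \ Dp, pU j = 1 := by
    rw [add_comm, sum_sdiff (subset_univ Dp), hsU]
  have hsplitG : ∑ j ∈ Dp, pG j + ∑ j ∈ univ \ Dp, pG j = 1 := by
    rw [add_comm, sum_sdiff (subset_univ Dp), hsG]
  have hshallow : ∀ j ∈ univ \ Dp, (L j).card ≤ C * Nat.clog 2 n := by
    intro j hj
    rw [hDp, mem_sdiff, mem_filter] at hj
    by_contra hcon
    exact hj.2 ⟨mem_univ j, hcon⟩
  have hsh0 : 0 ≤ ∑ j ∈ univ \ Dp, pU j := sum_nonneg fun j _ => hpU0 j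
  have hde0 : 0 ≤ ∑ j ∈ Dp, pU j := sum_nonneg fun j _ => hpU0 j
  have hGlow : (1 - ε / 4) * ∑ j ∈ univ \ Dp, pU j ≤ ∑ j ∈ univ \ Dp, pG j := by
    rw [mul_sum]
    refine sum_le_sum fun j hj => ?_
    have h1 := (abs_le.1 (HG n hn0 (L j) (a j) (hshallow j hj)).1).1
    rw [hpG, hpU]
    show (1 - ε / 4) * (1 / 2 : ℝ) ^ (L j).card ≤
      avg fun p : Fin (2 ^ E n) => one (pat (L j) (a j) (out G n p))
    linarith
  have hGdeep : ∑ j ∈ Dp, pG j ≤ ε / 4 + ∑ j ∈ Dp, pU j := by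
    have h1 : (1 - ε / 4) * ∑ j ∈ univ \ Dp, pU j =
        (∑ j ∈ univ \ Dp, pU j) - ε / 4 * ∑ j ∈ univ \ Dp, pU j := by ring
    have h2 : ε / 4 * ∑ j ∈ univ \ Dp, pU j ≤ ε / 4 * 1 :=
      mul_le_mul_of_nonneg_left (by linarith) (by positivity)
    linarith
  -- the differences
  obtain ⟨Δ, hΔ⟩ : ∃ Δ : Fin N → ℝ, Δ = fun j =>
    1 * (avg fun p : Fin (2 ^ E n) => one (pat (L j) (a j) (out G n p)) * ind (g j (out G n p))) -
      1 * avg fun x : Cube n => one (pat (L j) (a j) x) * ind (g j x) := ⟨_, rfl⟩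
  have hle : ∀ (Ω : Type) [Fintype Ω] [Nonempty Ω] (X : Ω → Cube n) (j : Fin N),
      0 ≤ (avg fun ω => one (pat (L j) (a j) (X ω)) * ind (g j (X ω))) ∧
      (avg fun ω => one (pat (L j) (a j) (X ω)) * ind (g j (X ω))) ≤
        avg fun ω => one (pat (L j) (a j) (X ω)) := by
    intro Ω _ _ X j
    refine ⟨avg_nonneg fun ω => mul_nonneg (Dnf.one_nonneg _) (aw_ind01 _).1,
      avg_mono fun ω => ?_⟩
    calc one (pat (L j) (a j) (X ω)) * ind (g j (X ω)) ≤ one (pat (L j) (a j) (X ω)) * 1 :=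
          mul_le_mul_of_nonneg_left (aw_ind01 _).2 (Dnf.one_nonneg _)
      _ = _ := mul_one _
  have hΔs : ∀ j ∈ univ \ Dp, |Δ j| ≤ ε / 4 * pU j := by
    intro j hj
    have h1 := (HG n hn0 (L j) (a j) (hshallow j hj)).2 (g j) (hP j)
    rw [hΔ, hpU]
    simpa only [one_mul] using h1
  have hΔd : ∀ j ∈ Dp, |Δ j| ≤ pG j + pU j := by
    intro j _
    have h1 := hle (Fin (2 ^ E n)) (fun p => out G n p) j
    have h2 := hle (Cube n) (fun x => x) j
    have h3 : (avg fun x : Cube n => one (pat (L j) (a j) x)) = pU j := by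
      rw [hpU]
      exact aw_pat _ _
    have h4 : (avg fun p : Fin (2 ^ E n) => one (pat (L j) (a j) (out G n p))) = pG j := by
      rw [hpG]
    rw [h4] at h1
    rw [h3] at h2
    rw [hΔ]
    show |1 * (avg fun p : Fin (2 ^ E n) => one (pat (L j) (a j) (out G n p)) *
      ind (g j (out G n p))) - 1 * avg fun x : Cube n => one (pat (L j) (a j) x) * ind (g j x)| ≤
      pG j + pU j
    rw [one_mul, one_mul, abs_le]
    constructor <;> linarith [h1.1, h1.2, h2.1, h2.2]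
  have hsum : |∑ j, Δ j| ≤ ε := by
    refine (abs_sum_le_sum_abs _ _).trans ?_
    rw [← sum_sdiff (subset_univ Dp)]
    have h1 := sum_le_sum hΔs
    have h2 := sum_le_sum hΔd
    rw [← mul_sum] at h1
    rw [sum_add_distrib] at h2
    have h3 : ε / 4 * ∑ j ∈ univ \ Dp, pU j ≤ ε / 4 * 1 :=
      mul_le_mul_of_nonneg_left (by linarith) (by positivity)
    linarith
  rw [hΔ] at hsum
  exact hsum

/-- A partition into `N₀` subcubes has average codimension at most `log₂ N₀`. -/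
theorem aw_le {N : ℕ} (L : Fin N → Finset (Fin n)) (a : Fin N → Fin n → Bool) {h : ℕ}
    (hN : N ≤ n ^ h) (hL : ∀ x : Fin n → Bool, ∃! j, ∀ i ∈ L j, x i = a j i) :
    ∑ j, ((L j).card : ℝ) * (1 / 2) ^ (L j).card ≤ ((h * Nat.clog 2 n : ℕ) : ℝ) := by
  classical
  have hN0 : 0 < N := by
    obtain ⟨j, -, -⟩ := hL fun _ => true
    exact j.pos
  have hNr : (0 : ℝ) < N := by exact_mod_cast hN0
  have hsum : ∑ j, (1 / 2 : ℝ) ^ (L j).card = 1 := by
    have hcount : ∀ x : Fin n → Bool, (∑ j, (1 : ℝ) * Dnf.one (pat (L j) (a j) x)) = 1 := by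
      intro x
      obtain ⟨t, ht, hu⟩ := hL x
      rw [Finset.sum_eq_single t]
      · rw [one_mul]
        exact Dnf.one_true ht
      · intro t' _ hne
        rw [one_mul]
        exact Dnf.one_false fun h => hne (hu t' h)
      · exact fun h => absurd (mem_univ t) h
    have h1 : (avg fun x : Fin n → Bool => ∑ j, (1 : ℝ) * Dnf.one (pat (L j) (a j) x)) = 1 := by
      simp only [hcount]
      exact avg_const 1
    rw [aw_sum (fun _ => (1 : ℝ)) fun j (x : Fin n → Bool) =>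
      Dnf.one (pat (L j) (a j) x)] at h1
    simp only [aw_pat, one_mul] at h1
    exact h1
  have hl2 : (0 : ℝ) < Real.log 2 := Real.log_pos (by norm_num)
  have hterm : ∀ j, ((L j).card : ℝ) * (1 / 2) ^ (L j).card * Real.log 2 ≤
      (1 / 2) ^ (L j).card * Real.log N + (1 / N - (1 / 2) ^ (L j).card) := by
    intro j
    have hp : (0 : ℝ) < (1 / 2) ^ (L j).card := by positivity
    have h1 : Real.log (1 / (N * (1 / 2 : ℝ) ^ (L j).card)) ≤
        1 / (N * (1 / 2 : ℝ) ^ (L j).card) - 1 := Real.log_le_sub_one_of_pos (by positivity)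
    have h2 : Real.log (1 / (N * (1 / 2 : ℝ) ^ (L j).card)) =
        ((L j).card : ℝ) * Real.log 2 - Real.log N := by
      rw [one_div, Real.log_inv, Real.log_mul hNr.ne' hp.ne', Real.log_pow, one_div, Real.log_inv]
      ring
    rw [h2] at h1
    have h3 := mul_le_mul_of_nonneg_left h1 hp.le
    have h4 : (1 / 2 : ℝ) ^ (L j).card * (1 / (N * (1 / 2 : ℝ) ^ (L j).card) - 1) =
        1 / N - (1 / 2) ^ (L j).card := by
      field_simp
    rw [h4] at h3
    linarith
  have h1 := sum_le_sum fun j (_ : j ∈ univ) => hterm j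
  rw [sum_add_distrib, sum_sub_distrib, ← sum_mul, ← sum_mul, hsum, sum_const, card_univ,
    Fintype.card_fin, nsmul_eq_mul] at h1
  have h2 : (N : ℝ) * (1 / N) = 1 := by field_simp
  rw [h2, sub_self, add_zero, one_mul] at h1
  have h3 : Real.log N ≤ ((h * Nat.clog 2 n : ℕ) : ℝ) * Real.log 2 := by
    rw [← Real.log_pow]
    refine Real.log_le_log hNr ?_
    have h4 : N ≤ 2 ^ (h * Nat.clog 2 n) := by
      refine hN.trans ?_
      rw [mul_comm, pow_mul]
      exact Nat.pow_le_pow_left (Nat.le_pow_clog (by norm_num) n) h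
    exact_mod_cast h4
  exact le_of_mul_le_mul_right (h1.trans h3) hl2

/-! ## The theorem -/

/-- One explicit generator with logarithmic seeds fools all functions which, on each of any number of
subcubes of average codimension at most `h ⌈log₂ n⌉` which partition the cube, are search trees over
gates on overlapping blocks. -/
theorem oafinal (c r B k D h : ℕ) {ε : ℝ} (hε : 0 < ε) : LogGen (OATest c r B k D h) ε := by
  refine (aw_avg (P := fun n => AWU (n := n) (n ^ c) r B k D) h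
    (fun e _ hε => aw_cell c r B k D e hε) hε).mono fun n T hT => ?_
  obtain ⟨N, L, a, g, hN, hL, hg, hT⟩ := hT
  exact ⟨N, L, a, g, by rw [Nat.cast_mul]; exact hN, hL, hg, hT⟩

end Pool.Agent.MP_ca1109_lc.Ovr
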