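import Pool.Agent.MP_ca1109_lc.Ovr.OP

/-!
# Boolean functions of programs over overlapping blocks are search trees
-/

namespace Pool.Agent.MP_ca1109_lc.Ovr

open Finset Pool.Agent.MP_ca1109_lc.Ov

variable {n q : ℕ}

/-! ## Algebra -/

theorem nr_dmap {𝒯 𝒰 : ((Fin n → Bool) → Bool) → Prop} (φ : (Fin n → Bool) → Bool → Bool)
    (h : ∀ T, 𝒯 T → 𝒰 (fun x => φ x (T x))) {d : ℕ} {T : (Fin n → Bool) → Bool}
    (hT : Rf.DTree 𝒯 d T) : Rf.DTree 𝒰 d (fun x => φ x (T x)) := by
  induction hT with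
  | leaf hT => exact Rf.DTree.leaf (h _ hT)
  | @node d T U i _ _ h1 h2 =>
    have e : (fun x => φ x (if x i = true then U x else T x)) =
        fun x => if x i = true then φ x (U x) else φ x (T x) := by
      funext x
      split_ifs <;> rfl
    rw [e]
    exact Rf.DTree.node i h1 h2

theorem nr_smap {I : Fin q → Finset (Fin n)} {𝒯 𝒰 : ((Fin n → Bool) → Bool) → Prop}
    (φ : (Fin n → Bool) → Bool → Bool) (h : ∀ T, 𝒯 T → 𝒰 (fun x => φ x (T x)))
    {T : (Fin n → Bool) → Bool} (hT : Search I 𝒯 T) : Search I 𝒰 (fun x => φ x (T x)) := by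
  obtain ⟨π, p, U, T₀, hp, hU, h0, h1, hx⟩ := hT
  refine ⟨π, p, fun j w x => φ x (U j w x), fun x => φ x (T₀ x), hp, ?_, h _ h0,
    fun j w => h _ (h1 j w), fun x => ⟨fun hx0 => ?_, fun i hi hi' => ?_⟩⟩
  · intro j x y hxy
    show (fun z => φ z (U j x z)) = fun z => φ z (U j y z)
    rw [hU j x y hxy]
  · show φ x (T x) = φ x (T₀ x)
    rw [(hx x).1 hx0]
  · show φ x (T x) = φ x (U (π i) x x)
    rw [(hx x).2 i hi hi']

theorem nr_push {N B k k' D₀ : ℕ} {I : Fin q → Finset (Fin n)}
    (φ : (Fin n → Bool) → Bool → Bool) (h0 : ∀ T, STree N B k I 0 T →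
      STree N B k' I D₀ (fun x => φ x (T x))) : ∀ (D : ℕ) (T : (Fin n → Bool) → Bool),
      STree N B k I D T → STree N B k' I (D + D₀) (fun x => φ x (T x))
  | 0, T, h => by
    rw [zero_add]
    exact h0 T h
  | D + 1, _, ⟨d, hd, hT⟩ => by
    rw [Nat.add_right_comm]
    exact ⟨d, hd, nr_dmap φ (fun _ h => nr_smap φ (nr_push φ h0 D) h) hT⟩

/-- Boolean functions of gates and of search trees are search trees. -/
theorem nr_many {N B k D : ℕ} {I : Fin q → Finset (Fin n)} : ∀ (m k₀ : ℕ)
    (g₀ : Fin k₀ → (Fin n → Bool) → Bool) (_ : ∀ i, TGate B I (g₀ i))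
    (Ψ : (Fin k₀ → Bool) → (Fin m → Bool) → Bool) (T : Fin m → (Fin n → Bool) → Bool)
    (_ : ∀ j, STree N B k I D (T j)),
      STree N B (k₀ + m * k) I (m * D) (fun x => Ψ (fun i => g₀ i x) (fun j => T j x))
  | 0, k₀, g₀, h₀, Ψ, T, _ => by
    rw [zero_mul, zero_mul, add_zero]
    refine ⟨g₀, fun y => Ψ y (fun j => j.elim0), h₀, fun x => ?_⟩
    show Ψ (fun i => g₀ i x) (fun j => T j x) = Ψ (fun i => g₀ i x) (fun j => j.elim0)
    congr 1
    funext j
    exact j.elim0
  | m + 1, k₀, g₀, h₀, Ψ, T, hT => by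
    have e1 : k₀ + (m + 1) * k = k₀ + k + m * k := by ring
    have e2 : (m + 1) * D = D + m * D := by ring
    rw [e1, e2]
    have h1 : ∀ T', STree N B k I 0 T' → STree N B (k₀ + k + m * k) I (m * D)
        (fun x => Ψ (fun i => g₀ i x) (Fin.cons (T' x) fun j => T j.succ x)) := by
      rintro T' ⟨g', F', hg', hT'⟩
      have h2 := nr_many m (k₀ + k) (Fin.append g₀ g') (fun i => by
          refine Fin.addCases (fun i => ?_) (fun i => ?_) i
          · rw [Fin.append_left]
            exact h₀ i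
          · rw [Fin.append_right]
            exact hg' i)
        (fun y z => Ψ (fun i => y (Fin.castAdd k i))
          (Fin.cons (F' fun i => y (Fin.natAdd k₀ i)) z)) (fun j => T j.succ) (fun j => hT j.succ)
      simp only [Fin.append_left, Fin.append_right] at h2
      have e3 : (fun x => Ψ (fun i => g₀ i x) (Fin.cons (T' x) fun j => T j.succ x)) =
          fun x => Ψ (fun i => g₀ i x) (Fin.cons (F' fun i => g' i x) fun j => T j.succ x) := by
        funext x
        rw [hT' x]
      rw [e3]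
      exact h2
    have h3 := nr_push (fun x b => Ψ (fun i => g₀ i x) (Fin.cons b fun j => T j.succ x)) h1 D _
      (hT 0)
    have e4 : (fun x => Ψ (fun i => g₀ i x) fun j => T j x) =
        fun x => Ψ (fun i => g₀ i x) (Fin.cons (T 0 x) fun j => T j.succ x) := by
      funext x
      congr 1
      funext j
      refine Fin.cases ?_ (fun j => ?_) j
      · rw [Fin.cons_zero]
      · rw [Fin.cons_succ]
    rw [e4]
    exact h3

/-- A Boolean function of `m` search trees is a search tree. -/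
theorem stree_many {N B k D m : ℕ} {I : Fin q → Finset (Fin n)} (F : (Fin m → Bool) → Bool)
    (T : Fin m → (Fin n → Bool) → Bool) (hT : ∀ j, STree N B k I D (T j)) :
    STree N B (m * k) I (m * D) (fun x => F fun j => T j x) := by
  have h := nr_many m 0 (fun i => i.elim0) (fun i => i.elim0) (fun _ z => F z) T hT
  rw [zero_add] at h
  exact h

/-! ## Monotonicity -/

theorem nr_false (B : ℕ) (I : Fin q → Finset (Fin n)) : TGate B I fun _ => false := by
  refine Or.inl (Or.inl ⟨Fin 1, inferInstance, inferInstance, fun _ _ => 0, ∅, by simp,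
    fun _ _ _ _ => rfl, fun x => ?_⟩)
  simp

theorem nr_gate_mono {B B' : ℕ} (hB : B ≤ B') {I : Fin q → Finset (Fin n)}
    {g : (Fin n → Bool) → Bool} (h : TGate B I g) : TGate B' I g := by
  rcases h with (⟨G, i1, i2, a, A, h1, h2, h3⟩ | ⟨M, i1, i2, a, A, h1, h2, h3⟩) |
    ⟨w, θ, h1, h2, h3⟩
  · exact Or.inl (Or.inl ⟨G, i1, i2, a, A, h1.trans hB, h2, h3⟩)
  · exact Or.inl (Or.inr ⟨M, i1, i2, a, A, h1.trans hB, h2, h3⟩)
  · exact Or.inr ⟨w, θ, h1, fun j x => (h2 j x).trans (by exact_mod_cast hB), h3⟩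

theorem nr_dmono {𝒯 𝒰 : ((Fin n → Bool) → Bool) → Prop} (h : ∀ T, 𝒯 T → 𝒰 T) {d : ℕ}
    {T : (Fin n → Bool) → Bool} (hT : Rf.DTree 𝒯 d T) : Rf.DTree 𝒰 d T :=
  nr_dmap (fun _ b => b) h hT

theorem nr_smono {I : Fin q → Finset (Fin n)} {𝒯 𝒰 : ((Fin n → Bool) → Bool) → Prop}
    (h : ∀ T, 𝒯 T → 𝒰 T) {T : (Fin n → Bool) → Bool} (hT : Search I 𝒯 T) : Search I 𝒰 T :=
  nr_smap (fun _ b => b) h hT

/-- More gates, larger groups, more queries. -/
theorem nr_mono {N N' B B' k k' : ℕ} (hN : N ≤ N') (hB : B ≤ B') (hk : k ≤ k')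
    {I : Fin q → Finset (Fin n)} : ∀ (D : ℕ) (T : (Fin n → Bool) → Bool),
      STree N B k I D T → STree N' B' k' I D T
  | 0, _, ⟨g, F, hg, hT⟩ => by
    refine ⟨fun i => if h : (i : ℕ) < k then g ⟨i, h⟩ else fun _ => false,
      fun y => F fun i => y ⟨i, lt_of_lt_of_le i.2 hk⟩, fun i => ?_, fun x => ?_⟩
    · by_cases h : (i : ℕ) < k
      · simp only [dif_pos h]
        exact nr_gate_mono hB (hg _)
      · simp only [dif_neg h]
        exact nr_false B' I
    · rw [hT]
      congr 1
      funext i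
      simp only [dif_pos i.2]
  | D + 1, _, ⟨d, hd, hT⟩ => ⟨d, hd.trans hN,
      nr_dmono (fun _ h => nr_smono (nr_mono hN hB hk D) h) hT⟩

theorem nr_succ {N B k D : ℕ} (hN : 1 ≤ N) {I : Fin q → Finset (Fin n)}
    {T : (Fin n → Bool) → Bool} (h : STree N B k I D T) : STree N B k I (D + 1) T := by
  refine ⟨0, by simpa using hN, Rf.DTree.leaf ⟨Equiv.refl _, fun _ _ => false, fun _ _ => T, T,
    fun _ _ _ _ => rfl, fun _ _ _ _ => rfl, h, fun _ _ => h, fun x => ⟨fun _ => rfl,
      fun i hi _ => ?_⟩⟩⟩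
  exact absurd hi Bool.false_ne_true

theorem nr_depth {N B k D D' : ℕ} (hN : 1 ≤ N) (hD : D ≤ D') {I : Fin q → Finset (Fin n)}
    {T : (Fin n → Bool) → Bool} (h : STree N B k I D T) : STree N B k I D' T := by
  obtain ⟨e, rfl⟩ := Nat.exists_eq_add_of_le hD
  clear hD
  induction e with
  | zero => exact h
  | succ e ih => exact nr_succ hN ih

/-! ## Non-returning programs -/

/-- The last state if the state before the time `t` is `s`. -/
def runt {Q : Type} (π : Equiv.Perm (Fin q)) (τ : Fin q → (Fin n → Bool) → Q → Q) (t : ℕ) (s : Q)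
    (x : Fin n → Bool) : Q :=
  ((List.finRange q).drop t).foldl (fun s i => τ (π i) x s) s

theorem runt_zero {Q : Type} (π : Equiv.Perm (Fin q)) (τ : Fin q → (Fin n → Bool) → Q → Q) (s : Q)
    (x : Fin n → Bool) : runt π τ 0 s x = run π τ s x := rfl

theorem runt_step {Q : Type} (π : Equiv.Perm (Fin q)) (τ : Fin q → (Fin n → Bool) → Q → Q)
    {t : ℕ} (ht : t < q) (s : Q) (x : Fin n → Bool) :
    runt π τ t s x = runt π τ (t + 1) (τ (π ⟨t, ht⟩) x s) x := by
  unfold runt
  have h : (List.finRange q).drop t = ⟨t, ht⟩ :: (List.finRange q).drop (t + 1) := by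
    rw [List.drop_eq_getElem_cons (by simpa using ht)]
    congr 1
    simp
  rw [h, List.foldl_cons]

theorem runt_end {Q : Type} (π : Equiv.Perm (Fin q)) (τ : Fin q → (Fin n → Bool) → Q → Q)
    {t : ℕ} (ht : q ≤ t) (s : Q) (x : Fin n → Bool) : runt π τ t s x = s := by
  unfold runt
  rw [List.drop_eq_nil_of_le (by simpa using ht), List.foldl_nil]

/-- The state does not change before the time `e`. -/
theorem runt_const {Q : Type} (π : Equiv.Perm (Fin q)) (τ : Fin q → (Fin n → Bool) → Q → Q)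
    (s : Q) (x : Fin n → Bool) (e : ℕ) : ∀ (m t : ℕ), t + m = e →
      (∀ i : Fin q, t ≤ (i : ℕ) → (i : ℕ) < e → τ (π i) x s = s) →
      runt π τ t s x = runt π τ e s x
  | 0, t, h, _ => by rw [← h, add_zero]
  | m + 1, t, h, hc => by
    rcases lt_or_ge t q with ht | ht
    · rw [runt_step π τ ht, hc ⟨t, ht⟩ le_rfl (by simp only; omega)]
      exact runt_const π τ s x e m (t + 1) (by omega) fun i h1 h2 => hc i (by omega) h2
    · rw [runt_end π τ ht, runt_end π τ (by omega)]

open Classical in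
/-- Programs whose transitions fix the state or raise its rank. -/
theorem nonret_aux {B R : ℕ} {I : Fin q → Finset (Fin n)} {Q : Type} (π : Equiv.Perm (Fin q))
    (τ : Fin q → (Fin n → Bool) → Q → Q) (hτ : OnBlocks I τ) (ρ : Q → ℕ)
    (hρ : ∀ s, ρ s ≤ R) (hup : ∀ j x s, τ j x s = s ∨ ρ s < ρ (τ j x s)) (A : Set Q) :
    ∀ (D : ℕ) (s : Q) (t : ℕ), R ≤ ρ s + D → STree 1 B 0 I D
      (fun x => decide (runt π τ t s x ∈ A))
  | 0, s, t, h => by
    have hs : ∀ j x, τ j x s = s := by
      intro j x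
      rcases hup j x s with h1 | h1
      · exact h1
      · have := hρ (τ j x s)
        omega
    refine ⟨fun i => i.elim0, fun _ => decide (s ∈ A), fun i => i.elim0, fun x => ?_⟩
    show decide (runt π τ t s x ∈ A) = decide (s ∈ A)
    rw [runt_const π τ s x (max t q) (max t q - t) t (by omega) (fun i _ _ => hs _ _),
      runt_end π τ (le_max_right _ _)]
  | D + 1, s, t, h => by
    refine ⟨0, by simp, Rf.DTree.leaf ⟨π,
      fun j x => decide (t ≤ ((π.symm j : Fin q) : ℕ) ∧ τ j x s ≠ s),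
      fun j w => if ρ s < ρ (τ j w s) then
        fun x => decide (runt π τ (((π.symm j : Fin q) : ℕ) + 1) (τ j w s) x ∈ A)
        else fun _ => false,
      fun _ => decide (s ∈ A), ?_, ?_, ?_, ?_, ?_⟩⟩
    · intro j x y hxy
      simp only [hτ j x y hxy]
    · intro j x y hxy
      simp only [hτ j x y hxy]
    · exact nr_depth le_rfl (Nat.zero_le D)
        ⟨fun i => i.elim0, fun _ => decide (s ∈ A), fun i => i.elim0, fun x => rfl⟩
    · intro j w
      by_cases h1 : ρ s < ρ (τ j w s)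
      · simp only [if_pos h1]
        exact nonret_aux π τ hτ ρ hρ hup A D _ _ (by omega)
      · simp only [if_neg h1]
        exact nr_depth le_rfl (Nat.zero_le D)
          ⟨fun i => i.elim0, fun _ => false, fun i => i.elim0, fun x => rfl⟩
    · intro x
      refine ⟨fun h0 => ?_, fun i hi hi' => ?_⟩
      · have hc : ∀ i : Fin q, t ≤ (i : ℕ) → (i : ℕ) < max t q → τ (π i) x s = s := by
          intro i h1 _
          have h2 := h0 (π i)
          rw [decide_eq_false_iff_not, Equiv.symm_apply_apply] at h2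
          by_contra h3
          exact h2 ⟨h1, h3⟩
        show decide (runt π τ t s x ∈ A) = decide (s ∈ A)
        rw [runt_const π τ s x (max t q) (max t q - t) t (by omega) hc,
          runt_end π τ (le_max_right _ _)]
      · rw [decide_eq_true_iff, Equiv.symm_apply_apply] at hi
        have hc : ∀ i' : Fin q, t ≤ (i' : ℕ) → (i' : ℕ) < i → τ (π i') x s = s := by
          intro i' h1 h4
          have h2 := hi' i' (Fin.lt_def.2 h4)
          rw [decide_eq_false_iff_not, Equiv.symm_apply_apply] at h2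
          by_contra h3
          exact h2 ⟨h1, h3⟩
        have h1 : ρ s < ρ (τ (π i) x s) := (hup (π i) x s).resolve_left hi.2
        simp only [if_pos h1, Equiv.symm_apply_apply]
        rw [runt_const π τ s x i ((i : ℕ) - t) t (by omega) hc, runt_step π τ i.2]

/-- Non-returning programs, which never enter a state twice, are search trees. -/
theorem nonret_tree {B R : ℕ} {I : Fin q → Finset (Fin n)} {Q : Type} (π : Equiv.Perm (Fin q))
    (τ : Fin q → (Fin n → Bool) → Q → Q) (hτ : OnBlocks I τ) (ρ : Q → ℕ)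
    (hρ : ∀ s, ρ s ≤ R) (hup : ∀ j x s, τ j x s = s ∨ ρ s < ρ (τ j x s)) (s : Q) (A : Set Q)
    {T : (Fin n → Bool) → Bool} (hT : ∀ x, T x = true ↔ run π τ s x ∈ A) :
    STree 1 B 0 I R T := by
  classical
  have h := nonret_aux (B := B) π τ hτ ρ hρ hup A R s 0 (by omega)
  have e : T = fun x => decide (runt π τ 0 s x ∈ A) := by
    funext x
    rw [Bool.eq_iff_iff, hT, decide_eq_true_iff, runt_zero]
  rw [e]
  exact h

/-! ## Programs -/

/-- A gate, or a program with at most `B` states which reads the blocks in an arbitrary order `π`,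
and
* any two of its transitions which are not constant commute (no condition for two states),
* or it never returns to a state which it has left: `ρ` increases whenever the state changes. -/
def PGate (B : ℕ) (I : Fin q → Finset (Fin n)) (g : (Fin n → Bool) → Bool) : Prop :=
  TGate B I g ∨ ∃ (Q : Type) (_ : Fintype Q) (π : Equiv.Perm (Fin q))
    (τ : Fin q → (Fin n → Bool) → Q → Q) (s : Q) (A : Set Q), Fintype.card Q ≤ B ∧
    OnBlocks I τ ∧ ((∀ j x j' x', Rf.Const (τ j x) ∨ Rf.Const (τ j' x') ∨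
      ∀ s, τ j x (τ j' x' s) = τ j' x' (τ j x s)) ∨
      ∃ ρ : Q → ℕ, ∀ j x s, τ j x s = s ∨ ρ s < ρ (τ j x s)) ∧
    ∀ x, g x = true ↔ run π τ s x ∈ A

theorem nr_pow {a b : ℕ} (h : a ≤ b) : a ^ a ≤ b ^ b := by
  rcases Nat.eq_zero_or_pos a with h0 | h0
  · subst h0
    rcases Nat.eq_zero_or_pos b with h1 | h1
    · subst h1
      exact le_rfl
    · exact Nat.one_le_pow _ _ h1
  · exact (Nat.pow_le_pow_left h a).trans (Nat.pow_le_pow_right (h0.trans_le h) h)

/-- One gate or program. -/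
theorem pgate_tree {B : ℕ} {I : Fin q → Finset (Fin n)} {g : (Fin n → Bool) → Bool}
    (h : PGate B I g) : STree 1 (B ^ B + 1) 1 I (B + 1) g := by
  classical
  have hBB : B ≤ B ^ B + 1 := by
    rcases Nat.eq_zero_or_pos B with h0 | h0
    · omega
    · exact (Nat.le_self_pow (by omega) B).trans (Nat.le_succ _)
  rcases h with h | ⟨Q, i1, π, τ, s, A, hQ, hτ, h | ⟨ρ, hρ⟩, hT⟩
  · exact nr_depth le_rfl (Nat.zero_le _) ⟨fun _ => g, fun y => y 0,
      fun _ => nr_gate_mono hBB h, fun x => rfl⟩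
  · refine nr_depth le_rfl (by omega) (nr_mono le_rfl ?_ le_rfl 1 _
      (program_tree π τ hτ h s A hT))
    exact Nat.succ_le_succ (nr_pow hQ)
  · obtain ⟨σ, hσ⟩ : ∃ σ : Q → ℕ, σ = fun s => (univ.filter fun t => ρ t < ρ s).card := ⟨_, rfl⟩
    have h1 : ∀ s, σ s ≤ Fintype.card Q := by
      intro s
      rw [hσ]
      exact (card_filter_le _ _).trans (le_of_eq (Finset.card_univ))
    have h2 : ∀ j x s, τ j x s = s ∨ σ s < σ (τ j x s) := by
      intro j x s
      rcases hρ j x s with h3 | h3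
      · exact Or.inl h3
      · refine Or.inr ?_
        rw [hσ]
        refine card_lt_card ⟨fun t ht => ?_, fun hsub => ?_⟩
        · rw [mem_filter] at ht ⊢
          exact ⟨mem_univ _, ht.2.trans h3⟩
        · have := hsub (mem_filter.2 ⟨mem_univ s, h3⟩)
          rw [mem_filter] at this
          exact lt_irrefl _ this.2
    exact nr_depth le_rfl (hQ.trans (Nat.le_succ _)) (nr_mono le_rfl le_rfl
      (Nat.zero_le 1) _ _ (nonret_tree (B := B ^ B + 1) π τ hτ σ h1 h2 s A hT))

/-- Boolean functions of gates and programs, each with its own order, are search trees. -/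
theorem prog_tree {N B m : ℕ} (hN : 1 ≤ N) {I : Fin q → Finset (Fin n)}
    {g : Fin m → (Fin n → Bool) → Bool} (hg : ∀ i, PGate B I (g i)) (F : (Fin m → Bool) → Bool)
    {T : (Fin n → Bool) → Bool} (hT : ∀ x, T x = F fun i => g i x) :
    STree N (B ^ B + 1) m I (m * (B + 1)) T := by
  have h := stree_many F g fun i => nr_mono hN le_rfl le_rfl _ _ (pgate_tree (hg i))
  rw [mul_one] at h
  rw [show T = fun x => F fun i => g i x from funext hT]
  exact h

end Pool.Agent.MP_ca1109_lc.Ovr
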