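import Pool.Agent.MP_ca1109_lc.Ovr.TestF
import Pool.Agent.MP_ca1109_lc.Ovr.NR
import Pool.Agent.MP_ca1109_lc.Ovr.AG
import Pool.Agent.MP_ca1109_lc.Ovr.AW

/-!
# Partitions, search trees, programs and gates over overlapping blocks: the theorem
-/

namespace Pool.Agent.MP_ca1109_lc.Ovr

open Pool.Agent.MP_ca1109_lc.Mpg Pool.Agent.MP_ca1109_lc.Ov

theorem fgate_pgate {B n q : ℕ} {I : Fin q → Finset (Fin n)} {g : (Fin n → Bool) → Bool}
    (h : FGate B I g) : PGate B I g := by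
  rcases h with ⟨G, i1, a, A, h1, h2, h3⟩ | ⟨w, θ, h1, h2, h3⟩ | h
  · exact Or.inl (agate_tgate h1 h2 h3)
  · exact Or.inl (Or.inr ⟨w, θ, h1, h2, h3⟩)
  · exact Or.inr h

/-- Programs are search trees. -/
theorem ftree_stree {N B k n q : ℕ} (hN : 1 ≤ N) {I : Fin q → Finset (Fin n)} :
    ∀ (D : ℕ) (T : (Fin n → Bool) → Bool), FTree N B k I D T →
      STree N (B ^ B + 1) k I (k * (B + 1) + D) T
  | 0, _, hT => by
    obtain ⟨g, F, hg, hT⟩ := hT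
    exact prog_tree hN (fun i => fgate_pgate (hg i)) F hT
  | D + 1, _, hT => by
    obtain ⟨d, hd, hT⟩ := hT
    exact ⟨d, hd, nr_dmono (fun _ hU => nr_smono (ftree_stree hN D) hU) hT⟩

theorem ftest_oatest {c r B k D h n : ℕ} (hn : 1 ≤ n) {T : (Fin n → Bool) → Bool}
    (hT : FTest c r B k D h n T) : OATest c r (B ^ B + 1) k (k * (B + 1) + D) h n T := by
  obtain ⟨N, L, a, g, h1, h2, h3, h4⟩ := hT
  refine ⟨N, L, a, g, h1, h2, fun j => ?_, h4⟩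
  obtain ⟨q, I, h5, h6, h7⟩ := h3 j
  exact ⟨q, I, h5, h6, ftree_stree (Nat.one_le_pow _ _ hn) D _ h7⟩

/-- The theorem. -/
theorem ffinal (c r B k D h : ℕ) {ε : ℝ} (hε : 0 < ε) : LogGen (FTest c r B k D h) ε := by
  obtain ⟨E, G, hE, hG, hl, C, hC⟩ := oafinal c r (B ^ B + 1) k (k * (B + 1) + D) h hε
  refine ⟨E, G, hE, hG, hl, C, ?_⟩
  filter_upwards [hC, Filter.eventually_ge_atTop 1] with n hn hn'
  exact ⟨hn.1, hn.2.1, fun T hT => hn.2.2 T (ftest_oatest hn' hT)⟩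

end Pool.Agent.MP_ca1109_lc.Ovr
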