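import Pool.Agent.MP_ca1109_lc.Ov.FG
import Pool.Agent.MP_ca1109_lc.Rf.RE
import Pool.Agent.MP_ca1109_lc.Rf.MWa

/-!
# Conditional fooling of product tests over overlapping blocks, search trees: definitions

* `OFools N b r ε τ X`: `X` fools all product tests over overlapping blocks, conditionally on
  patterns of few bits, with relative error `ε` and absolute error `τ`.
* `Uni`: the unimodular case over a finite index type.
-/

namespace Pool.Agent.MP_ca1109_lc.Ovr

open Finset Pool.Agent.H66 Pool.Agent.MP_ca1109_lc.Mpg Pool.Agent.MP_ca1109_lc.Agp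
  Pool.Agent.MP_ca1109_lc.Xp Pool.Agent.MP_ca1109_lc.Ov

variable {n : ℕ}

/-- Product tests over overlapping blocks are fooled conditionally on the patterns of at most
`b log N` bits outside the blocks. -/
def OFools (N b r : ℕ) (ε τ : ℝ) {Ω : Type} [Fintype Ω] (X : Ω → Fin n → Bool) : Prop :=
  ∀ (q : ℕ) (I : Fin q → Finset (Fin n)) (f : Fin q → (Fin n → Bool) → ℂ), Over r I →
    (∀ j, 2 ^ (I j).card ≤ N) → (∀ j, Dep (I j) (f j)) → (∀ j x, ‖f j x‖ ≤ 1) →
    ∀ (B : Finset (Fin n)) (v : Fin n → Bool), (∀ j, Disjoint (I j) B) → 2 ^ B.card ≤ N ^ b →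
      ‖av (fun ω => Rf.pc B v (X ω) * ∏ j, f j (X ω)) -
        (1 / 2) ^ B.card * av (fun x => ∏ j, f j x)‖ ≤ (1 / 2) ^ B.card * ε + τ

end Pool.Agent.MP_ca1109_lc.Ovr
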