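import Pool.Agent.MP_ca1109_lc.Ovr.Defs
import Pool.Agent.MP_ca1109_lc.Ov.BI

/-!
# Row OB: weighted biased strings and simple functions
-/

namespace Pool.Agent.MP_ca1109_lc.Ovr

open Finset Pool.Agent.H66 Pool.Agent.MP_ca1109_lc.Mpg Pool.Agent.MP_ca1109_lc.Agp
  Pool.Agent.MP_ca1109_lc.Xp Pool.Agent.MP_ca1109_lc.Ov
open Pool.Agent.MP_ca1109_lc.Dnf (one)

variable {n : ℕ}

theorem ob_wB_nonneg {L T : ℕ} (B : Finset (Fin n)) (l t : ℕ) (d : Fin T → Bool)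
    (z : Fin (n * (L + T)) → Bool) : 0 ≤ Rf.wB B l t d z := by
  unfold Rf.wB
  refine prod_nonneg fun i _ => ?_
  split_ifs <;> norm_num

theorem ob_wB_le {L T : ℕ} (B : Finset (Fin n)) (l t : ℕ) (d : Fin T → Bool)
    (z : Fin (n * (L + T)) → Bool) : Rf.wB B l t d z ≤ 2 ^ B.card := by
  unfold Rf.wB
  rw [← prod_const]
  refine prod_le_prod (fun i _ => ?_) fun i _ => ?_
  · split_ifs <;> norm_num
  · split_ifs <;> norm_num

theorem ob_wd {L T l t : ℕ} (hl : l ≤ L) (ht : t ≤ T) {d : Fin T → Bool}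
    (hd : ¬ ∀ r : Fin T, (r : ℕ) < t → d r = false) {B I : Finset (Fin n)} (hIB : Disjoint I B)
    {a : ℝ} {v : (Fin n → Bool) → ℂ} (hv : Dep I v) (ha : ∀ W, ‖v W‖ ≤ a) :
    Sp (2 ^ B.card * (2 ^ I.card * a * 3 ^ I.card)) (fun z : Fin (n * (L + T)) → Bool =>
      ((Rf.wB B l t d z : ℝ) : ℂ) * v (Rf.Wd l t z d)) ∧
    (av fun z : Fin (n * (L + T)) → Bool => ((Rf.wB B l t d z : ℝ) : ℂ) * v (Rf.Wd l t z d)) =
      ∑ S : Finset (Fin n), Pt.co v S *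
        ((((-1) ^ S.card * (1 - 2 * (1 / 2) ^ (l + 1)) ^ S.card : ℝ)) : ℂ) := by
  classical
  have h1 : ∀ W, v W = ∑ S, (Pt.co v S * (((-1) ^ S.card : ℝ) : ℂ)) *
      ((Pt.cc S W : ℝ) : ℂ) := by
    intro W
    rw [Pt.co_exp v W]
    refine sum_congr rfl fun S _ => ?_
    rw [bi_ch]
    push_cast
    ring
  have h2 : ∀ W, v W = ∑ S ∈ I.powerset, (Pt.co v S * (((-1) ^ S.card : ℝ) : ℂ)) *
      ((Pt.cc S W : ℝ) : ℂ) := by
    intro W
    rw [h1 W]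
    symm
    refine sum_subset (subset_univ _) fun S _ hS => ?_
    rw [mem_powerset] at hS
    rw [Pt.co_on hv hS]
    simp
  have ha0 : 0 ≤ a := (norm_nonneg _).trans (ha fun _ => true)
  constructor
  · have h3 := Sp.sum I.powerset
      (fun S => ‖Pt.co v S * (((-1) ^ S.card : ℝ) : ℂ)‖ * 3 ^ S.card)
      (fun S (z : Fin (n * (L + T)) → Bool) => (Pt.co v S * (((-1) ^ S.card : ℝ) : ℂ)) *
        ((Pt.cc S (Rf.Wd l t z d) : ℝ) : ℂ))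
      fun S _ => Sp.smul _ (Rf.cc_spv hl t d S)
    refine (Rf.wB_sp hl B t d).mul ((h3.mono ?_).congr' fun z => h2 _)
    calc ∑ S ∈ I.powerset, ‖Pt.co v S * (((-1) ^ S.card : ℝ) : ℂ)‖ * 3 ^ S.card
        ≤ ∑ _S ∈ I.powerset, a * 3 ^ I.card := by
          refine sum_le_sum fun S hS => ?_
          rw [mem_powerset] at hS
          have h4 : ‖Pt.co v S * (((-1) ^ S.card : ℝ) : ℂ)‖ ≤ a := by
            rw [norm_mul, Complex.norm_real, norm_pow, norm_neg, norm_one, one_pow, mul_one]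
            exact Pt.ex_co_norm ha S
          have h5 : ((3 : ℝ) ^ S.card) ≤ 3 ^ I.card :=
            pow_le_pow_right₀ (by norm_num) (card_le_card hS)
          exact mul_le_mul h4 h5 (by positivity) ha0
      _ = 2 ^ I.card * a * 3 ^ I.card := by
          rw [sum_const, card_powerset, nsmul_eq_mul]
          push_cast
          ring
  · have h3 : (fun z : Fin (n * (L + T)) → Bool =>
        ((Rf.wB B l t d z : ℝ) : ℂ) * v (Rf.Wd l t z d)) =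
        fun z => ∑ S ∈ I.powerset, (Pt.co v S * (((-1) ^ S.card : ℝ) : ℂ)) *
          ((Rf.wB B l t d z * Pt.cc S (Rf.Wd l t z d) : ℝ) : ℂ) := by
      funext z
      rw [h2, mul_sum]
      refine sum_congr rfl fun S _ => ?_
      push_cast
      ring
    rw [h3, spb_av_sum]
    have h4 : ∀ S ∈ I.powerset, (av fun z : Fin (n * (L + T)) → Bool =>
        (Pt.co v S * (((-1) ^ S.card : ℝ) : ℂ)) *
          ((Rf.wB B l t d z * Pt.cc S (Rf.Wd l t z d) : ℝ) : ℂ)) = Pt.co v S *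
        ((((-1) ^ S.card * (1 - 2 * (1 / 2) ^ (l + 1)) ^ S.card : ℝ)) : ℂ) := by
      intro S hS
      rw [mem_powerset] at hS
      rw [spb_av_mul, spb_avg_ofReal, Rf.wB_avg hl ht (Finset.disjoint_of_subset_left hS hIB) hd]
      push_cast
      ring
    rw [sum_congr rfl h4]
    refine sum_subset (subset_univ _) fun S _ hS => ?_
    rw [mem_powerset] at hS
    rw [Pt.co_on hv hS, zero_mul]

theorem ob_one {L T l t : ℕ} (hl : l ≤ L) (ht : t ≤ T) {d : Fin T → Bool}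
    (hd : ¬ ∀ r : Fin T, (r : ℕ) < t → d r = false) (u : Fin T → Bool) {I B : Finset (Fin n)}
    (hIB : Disjoint I B) (v : Fin n → Bool) {a : ℝ} {g : (Fin n → Bool × Bool) → ℂ}
    (hg : Dep I g) (ha : ∀ x, ‖g x‖ ≤ a) {Ω₁ Ω₂ : Type} [Fintype Ω₁] [Nonempty Ω₁]
    [Fintype Ω₂] [Nonempty Ω₂] (Y : Ω₁ → Fin n → Bool) (Z : Ω₂ → Fin (n * (L + T)) → Bool)
    (sh : Ω₂ → Fin n → Bool) {δ : ℝ} (hδ : 0 ≤ δ) (hY : Bias δ Y) (hZ : Bias δ Z) :
    ‖(av fun ω₂ => ((Rf.wB B l t d (Z ω₂) : ℝ) : ℂ) * av fun ω₁ =>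
        Rf.pc B v (xo (xo (Y ω₁) (sh ω₂)) (Rf.Wd l t (Z ω₂) u)) *
        g fun i => (xo (xo (Y ω₁) (sh ω₂)) (Rf.Wd l t (Z ω₂) u) i, Rf.Wd l t (Z ω₂) d i)) -
      (1 / 2) ^ B.card * avp ((1 / 2) ^ (l + 1)) g‖ ≤
      δ * (2 * a * (2 ^ B.card * (2 ^ I.card) ^ 4)) := by
  classical
  have ha0 : 0 ≤ a := (norm_nonneg _).trans (ha fun _ => (true, true))
  set w : (Fin n → Bool) → ℂ := fun W => av fun y : Fin n → Bool => g fun i => (y i, W i) with hw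
  have hwd : Dep I w := by
    intro x y hxy
    rw [hw]
    show (av fun z : Fin n → Bool => g fun i => (z i, x i)) =
      av fun z : Fin n → Bool => g fun i => (z i, y i)
    congr 1
    funext z
    exact hg _ _ fun e he => by rw [hxy e he]
  have hwa : ∀ W, ‖w W‖ ≤ a := fun W => (norm_av_le _).trans (avg_le fun y => ha _)
  obtain ⟨h2, h3⟩ := ob_wd (B := B) (L := L) hl ht hd hIB hwd hwa
  have h1 : ‖(av fun ω₂ => ((Rf.wB B l t d (Z ω₂) : ℝ) : ℂ) * av fun ω₁ =>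
        Rf.pc B v (xo (xo (Y ω₁) (sh ω₂)) (Rf.Wd l t (Z ω₂) u)) *
        g fun i => (xo (xo (Y ω₁) (sh ω₂)) (Rf.Wd l t (Z ω₂) u) i, Rf.Wd l t (Z ω₂) d i)) -
      av fun ω₂ => ((Rf.wB B l t d (Z ω₂) : ℝ) : ℂ) *
        ((1 / 2) ^ B.card * w (Rf.Wd l t (Z ω₂) d))‖ ≤ 2 ^ B.card * (δ * (2 ^ I.card * a)) := by
    refine bi_close fun ω₂ => ?_
    rw [← mul_sub, norm_mul, Complex.norm_real, Real.norm_eq_abs,
      abs_of_nonneg (ob_wB_nonneg B l t d (Z ω₂))]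
    refine mul_le_mul (ob_wB_le B l t d (Z ω₂)) ?_ (norm_nonneg _) (by positivity)
    exact Rf.rel (B := B) (v := v) (t := fun y : Fin n → Bool =>
      g fun i => (y i, Rf.Wd l t (Z ω₂) d i))
      (Pt.sp_on (I := I) (fun x y hxy => hg _ _ fun e he => by rw [hxy e he]) fun x => ha _)
      (fun x y hxy => hg _ _ fun e he => by
        rw [hxy e (mem_compl.2 fun h => Finset.disjoint_left.1 hIB he h)])
      (Y := fun ω₁ => xo (xo (Y ω₁) (sh ω₂)) (Rf.Wd l t (Z ω₂) u)) hδ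
      ((hY.xo (sh ω₂)).xo (Rf.Wd l t (Z ω₂) u))
  have h4 := fool (f := fun z : Fin (n * (L + T)) → Bool =>
    ((Rf.wB B l t d z : ℝ) : ℂ) * w (Rf.Wd l t z d)) hδ hZ h2
  have h5 : avp ((1 / 2) ^ (l + 1)) g = av fun z : Fin (n * (L + T)) → Bool =>
      ((Rf.wB B l t d z : ℝ) : ℂ) * w (Rf.Wd l t z d) := by
    rw [h3, bi_avp]
  have h6 : (av fun ω₂ => ((Rf.wB B l t d (Z ω₂) : ℝ) : ℂ) *
        ((1 / 2) ^ B.card * w (Rf.Wd l t (Z ω₂) d))) = (1 / 2) ^ B.card *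
      av fun ω₂ => ((Rf.wB B l t d (Z ω₂) : ℝ) : ℂ) * w (Rf.Wd l t (Z ω₂) d) := by
    rw [← spb_av_mul]
    congr 1
    funext ω₂
    ring
  have h7 : ‖(av fun ω₂ => ((Rf.wB B l t d (Z ω₂) : ℝ) : ℂ) *
        ((1 / 2) ^ B.card * w (Rf.Wd l t (Z ω₂) d))) -
      (1 / 2) ^ B.card * avp ((1 / 2) ^ (l + 1)) g‖ ≤
      (1 / 2) ^ B.card * (δ * (2 ^ B.card * (2 ^ I.card * a * 3 ^ I.card))) := by
    rw [h5, h6, ← mul_sub, norm_mul, norm_pow]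
    have : ‖(1 / 2 : ℂ)‖ = 1 / 2 := by simp
    rw [this]
    exact mul_le_mul_of_nonneg_left h4 (by positivity)
  refine (norm_sub_le_norm_sub_add_norm_sub _ (av fun ω₂ => ((Rf.wB B l t d (Z ω₂) : ℝ) : ℂ) *
        ((1 / 2) ^ B.card * w (Rf.Wd l t (Z ω₂) d))) _).trans ((add_le_add h1 h7).trans ?_)
  set V : ℝ := 2 ^ I.card with hV
  set U : ℝ := 2 ^ B.card with hU
  have hV1 : 1 ≤ V := one_le_pow₀ (by norm_num)
  have hU1 : 1 ≤ U := one_le_pow₀ (by norm_num)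
  have h8 : (1 / 2 : ℝ) ^ B.card * U = 1 := by
    rw [hU, ← mul_pow]
    norm_num
  have h9 : (3 : ℝ) ^ I.card ≤ V ^ 2 := by
    rw [hV, ← pow_mul, mul_comm, pow_mul]
    exact pow_le_pow_left₀ (by norm_num) (by norm_num) _
  have h10 : (1 / 2 : ℝ) ^ B.card * (δ * (U * (V * a * 3 ^ I.card))) =
      δ * a * (V * 3 ^ I.card) := by
    calc (1 / 2 : ℝ) ^ B.card * (δ * (U * (V * a * 3 ^ I.card))) =
        ((1 / 2 : ℝ) ^ B.card * U) * (δ * a * (V * 3 ^ I.card)) := by ring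
      _ = _ := by rw [h8, one_mul]
  rw [h10]
  have h11 : V ≤ V ^ 4 := le_self_pow₀ hV1 (by norm_num)
  have h12 : V * 3 ^ I.card ≤ V ^ 4 := by
    calc V * 3 ^ I.card ≤ V * V ^ 2 := mul_le_mul_of_nonneg_left h9 (by positivity)
      _ = V ^ 3 := by ring
      _ ≤ V ^ 4 := pow_le_pow_right₀ hV1 (by norm_num)
  have h13 : V ^ 4 ≤ U * V ^ 4 := le_mul_of_one_le_left (by positivity) hU1
  have h14 : U * V ≤ U * V ^ 4 := mul_le_mul_of_nonneg_left h11 (by positivity)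
  have h15 : 0 ≤ δ * a := mul_nonneg hδ ha0
  calc U * (δ * (V * a)) + δ * a * (V * 3 ^ I.card) = δ * a * (U * V + V * 3 ^ I.card) := by ring
    _ ≤ δ * a * (U * V ^ 4 + U * V ^ 4) :=
      mul_le_mul_of_nonneg_left (add_le_add h14 (h12.trans h13)) h15
    _ = _ := by ring

theorem bias_pair_w {L T l t : ℕ} (hl : l ≤ L) (ht : t ≤ T) {d : Fin T → Bool}
    (hd : ¬ ∀ r : Fin T, (r : ℕ) < t → d r = false) (u : Fin T → Bool) {ι : Type}
    {Bk : ι → Finset (Fin n)} {N K : ℕ} (hN : 1 ≤ N) (hB : ∀ i, 2 ^ (Bk i).card ≤ N)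
    {B : Finset (Fin n)} (hBd : ∀ i, Disjoint (Bk i) B) (v : Fin n → Bool) {M : ℝ}
    {g : (Fin n → Bool × Bool) → ℂ} (h : Smp Bk K M g) {Ω₁ Ω₂ : Type} [Fintype Ω₁] [Nonempty Ω₁]
    [Fintype Ω₂] [Nonempty Ω₂] (Y : Ω₁ → Fin n → Bool) (Z : Ω₂ → Fin (n * (L + T)) → Bool)
    (sh : Ω₂ → Fin n → Bool) {δ : ℝ} (hδ : 0 ≤ δ) (hY : Bias δ Y) (hZ : Bias δ Z) :
    ‖(av fun ω₂ => ((Rf.wB B l t d (Z ω₂) : ℝ) : ℂ) * av fun ω₁ =>
        Rf.pc B v (xo (xo (Y ω₁) (sh ω₂)) (Rf.Wd l t (Z ω₂) u)) *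
        g fun i => (xo (xo (Y ω₁) (sh ω₂)) (Rf.Wd l t (Z ω₂) u) i, Rf.Wd l t (Z ω₂) d i)) -
      (1 / 2) ^ B.card * avp ((1 / 2) ^ (l + 1)) g‖ ≤
      δ * (2 * M * (2 ^ B.card * N ^ (4 * K))) := by
  classical
  obtain ⟨q, φ, a, b, hφ, hM, hg⟩ := h
  have ha : ∀ i, 0 ≤ a i := fun i => (norm_nonneg _).trans ((hφ i).2.2 fun _ => (true, true))
  have h1 : g = fun x => ∑ i, φ i x := funext hg
  have h2 : (av fun ω₂ => ((Rf.wB B l t d (Z ω₂) : ℝ) : ℂ) * av fun ω₁ =>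
        Rf.pc B v (xo (xo (Y ω₁) (sh ω₂)) (Rf.Wd l t (Z ω₂) u)) *
        g fun i => (xo (xo (Y ω₁) (sh ω₂)) (Rf.Wd l t (Z ω₂) u) i, Rf.Wd l t (Z ω₂) d i)) -
      (1 / 2) ^ B.card * avp ((1 / 2) ^ (l + 1)) g =
      ∑ j, ((av fun ω₂ => ((Rf.wB B l t d (Z ω₂) : ℝ) : ℂ) * av fun ω₁ =>
        Rf.pc B v (xo (xo (Y ω₁) (sh ω₂)) (Rf.Wd l t (Z ω₂) u)) *
        φ j fun i => (xo (xo (Y ω₁) (sh ω₂)) (Rf.Wd l t (Z ω₂) u) i, Rf.Wd l t (Z ω₂) d i)) -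
      (1 / 2) ^ B.card * avp ((1 / 2) ^ (l + 1)) (φ j)) := by
    rw [h1, sum_sub_distrib]
    congr 1
    · simp only [mul_sum, spb_av_sum]
    · rw [← mul_sum]
      congr 1
      unfold avp
      rw [← spb_av_sum]
      congr 1
      funext y
      rw [sum_comm]
      refine sum_congr rfl fun W _ => ?_
      rw [mul_sum]
  rw [h2]
  refine (norm_sum_le _ _).trans ?_
  have h3 : ∀ j : Fin q, ‖(av fun ω₂ => ((Rf.wB B l t d (Z ω₂) : ℝ) : ℂ) * av fun ω₁ =>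
        Rf.pc B v (xo (xo (Y ω₁) (sh ω₂)) (Rf.Wd l t (Z ω₂) u)) *
        φ j fun i => (xo (xo (Y ω₁) (sh ω₂)) (Rf.Wd l t (Z ω₂) u) i, Rf.Wd l t (Z ω₂) d i)) -
      (1 / 2) ^ B.card * avp ((1 / 2) ^ (l + 1)) (φ j)‖ ≤
      δ * (2 * a j * (2 ^ B.card * N ^ (4 * K))) := by
    intro j
    have h4 : Disjoint ((b j).biUnion Bk) B :=
      (Finset.disjoint_biUnion_left _ _ _).2 fun i _ => hBd i
    refine (ob_one hl ht hd u h4 v (hφ j).2.1 (hφ j).2.2 Y Z sh hδ hY hZ).trans ?_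
    refine mul_le_mul_of_nonneg_left (mul_le_mul_of_nonneg_left
      (mul_le_mul_of_nonneg_left ?_ (by positivity)) (by have := ha j; positivity)) hδ
    rw [mul_comm 4 K, pow_mul]
    exact pow_le_pow_left₀ (by positivity) (bi_card hN hB (hφ j).1) _
  refine (sum_le_sum fun j _ => h3 j).trans ?_
  calc ∑ j, δ * (2 * a j * (2 ^ B.card * (N : ℝ) ^ (4 * K)))
      = δ * (2 * (∑ j, a j) * (2 ^ B.card * (N : ℝ) ^ (4 * K))) := by
        rw [← mul_sum, ← sum_mul, ← mul_sum]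
    _ ≤ δ * (2 * M * (2 ^ B.card * N ^ (4 * K))) :=
        mul_le_mul_of_nonneg_left (mul_le_mul_of_nonneg_right
          (mul_le_mul_of_nonneg_left hM (by norm_num)) (by positivity)) hδ

end Pool.Agent.MP_ca1109_lc.Ovr
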