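import Pool.Agent.MP_ca1109_lc.Rf.VH
import Pool.Agent.MP_ca1109_lc.Rf.RE
import Pool.Agent.MP_ca1109_lc.Rf.MWa
import Pool.Agent.MP_ca1109_lc.Pt.CS
import Pool.Agent.MP_ca1109_lc.Pt.AU

/-!
# Row OC: the conditional Cauchy-Schwarz inequality with the norm outside
-/

namespace Pool.Agent.MP_ca1109_lc.Ovr

open Finset Pool.Agent.H66 Pool.Agent.MP_ca1109_lc.Mpg Pool.Agent.MP_ca1109_lc.Agp
  Pool.Agent.MP_ca1109_lc.Xp Pool.Agent.MP_ca1109_lc.Rf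
open Pool.Agent.MP_ca1109_lc.Dnf (Cube ch one On)
open Pool.Agent.MP_ca1109_lc.Pt (dr)

variable {n : ℕ}

/-- Cauchy-Schwarz for averages. -/
theorem oc_avg {A : Type*} [Fintype A] (F G : A → ℝ) :
    (avg fun a => F a * G a) ^ 2 ≤ (avg fun a => F a ^ 2) * avg fun a => G a ^ 2 := by
  unfold avg
  rw [div_pow, div_mul_div_comm, ← sq]
  exact div_le_div_of_nonneg_right (Finset.sum_mul_sq_le_sq_mul_sq _ _ _) (sq_nonneg _)

theorem oc_avg2 {A B : Type*} [Fintype A] [Fintype B] (F G : A → B → ℝ) :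
    (avg fun a => avg fun b => F a b * G a b) ^ 2 ≤
      (avg fun a => avg fun b => F a b ^ 2) * avg fun a => avg fun b => G a b ^ 2 := by
  have h := oc_avg (fun p : A × B => F p.1 p.2) fun p => G p.1 p.2
  rw [avg_prod fun a b => F a b * G a b, avg_prod fun a b => F a b ^ 2,
    avg_prod fun a b => G a b ^ 2] at h
  exact h

theorem oc_re {A : Type*} [Fintype A] [Nonempty A] (F : A → ℂ) : ‖av F‖ ≤ avg fun a => ‖F a‖ :=
  norm_av_le F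

/-- The product of the patterns. -/
theorem oc_pc (B : Finset (Fin n)) (v x w : Cube n) :
    pc B v x * (starRingEnd ℂ) (pc B v (xo x w)) =
      ((one (∀ i ∈ B, w i = false) : ℝ) : ℂ) * pc B v x := by
  unfold pc
  rw [Complex.conj_ofReal]
  by_cases hx : pat B v x
  · rw [Dnf.one_true hx]
    by_cases hw : ∀ i ∈ B, w i = false
    · have h1 : pat B v (xo x w) := fun i hi => by
        unfold xo
        rw [hw i hi, Bool.xor_false]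
        exact hx i hi
      rw [Dnf.one_true hw, Dnf.one_true h1]
    · have h1 : ¬ pat B v (xo x w) := fun h => hw fun i hi => by
        have h2 := h i hi
        unfold xo at h2
        rw [← hx i hi] at h2
        cases hwi : w i
        · rfl
        · rw [hwi] at h2
          cases x i <;> simp at h2
      rw [Dnf.one_false hw, Dnf.one_false h1]
      simp
  · rw [Dnf.one_false hx]
    simp

theorem rcs_out {L T l t : ℕ} (B : Finset (Fin n)) (v : Fin n → Bool) {g : (Fin n → Bool) → ℂ}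
    (hg : ∀ x, ‖g x‖ ≤ 1) {Ω₁ Ω₂ : Type} [Fintype Ω₁] [Nonempty Ω₁] [Fintype Ω₂] [Nonempty Ω₂]
    (Y : Ω₁ → Fin n → Bool) (Z : Ω₂ → Fin (n * (L + T)) → Bool) (sh : Ω₂ → Fin n → Bool) {δ : ℝ}
    (hδ : 0 ≤ δ) (hY : Bias δ Y) :
    ‖av fun ω₂ => av fun ω₁ => av fun u : Fin T → Bool =>
        Rf.pc B v (xo (xo (Y ω₁) (sh ω₂)) (Rf.Wd l t (Z ω₂) u)) *
        g (xo (xo (Y ω₁) (sh ω₂)) (Rf.Wd l t (Z ω₂) u))‖ ^ 2 ≤
      (1 / 2) ^ B.card * (avg fun d : Fin T → Bool => avg fun u : Fin T → Bool =>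
        ‖av fun ω₂ => ((Rf.wB B l t d (Z ω₂) : ℝ) : ℂ) * av fun ω₁ =>
          Rf.pc B v (xo (xo (Y ω₁) (sh ω₂)) (Rf.Wd l t (Z ω₂) u)) *
          Pt.dr g (Rf.Wd l t (Z ω₂) d) (xo (xo (Y ω₁) (sh ω₂)) (Rf.Wd l t (Z ω₂) u))‖) + δ := by
  classical
  set X : Ω₂ → Ω₁ → Cube T → Cube n := fun ω₂ ω₁ u =>
    xo (xo (Y ω₁) (sh ω₂)) (Wd l t (Z ω₂) u) with hX
  set φ : Ω₂ → Ω₁ → Cube T → ℂ := fun ω₂ ω₁ u => pc B v (X ω₂ ω₁ u) * g (X ω₂ ω₁ u) with hφ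
  set S : Ω₂ → Ω₁ → ℂ := fun ω₂ ω₁ => av (φ ω₂ ω₁) with hS
  set ρ : Ω₂ → ℝ := fun ω₂ => 2 ^ (eta (Z ω₂) l ∩ B).card with hρ
  set D : Ω₂ → Finset (Fin n) := fun ω₂ => B \ eta (Z ω₂) l with hD
  have hρ0 : ∀ ω₂, 0 < ρ ω₂ := fun ω₂ => by rw [hρ]; positivity
  set ev : Ω₂ → Ω₁ → ℝ := fun ω₂ ω₁ => one (pat (D ω₂) v (xo (Y ω₁) (sh ω₂))) with hev
  have hev0 : ∀ ω₂ ω₁, 0 ≤ ev ω₂ ω₁ := fun ω₂ ω₁ => Dnf.one_nonneg _
  have hev2 : ∀ ω₂ ω₁, ev ω₂ ω₁ ^ 2 = ev ω₂ ω₁ := fun ω₂ ω₁ => by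
    rw [hev]
    by_cases h : pat (D ω₂) v (xo (Y ω₁) (sh ω₂))
    · simp only [Dnf.one_true h, one_pow]
    · simp only [Dnf.one_false h]
      norm_num
  -- the support
  have h0 : ∀ ω₂ ω₁, ‖S ω₂ ω₁‖ = ev ω₂ ω₁ * ‖S ω₂ ω₁‖ := by
    intro ω₂ ω₁
    by_cases h : pat (D ω₂) v (xo (Y ω₁) (sh ω₂))
    · rw [hev]
      simp only [Dnf.one_true h, one_mul]
    · have h2 : S ω₂ ω₁ = 0 := by
        rw [hS, hφ]
        have h3 : (fun u : Cube T => pc B v (X ω₂ ω₁ u) * g (X ω₂ ω₁ u)) = fun _ => 0 := by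
          funext u
          have h4 : ¬ pat B v (X ω₂ ω₁ u) := by
            intro h5
            refine h fun i hi => ?_
            rw [hD] at hi
            simp only [mem_sdiff] at hi
            have h6 := h5 i hi.1
            rw [hX] at h6
            have h7 : Wd l t (Z ω₂) u i = false := by
              unfold Wd wv
              rw [decide_eq_false hi.2, Bool.false_and]
            simp only [xo] at h6 ⊢
            rw [h7, Bool.xor_false] at h6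
            exact h6
          unfold pc
          rw [Dnf.one_false h4]
          simp
        simp only [h3]
        unfold av
        simp
      rw [h2, norm_zero, mul_zero]
  have hS1 : ∀ ω₂ ω₁, ‖S ω₂ ω₁‖ ≤ 1 := by
    intro ω₂ ω₁
    refine (norm_av_le _).trans (avg_le fun u => ?_)
    rw [hφ]
    simp only [norm_mul]
    have h5 : ‖pc B v (X ω₂ ω₁ u)‖ ≤ 1 := by
      unfold pc
      rw [Complex.norm_real, Real.norm_eq_abs, abs_of_nonneg (Dnf.one_nonneg _)]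
      exact Dnf.one_le _
    exact mul_le_one₀ h5 (norm_nonneg _) (hg _)
  -- Cauchy-Schwarz for fixed `ω₂`
  have h1 : ∀ ω₂, ‖av fun ω₁ => S ω₂ ω₁‖ ^ 2 ≤
      (1 / 2) ^ B.card * (avg fun ω₁ => ρ ω₂ * ‖S ω₂ ω₁‖ ^ 2) + δ := by
    intro ω₂
    have e0 : ‖av fun ω₁ => S ω₂ ω₁‖ ≤ avg fun ω₁ => ev ω₂ ω₁ * ‖S ω₂ ω₁‖ := by
      refine (norm_av_le _).trans (le_of_eq ?_)
      exact congr_arg avg (funext fun ω₁ => h0 ω₂ ω₁)
    have e1 : ‖av fun ω₁ => S ω₂ ω₁‖ ^ 2 ≤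
        (avg fun ω₁ => ev ω₂ ω₁) * avg fun ω₁ => ‖S ω₂ ω₁‖ ^ 2 := by
      refine (pow_le_pow_left₀ (norm_nonneg _) e0 2).trans ?_
      have h3 := oc_avg (fun ω₁ => ev ω₂ ω₁) fun ω₁ => ‖S ω₂ ω₁‖
      have e2 : (fun ω₁ => ev ω₂ ω₁ ^ 2) = fun ω₁ => ev ω₂ ω₁ := funext fun ω₁ => hev2 ω₂ ω₁
      rwa [e2] at h3
    have e2 : (avg fun ω₁ => ev ω₂ ω₁) ≤ (1 / 2) ^ (D ω₂).card + δ := by
      have h4 := re_real (B := D ω₂) (v := v) (M := 1) (δ := δ) (R := fun _ => 1)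
        (by simpa using Sp.const (n := n) (1 : ℂ)) (fun _ _ _ => rfl) hδ (hY.xo (sh ω₂))
      simp only [mul_one] at h4
      rw [avg_const, mul_one] at h4
      exact h4
    have e4 : (eta (Z ω₂) l ∩ B).card + (D ω₂).card = B.card := by
      rw [hD, inter_comm]
      exact card_inter_add_card_sdiff B (eta (Z ω₂) l)
    have e6 : (1 / 2 : ℝ) ^ (D ω₂).card = (1 / 2) ^ B.card * ρ ω₂ := by
      rw [← e4, pow_add, hρ]
      simp only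
      rw [mul_comm ((1 / 2 : ℝ) ^ (eta (Z ω₂) l ∩ B).card), mul_assoc, ← mul_pow]
      norm_num
    have e7 : (avg fun ω₁ => ‖S ω₂ ω₁‖ ^ 2) ≤ 1 :=
      avg_le fun ω₁ => pow_le_one₀ (norm_nonneg _) (hS1 ω₂ ω₁)
    have e8 : 0 ≤ avg fun ω₁ => ‖S ω₂ ω₁‖ ^ 2 := avg_nonneg fun _ => sq_nonneg _
    have e9 : (avg fun ω₁ => ρ ω₂ * ‖S ω₂ ω₁‖ ^ 2) = ρ ω₂ * avg fun ω₁ => ‖S ω₂ ω₁‖ ^ 2 :=
      avg_mul_left _ _
    rw [e9, ← mul_assoc, ← e6]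
    calc ‖av fun ω₁ => S ω₂ ω₁‖ ^ 2 ≤ (avg fun ω₁ => ev ω₂ ω₁) * avg fun ω₁ => ‖S ω₂ ω₁‖ ^ 2 := e1
      _ ≤ ((1 / 2) ^ (D ω₂).card + δ) * avg fun ω₁ => ‖S ω₂ ω₁‖ ^ 2 :=
          mul_le_mul_of_nonneg_right e2 e8
      _ ≤ _ := by nlinarith
  have h2 : ‖av fun ω₂ => av fun ω₁ => S ω₂ ω₁‖ ^ 2 ≤
      (1 / 2) ^ B.card * (avg fun ω₂ => avg fun ω₁ => ρ ω₂ * ‖S ω₂ ω₁‖ ^ 2) + δ := by
    refine (Pt.cs_sq _).trans ((avg_mono h1).trans (le_of_eq ?_))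
    rw [avg_add, avg_mul_left, avg_const]
  -- the square
  have h4 : ∀ ω₂ ω₁, ((ρ ω₂ * ‖S ω₂ ω₁‖ ^ 2 : ℝ) : ℂ) = av fun d : Cube T => av fun u : Cube T =>
      ((wB B l t d (Z ω₂) : ℝ) : ℂ) * (pc B v (X ω₂ ω₁ u) *
        dr g (Wd l t (Z ω₂) d) (X ω₂ ω₁ u)) := by
    intro ω₂ ω₁
    have e1 := Pt.cs_normsq (φ ω₂ ω₁)
    rw [Complex.ofReal_mul, e1, ← spb_av_mul]
    congr 1
    funext d
    rw [← spb_av_mul]
    congr 1
    funext u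
    have e2 : X ω₂ ω₁ (xo u d) = xo (X ω₂ ω₁ u) (Wd l t (Z ω₂) d) := by
      rw [hX]
      simp only [Wd]
      rw [wv_xo, ← Pt.cs_xo_assoc]
    rw [hφ]
    simp only [e2]
    rw [map_mul, wB_eq]
    have e3 := oc_pc B v (X ω₂ ω₁ u) (Wd l t (Z ω₂) d)
    rw [hρ]
    unfold dr
    push_cast
    calc (2 : ℂ) ^ (eta (Z ω₂) l ∩ B).card * (pc B v (X ω₂ ω₁ u) * g (X ω₂ ω₁ u) *
          ((starRingEnd ℂ) (pc B v (xo (X ω₂ ω₁ u) (Wd l t (Z ω₂) d))) *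
            (starRingEnd ℂ) (g (xo (X ω₂ ω₁ u) (Wd l t (Z ω₂) d))))) =
        2 ^ (eta (Z ω₂) l ∩ B).card * ((pc B v (X ω₂ ω₁ u) *
          (starRingEnd ℂ) (pc B v (xo (X ω₂ ω₁ u) (Wd l t (Z ω₂) d)))) * (g (X ω₂ ω₁ u) *
            (starRingEnd ℂ) (g (xo (X ω₂ ω₁ u) (Wd l t (Z ω₂) d))))) := by ring
      _ = _ := by
          rw [e3]
          ring
  have h5 : (avg fun ω₂ => avg fun ω₁ => ρ ω₂ * ‖S ω₂ ω₁‖ ^ 2) ≤
      avg fun d : Cube T => avg fun u : Cube T => ‖av fun ω₂ =>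
        ((wB B l t d (Z ω₂) : ℝ) : ℂ) * av fun ω₁ => pc B v (X ω₂ ω₁ u) *
          dr g (Wd l t (Z ω₂) d) (X ω₂ ω₁ u)‖ := by
    have e1 : (((avg fun ω₂ => avg fun ω₁ => ρ ω₂ * ‖S ω₂ ω₁‖ ^ 2 : ℝ)) : ℂ) =
        av fun d : Cube T => av fun u : Cube T => av fun ω₂ =>
          ((wB B l t d (Z ω₂) : ℝ) : ℂ) * av fun ω₁ => pc B v (X ω₂ ω₁ u) *
            dr g (Wd l t (Z ω₂) d) (X ω₂ ω₁ u) := by
      rw [← spb_avg_ofReal]
      have e2 : ∀ ω₂, (((avg fun ω₁ => ρ ω₂ * ‖S ω₂ ω₁‖ ^ 2 : ℝ)) : ℂ) =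
          av fun d : Cube T => av fun u : Cube T =>
            ((wB B l t d (Z ω₂) : ℝ) : ℂ) * av fun ω₁ => pc B v (X ω₂ ω₁ u) *
              dr g (Wd l t (Z ω₂) d) (X ω₂ ω₁ u) := by
        intro ω₂
        rw [← spb_avg_ofReal]
        simp_rw [h4]
        rw [av_comm]
        congr 1
        funext d
        rw [av_comm]
        congr 1
        funext u
        exact spb_av_mul _ _
      simp_rw [e2]
      rw [av_comm]
      congr 1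
      funext d
      rw [av_comm]
    have e3 : (avg fun ω₂ => avg fun ω₁ => ρ ω₂ * ‖S ω₂ ω₁‖ ^ 2) =
        ‖(((avg fun ω₂ => avg fun ω₁ => ρ ω₂ * ‖S ω₂ ω₁‖ ^ 2 : ℝ)) : ℂ)‖ := by
      rw [Complex.norm_real, Real.norm_eq_abs, abs_of_nonneg]
      exact avg_nonneg fun ω₂ => avg_nonneg fun _ => mul_nonneg (hρ0 ω₂).le (sq_nonneg _)
    rw [e3, e1]
    exact (norm_av_le _).trans (avg_mono fun d => norm_av_le _)
  refine h2.trans (add_le_add_left ?_ _)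
  exact mul_le_mul_of_nonneg_left h5 (by positivity)

end Pool.Agent.MP_ca1109_lc.Ovr
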