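import Pool.Agent.MP_ca1109_lc.Ovr.Defs
import Pool.Agent.MP_ca1109_lc.Rf.CD

/-!
# Row OCD: the conditional string
-/

namespace Pool.Agent.MP_ca1109_lc.Ovr

open Finset Pool.Agent.H66 Pool.Agent.MP_ca1109_lc.Mpg Pool.Agent.MP_ca1109_lc.Agp
  Pool.Agent.MP_ca1109_lc.Xp Pool.Agent.MP_ca1109_lc.Ov
open Pool.Agent.MP_ca1109_lc.Dnf (one)

variable {n : ℕ}

theorem ocd_over {q r : ℕ} {I : Fin q → Finset (Fin n)} (h : Over r I) (D : Finset (Fin n)) :
    Over r (fun j => I j \ D) := by
  refine ⟨fun i => ?_, ?_⟩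
  · refine (Finset.card_le_card ?_).trans (h.1 i)
    intro j hj
    rw [Finset.mem_filter] at hj ⊢
    exact ⟨hj.1, (Finset.mem_sdiff.mp hj.2).1⟩
  · intro j j' hjj i hi i' hi' l
    simp only [Finset.mem_inter, Finset.mem_sdiff] at hi hi'
    have h1 := h.2 j j' hjj i (Finset.mem_inter.mpr ⟨hi.1.1, hi.2.1⟩) i'
      (Finset.mem_inter.mpr ⟨hi'.1.1, hi'.2.1⟩) l
    simp only [Finset.mem_sdiff]
    constructor
    · rintro ⟨h2, -⟩
      exact ⟨h1.mp h2, hi'.1.2⟩
    · rintro ⟨h2, -⟩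
      exact ⟨h1.mpr h2, hi.1.2⟩

theorem ocond {N b b' r : ℕ} {ε τ : ℝ} (hN : 1 ≤ N) (hε : 0 ≤ ε) (hε1 : ε ≤ 1 / 4) (hτ : 0 ≤ τ)
    (hτ1 : τ * N ^ b ≤ 1 / 4) {Ω : Type} [Fintype Ω] [Nonempty Ω] {X : Ω → Fin n → Bool}
    (hX : OFools N (b + b') r ε τ X) {D : Finset (Fin n)} (hD : 2 ^ D.card ≤ N ^ b)
    (v : Fin n → Bool) :
    ∃ (Ω' : Type) (_ : Fintype Ω') (_ : Nonempty Ω') (X' : Ω' → Fin n → Bool),
      OFools N b' r (8 * ε + 8 * τ * N ^ b) (4 * τ * N ^ b) X' ∧ ∀ F : (Fin n → Bool) → ℝ,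
        Dep Dᶜ F → (∀ x, 0 ≤ F x ∧ F x ≤ 1) →
        |(avg fun ω => one (Rf.pat D v (X ω)) * F (X ω)) - (1 / 2) ^ D.card * avg F| ≤
          (1 / 2) ^ D.card * (|(avg fun ω' => F (X' ω')) - avg F| + ε) + τ := by
  classical
  set a : ℝ := (1 / 2) ^ D.card with ha
  have ha0 : 0 < a := by positivity
  set m : ℝ := avg fun ω => one (Rf.pat D v (X ω)) with hm
  have hcΩ : (0 : ℝ) < Fintype.card Ω := by exact_mod_cast Fintype.card_pos
  have hcΩ' : ((Fintype.card Ω : ℕ) : ℂ) ≠ 0 := Nat.cast_ne_zero.mpr Fintype.card_ne_zero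
  have hcC : ((Fintype.card ((Fin n → Bool)) : ℕ) : ℂ) ≠ 0 := Nat.cast_ne_zero.mpr Fintype.card_ne_zero
  have hav1 : av (fun _ : (Fin n → Bool) => (1 : ℂ)) = 1 := by
    unfold av
    simp only [Finset.sum_const, Finset.card_univ, nsmul_eq_mul, mul_one]
    exact div_self hcC
  have hmc : ((m : ℝ) : ℂ) = av fun ω => Rf.pc D v (X ω) := by
    rw [hm]
    unfold avg av Rf.pc
    push_cast
    rfl
  have hNb : (1 : ℝ) ≤ (N : ℝ) ^ b * a := by
    have h1 : (2 : ℝ) ^ D.card ≤ (N : ℝ) ^ b := by exact_mod_cast hD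
    have h2 : (2 : ℝ) ^ D.card * a = 1 := by
      rw [ha, ← mul_pow]
      norm_num
    calc (1 : ℝ) = 2 ^ D.card * a := h2.symm
      _ ≤ (N : ℝ) ^ b * a := mul_le_mul_of_nonneg_right h1 ha0.le
  have hN0 : (0 : ℝ) ≤ (N : ℝ) ^ b := by positivity
  have hτa : τ ≤ τ * N ^ b * a := by nlinarith
  -- the mass of the pattern
  have hmass : |m - a| ≤ a * ε + τ := by
    have h1 := hX 0 (fun _ => ∅) (fun _ _ => 1)
      ⟨fun i => by simp, fun j => j.elim0⟩ (fun j => j.elim0) (fun j => j.elim0)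
      (fun j => j.elim0) D v (fun j => j.elim0)
      (hD.trans (Nat.pow_le_pow_right hN (Nat.le_add_right b b')))
    simp only [Finset.univ_eq_empty, Finset.prod_empty, mul_one] at h1
    rw [hav1, mul_one, ← hmc] at h1
    have h2 : ((m : ℝ) : ℂ) - (1 / 2) ^ D.card = ((m - a : ℝ) : ℂ) := by
      rw [ha]
      push_cast
      ring
    rw [h2, Complex.norm_real, Real.norm_eq_abs] at h1
    exact h1
  have hm2 : a / 2 ≤ m := by
    have h1 := abs_le.mp hmass
    have h2 : a * ε ≤ a / 4 := by nlinarith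
    have h3 : τ ≤ a / 4 := by nlinarith
    linarith [h1.1]
  have hm0 : 0 < m := by linarith
  have hne : Nonempty {ω // Rf.pat D v (X ω)} := by
    by_contra hcon
    rw [not_nonempty_iff] at hcon
    have h1 : m = 0 := by
      rw [hm]
      unfold avg
      rw [div_eq_zero_iff]
      left
      apply Finset.sum_eq_zero
      intro ω _
      unfold one
      rw [if_neg (fun h => hcon.false ⟨ω, h⟩)]
    linarith
  have hcW : ((Fintype.card {ω // Rf.pat D v (X ω)} : ℕ) : ℂ) = ((m : ℝ) : ℂ) * Fintype.card Ω := by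
    have h1 := Rf.cd_sum X D v (fun _ => 1)
    simp only [Finset.sum_const, Finset.card_univ, nsmul_eq_mul, mul_one] at h1
    rw [h1, hmc]
    unfold av
    rw [div_mul_cancel₀ _ hcΩ']
  have hcW' : (Fintype.card {ω // Rf.pat D v (X ω)} : ℝ) = m * Fintype.card Ω := by
    exact_mod_cast hcW
  have hmC : ((m : ℝ) : ℂ) ≠ 0 := by
    exact_mod_cast hm0.ne'
  refine ⟨{ω // Rf.pat D v (X ω)} × (Fin n → Bool), inferInstance, inferInstance,
    fun p => Rf.st D p.2 (X p.1), ?_, ?_⟩
  · intro q I f hO hw hf hf1 B w hJB hB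
    set c : ℝ := (1 / 2) ^ (B \ D).card with hc
    have hc0 : 0 < c := by positivity
    have hc1 : c ≤ 1 := pow_le_one₀ (by norm_num) (by norm_num)
    set R : (Fin n → Bool) → ℂ := fun y => av fun ω => Rf.pc (D ∪ B) (Rf.st D v w) (X ω) *
      ∏ j, f j (Rf.st D y (X ω)) with hR
    set P : (Fin n → Bool) → ℂ := fun y => av fun x => ∏ j, f j (Rf.st D y x) with hP
    have hcard1 : (1 / 2 : ℝ) ^ (D ∪ B).card = a * c := by
      rw [ha, hc, ← pow_add]
      congr 1
      rw [← Finset.union_sdiff_self_eq_union, Finset.card_union_of_disjoint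
        (Finset.disjoint_sdiff)]
    have hcard2 : (1 / 2 : ℝ) ^ B.card = (1 / 2) ^ (B ∩ D).card * c := by
      rw [hc, ← pow_add]
      congr 1
      rw [Finset.card_inter_add_card_sdiff]
    have hb1 : ∀ y, ‖R y - ((a * c : ℝ) : ℂ) * P y‖ ≤ a * c * ε + τ := by
      intro y
      have h1 := hX q (fun j => I j \ D) (fun j x => f j (Rf.st D y x)) (ocd_over hO D) ?_ ?_ ?_
        (D ∪ B) (Rf.st D v w) ?_ ?_
      · rw [hcard1] at h1
        have h2 : ((1 : ℂ) / 2) ^ (D ∪ B).card = ((a * c : ℝ) : ℂ) := by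
          rw [← hcard1]
          push_cast
          ring
        rw [h2] at h1
        exact h1
      · intro j
        exact (Nat.pow_le_pow_right (by norm_num)
          (Finset.card_le_card Finset.sdiff_subset)).trans (hw j)
      · intro j x x' hxx
        apply hf j
        intro i hi
        unfold Rf.st
        by_cases h : i ∈ D
        · simp [h]
        · rw [if_neg h, if_neg h]
          exact hxx i (Finset.mem_sdiff.mpr ⟨hi, h⟩)
      · intro j x
        exact hf1 j _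
      · intro j
        rw [Finset.disjoint_union_right]
        exact ⟨Finset.sdiff_disjoint, (hJB j).mono_left Finset.sdiff_subset⟩
      · calc 2 ^ (D ∪ B).card ≤ 2 ^ (D.card + B.card) :=
              Nat.pow_le_pow_right (by norm_num) (Finset.card_union_le _ _)
          _ = 2 ^ D.card * 2 ^ B.card := pow_add _ _ _
          _ ≤ N ^ b * N ^ b' := Nat.mul_le_mul hD hB
          _ = N ^ (b + b') := (pow_add _ _ _).symm
    have hPn : ∀ y, ‖P y‖ ≤ 1 := by
      intro y
      rw [hP]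
      show ‖av fun x => ∏ j, f j (Rf.st D y x)‖ ≤ 1
      unfold av
      rw [norm_div]
      have h1 : ‖((Fintype.card ((Fin n → Bool)) : ℕ) : ℂ)‖ = Fintype.card ((Fin n → Bool)) := by simp
      have h2 : (0 : ℝ) < Fintype.card ((Fin n → Bool)) := by exact_mod_cast Fintype.card_pos
      rw [h1, div_le_one h2]
      calc ‖∑ x : (Fin n → Bool), ∏ j, f j (Rf.st D y x)‖ ≤ ∑ x : (Fin n → Bool), ‖∏ j, f j (Rf.st D y x)‖ :=
            norm_sum_le _ _
        _ ≤ ∑ _x : (Fin n → Bool), (1 : ℝ) := by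
            apply Finset.sum_le_sum
            intro x _
            rw [norm_prod]
            exact Finset.prod_le_one (fun _ _ => norm_nonneg _) fun j _ => hf1 j _
        _ = Fintype.card ((Fin n → Bool)) := by simp
    -- the bound for fixed `y`
    have hb2 : ∀ y, ‖R y / (m : ℂ) - ((c : ℝ) : ℂ) * P y‖ ≤
        4 * c * ε + 2 * (τ * N ^ b) * (1 + c) := by
      intro y
      have h1 : R y / (m : ℂ) - ((c : ℝ) : ℂ) * P y =
          ((R y - ((a * c : ℝ) : ℂ) * P y) + ((a - m : ℝ) : ℂ) * (((c : ℝ) : ℂ) * P y)) / (m : ℂ) := by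
        field_simp
        push_cast
        ring
      rw [h1, norm_div, Complex.norm_real, Real.norm_eq_abs, abs_of_pos hm0, div_le_iff₀ hm0]
      have h2 : ‖((a - m : ℝ) : ℂ) * (((c : ℝ) : ℂ) * P y)‖ ≤ (a * ε + τ) * c := by
        rw [norm_mul, norm_mul, Complex.norm_real, Complex.norm_real, Real.norm_eq_abs,
          Real.norm_eq_abs, abs_of_pos hc0, abs_sub_comm]
        have h3 : c * ‖P y‖ ≤ c := by nlinarith [hPn y]
        exact mul_le_mul hmass h3 (by positivity) (by positivity)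
      have h4 := (norm_add_le (R y - ((a * c : ℝ) : ℂ) * P y)
        (((a - m : ℝ) : ℂ) * (((c : ℝ) : ℂ) * P y))).trans (add_le_add (hb1 y) h2)
      refine h4.trans ?_
      have h5 : 4 * c * ε * (a / 2) ≤ 4 * c * ε * m :=
        mul_le_mul_of_nonneg_left hm2 (by positivity)
      have h6 : 2 * (τ * N ^ b) * (1 + c) * (a / 2) ≤ 2 * (τ * N ^ b) * (1 + c) * m :=
        mul_le_mul_of_nonneg_left hm2 (by positivity)
      have h7 : τ * (1 + c) ≤ τ * N ^ b * a * (1 + c) :=
        mul_le_mul_of_nonneg_right hτa (by positivity)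
      nlinarith
    -- the average over `y`
    have hE : (av fun p : {ω // Rf.pat D v (X ω)} × (Fin n → Bool) => Rf.pc B w (Rf.st D p.2 (X p.1)) *
        ∏ j, f j (Rf.st D p.2 (X p.1))) = av fun y => Rf.pc (B ∩ D) w y * (R y / (m : ℂ)) := by
      unfold av
      rw [Fintype.sum_prod_type_right, Fintype.card_prod]
      push_cast
      rw [hcW, ← div_div, ← div_div, Finset.sum_div, Finset.sum_div]
      congr 1
      apply Finset.sum_congr rfl
      intro y _
      have h1 := Rf.cd_sum X D v (fun ω => Rf.pc B w (Rf.st D y (X ω)) * ∏ j, f j (Rf.st D y (X ω)))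
      rw [h1]
      have h2 : (∑ ω, Rf.pc D v (X ω) * (Rf.pc B w (Rf.st D y (X ω)) * ∏ j, f j (Rf.st D y (X ω)))) =
          Rf.pc (B ∩ D) w y * ∑ ω, Rf.pc (D ∪ B) (Rf.st D v w) (X ω) * ∏ j, f j (Rf.st D y (X ω)) := by
        rw [Finset.mul_sum]
        apply Finset.sum_congr rfl
        intro ω _
        rw [← mul_assoc, Rf.cd_pat, mul_assoc]
      rw [h2, hR]
      unfold av
      field_simp
    have hM : (1 / 2 : ℂ) ^ B.card * av (fun x => ∏ j, f j x) =
        av fun y => Rf.pc (B ∩ D) w y * (((c : ℝ) : ℂ) * P y) := by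
      have h1 := Rf.cd_mix D (fun z => Rf.pc (B ∩ D) w z * ∏ j, f j z)
      have h2 : av (fun z => Rf.pc (B ∩ D) w z * ∏ j, f j z) =
          (1 / 2) ^ (B ∩ D).card * av (fun x => ∏ j, f j x) := by
        apply Rf.av_pc
        intro x x' hxx
        apply Finset.prod_congr rfl
        intro j _
        apply hf j
        intro i hi
        apply hxx
        rw [Finset.mem_compl, Finset.mem_inter]
        rintro ⟨h3, -⟩
        exact Finset.disjoint_left.mp (hJB j) hi h3
      have h3 : (1 / 2 : ℂ) ^ B.card = (1 / 2) ^ (B ∩ D).card * ((c : ℝ) : ℂ) := by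
        have := congrArg (fun r : ℝ => (r : ℂ)) hcard2
        push_cast at this
        exact this
      rw [h3]
      have h4 : (1 / 2 : ℂ) ^ (B ∩ D).card * ((c : ℝ) : ℂ) * av (fun x => ∏ j, f j x) =
          ((c : ℝ) : ℂ) * ((1 / 2) ^ (B ∩ D).card * av (fun x => ∏ j, f j x)) := by ring
      rw [h4, ← h2, ← h1]
      unfold av
      rw [mul_div_assoc', Finset.mul_sum]
      congr 1
      apply Finset.sum_congr rfl
      intro y _
      have h5 : ∀ x : (Fin n → Bool), Rf.pc (B ∩ D) w (Rf.st D y x) = Rf.pc (B ∩ D) w y := by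
        intro x
        unfold Rf.pc Rf.pat
        have h6 : (∀ i ∈ B ∩ D, Rf.st D y x i = w i) ↔ ∀ i ∈ B ∩ D, y i = w i := by
          apply forall₂_congr
          intro i hi
          unfold Rf.st
          rw [if_pos (Finset.mem_inter.mp hi).2]
        rw [h6]
      simp only [h5]
      rw [hP]
      unfold av
      rw [← Finset.mul_sum]
      ring
    rw [hE, hM]
    have hsub : (av fun y => Rf.pc (B ∩ D) w y * (R y / (m : ℂ))) -
        (av fun y => Rf.pc (B ∩ D) w y * (((c : ℝ) : ℂ) * P y)) =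
        av fun y => Rf.pc (B ∩ D) w y * (R y / (m : ℂ) - ((c : ℝ) : ℂ) * P y) := by
      unfold av
      rw [← sub_div, ← Finset.sum_sub_distrib]
      congr 1
      apply Finset.sum_congr rfl
      intro y _
      ring
    rw [hsub]
    set δ : ℝ := 4 * c * ε + 2 * (τ * N ^ b) * (1 + c) with hδ
    have hfin : ‖av fun y => Rf.pc (B ∩ D) w y * (R y / (m : ℂ) - ((c : ℝ) : ℂ) * P y)‖ ≤
        (1 / 2) ^ (B ∩ D).card * δ := by
      rw [← Rf.cd_avg (B ∩ D) w]
      unfold av avg
      rw [norm_div, div_mul_eq_mul_div, Finset.sum_mul]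
      have h1 : ‖((Fintype.card ((Fin n → Bool)) : ℕ) : ℂ)‖ = Fintype.card ((Fin n → Bool)) := by simp
      rw [h1]
      apply div_le_div_of_nonneg_right _ (Nat.cast_nonneg _)
      refine (norm_sum_le _ _).trans (Finset.sum_le_sum fun y _ => ?_)
      rw [norm_mul, Rf.cd_norm_pc]
      exact mul_le_mul_of_nonneg_left (hb2 y) (Rf.cd_one_nonneg _)
    refine hfin.trans ?_
    rw [hcard2, hδ]
    set g : ℝ := (1 / 2) ^ (B ∩ D).card with hg
    have hg0 : 0 < g := by positivity
    have hg1 : g ≤ 1 := pow_le_one₀ (by norm_num) (by norm_num)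
    have hT : 0 ≤ τ * N ^ b := by positivity
    have h1 : g * (τ * N ^ b) ≤ 1 * (τ * N ^ b) := mul_le_mul_of_nonneg_right hg1 hT
    have h2 : 0 ≤ g * c * ε := by positivity
    have h3 : 0 ≤ g * c * (τ * N ^ b) := by positivity
    nlinarith
  · intro F hF hF01
    have h1 : (avg fun ω' : {ω // Rf.pat D v (X ω)} × (Fin n → Bool) => F (Rf.st D ω'.2 (X ω'.1))) * m =
        avg fun ω => one (Rf.pat D v (X ω)) * F (X ω) := by
      have h2 : ∀ (y : (Fin n → Bool)) (x : (Fin n → Bool)), F (Rf.st D y x) = F x := by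
        intro y x
        apply hF
        intro i hi
        unfold Rf.st
        rw [if_neg (Finset.mem_compl.mp hi)]
      unfold avg
      simp only [h2]
      rw [Fintype.sum_prod_type, Fintype.card_prod]
      simp only [Finset.sum_const, Finset.card_univ, nsmul_eq_mul]
      rw [← Finset.mul_sum]
      push_cast
      rw [hcW']
      have h3 : (∑ ω : {ω // Rf.pat D v (X ω)}, F (X ω)) = ∑ ω, one (Rf.pat D v (X ω)) * F (X ω) := by
        have h4 := Rf.cd_sum X D v (fun ω => ((F (X ω) : ℝ) : ℂ))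
        unfold Rf.pc at h4
        exact_mod_cast h4
      rw [h3]
      have h5 : (0 : ℝ) < Fintype.card ((Fin n → Bool)) := by exact_mod_cast Fintype.card_pos
      field_simp
    set q : ℝ := avg fun ω' : {ω // Rf.pat D v (X ω)} × (Fin n → Bool) => F (Rf.st D ω'.2 (X ω'.1)) with hq
    have hq0 : 0 ≤ q := by
      rw [hq]
      unfold avg
      exact div_nonneg (Finset.sum_nonneg fun _ _ => (hF01 _).1) (Nat.cast_nonneg _)
    have hq1 : q ≤ 1 := by
      rw [hq]
      exact avg_le fun _ => (hF01 _).2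
    show |(avg fun ω => one (Rf.pat D v (X ω)) * F (X ω)) - a * avg F| ≤
      a * (|q - avg F| + ε) + τ
    rw [← h1]
    have h2 : q * m - a * avg F = (m - a) * q + a * (q - avg F) := by ring
    rw [h2]
    calc |(m - a) * q + a * (q - avg F)| ≤ |(m - a) * q| + |a * (q - avg F)| := abs_add_le _ _
      _ = |m - a| * q + a * |q - avg F| := by
          rw [abs_mul, abs_mul, abs_of_nonneg hq0, abs_of_pos ha0]
      _ ≤ (a * ε + τ) * 1 + a * |q - avg F| :=
          add_le_add (mul_le_mul hmass hq1 hq0 (by positivity)) le_rfl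
      _ = a * (|q - avg F| + ε) + τ := by ring

end Pool.Agent.MP_ca1109_lc.Ovr
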