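import Pool.Agent.MP_ca1109_lc.Ovr.OU
import Pool.Agent.MP_ca1109_lc.Ov.DU
import Pool.Agent.MP_ca1109_lc.Agp.N1

/-!
# Conditional fooling over overlapping blocks: bounded functions

`omain`: a generator with seeds of logarithmic length fools the products of bounded functions of
overlapping blocks, conditionally on patterns of few bits outside the blocks.
-/

namespace Pool.Agent.MP_ca1109_lc.Ovr

open Finset Pool.Agent.H66 Pool.Agent.MP_ca1109_lc.Mpg Pool.Agent.MP_ca1109_lc.Agp
  Pool.Agent.MP_ca1109_lc.Xp Pool.Agent.MP_ca1109_lc.Ov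

/-- The blocks which are not empty. -/
theorem od_blo {n q r : ℕ} {I : Fin q → Finset (Fin n)} (h : Over r I) :
    Blo (J := {j : Fin q // (I j).Nonempty}) r (fun j => I j) := by
  classical
  refine ⟨fun i => ?_, fun j j' hj i hi i' hi' l => ?_, ?_⟩
  · refine le_trans (Finset.card_le_card_of_injOn (fun j => (j : Fin q)) (fun j hj => ?_)
      (fun a _ b _ hab => Subtype.ext hab)) (h.1 i)
    simpa using hj
  · exact h.2 j j' (fun hh => hj (Subtype.ext hh)) i hi i' hi' l
  · have e1 : Fintype.card {j : Fin q // (I j).Nonempty} ≤ ∑ j : Fin q, (I j).card := by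
      rw [Fintype.card_subtype, Finset.card_eq_sum_ones]
      refine (Finset.sum_le_sum (g := fun j => (I j).card) fun j hj => ?_).trans
        (Finset.sum_le_sum_of_subset (Finset.subset_univ _))
      exact (Finset.mem_filter.1 hj).2.card_pos
    have e2 : ∑ j : Fin q, (I j).card = ∑ i : Fin n, (univ.filter fun j => i ∈ I j).card := by
      simp only [Finset.card_eq_sum_ones, Finset.sum_filter]
      rw [Finset.sum_comm]
      refine Finset.sum_congr rfl fun j _ => ?_
      rw [← Finset.sum_filter]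
      exact Finset.sum_congr (by ext i; simp) fun _ _ => rfl
    refine e1.trans (e2.trans_le ?_)
    refine (Finset.sum_le_sum fun i _ => h.1 i).trans ?_
    simp [mul_comm]

theorem od_av_le {A : Type*} [Fintype A] [Nonempty A] {F F' : A → ℂ} {e : ℝ}
    (h : ∀ b, ‖F b - F' b‖ ≤ e) : ‖av F - av F'‖ ≤ e := by
  have h1 : av F - av F' = av fun b => F b - F' b := by
    unfold av
    rw [Finset.sum_sub_distrib, sub_div]
  rw [h1]
  exact (norm_av_le _).trans (avg_le h)

theorem od_mul {A Ω : Type*} [Fintype A] [Fintype Ω] (k : ℂ) (P : Ω → ℂ) (F : A → Ω → ℂ) :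
    av (fun ω => P ω * (k * av fun b => F b ω)) = k * av fun b => av fun ω => P ω * F b ω := by
  rw [av_comm]
  unfold av
  rw [mul_div_assoc', Finset.mul_sum]
  congr 1
  refine Finset.sum_congr rfl fun ω _ => ?_
  rw [← Finset.mul_sum]
  ring

/-- The product of bounded functions is a constant times an average of products of unimodular
functions of the blocks which are not empty. -/
theorem od_split {n q : ℕ} {I : Fin q → Finset (Fin n)} {f : Fin q → (Fin n → Bool) → ℂ}
    (hf : ∀ j, Dep (I j) (f j)) (hf1 : ∀ j x, ‖f j x‖ ≤ 1) : ∃ k : ℂ, ‖k‖ ≤ 1 ∧ ∀ x,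
    ∏ j, f j x = k * av fun b : {j : Fin q // (I j).Nonempty} → Bool =>
      ∏ j : {j : Fin q // (I j).Nonempty}, du_u (b j) (f j x) := by
  classical
  obtain ⟨x₀⟩ : Nonempty (Fin n → Bool) := inferInstance
  refine ⟨∏ j ∈ univ.filter (fun j : Fin q => ¬(I j).Nonempty), f j x₀, ?_, fun x => ?_⟩
  · rw [norm_prod]
    exact Finset.prod_le_one (fun j _ => norm_nonneg _) fun j _ => hf1 j _
  · rw [← du_prod (fun j : {j : Fin q // (I j).Nonempty} => f j x),
      ← Finset.prod_filter_mul_prod_filter_not univ (fun j : Fin q => (I j).Nonempty), mul_comm]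
    congr 1
    · refine Finset.prod_congr rfl fun j hj => hf j x x₀ fun i hi => ?_
      exact absurd ⟨i, hi⟩ (Finset.mem_filter.1 hj).2
    · exact Finset.prod_subtype (p := fun j => (I j).Nonempty)
        (univ.filter fun j : Fin q => (I j).Nonempty) (fun j => by simp) (fun j => f j x)

theorem omain (c b r K : ℕ) {ε : ℝ} (hε : 0 < ε) : ∃ E G, NG E G ∧ ∃ n₀ : ℕ, ∀ n ≥ n₀,
    OFools (n ^ c) b r ε (1 / ((n : ℝ) + 1) ^ K) (fun ω : Fin (2 ^ E n) => out G n ω) := by
  classical
  obtain ⟨E, G, hG, n₀, h⟩ := omain_uni c b r K hε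
  refine ⟨E, G, hG, n₀, fun n hn q I f hO hc hf hf1 B v hB hBc => ?_⟩
  obtain ⟨k, hk1, hsplit⟩ := od_split hf hf1
  have h1 : av (fun ω : Fin (2 ^ E n) => Rf.pc B v (out G n ω) * ∏ j, f j (out G n ω)) =
      k * av fun b : {j : Fin q // (I j).Nonempty} → Bool => av fun ω : Fin (2 ^ E n) =>
        Rf.pc B v (out G n ω) *
          ∏ j : {j : Fin q // (I j).Nonempty}, du_u (b j) (f j (out G n ω)) := by
    rw [← od_mul k (fun ω : Fin (2 ^ E n) => Rf.pc B v (out G n ω))
      (fun (b : {j : Fin q // (I j).Nonempty} → Bool) (ω : Fin (2 ^ E n)) =>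
        ∏ j : {j : Fin q // (I j).Nonempty}, du_u (b j) (f j (out G n ω)))]
    exact congrArg av (funext fun ω => by rw [hsplit])
  have h2 : (1 / 2 : ℂ) ^ B.card * (av fun x => ∏ j, f j x) =
      k * av fun b : {j : Fin q // (I j).Nonempty} → Bool => (1 / 2 : ℂ) ^ B.card * av fun x =>
        ∏ j : {j : Fin q // (I j).Nonempty}, du_u (b j) (f j x) := by
    have e : ∀ F : (Fin n → Bool) → ℂ, (1 / 2 : ℂ) ^ B.card * av F =
        av fun x => (1 / 2 : ℂ) ^ B.card * F x := by
      intro F
      unfold av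
      rw [← Finset.mul_sum, mul_div_assoc]
    simp only [e]
    rw [← od_mul k (fun _ : Fin n → Bool => (1 / 2 : ℂ) ^ B.card)
      (fun (b : {j : Fin q // (I j).Nonempty} → Bool) (x : Fin n → Bool) =>
        ∏ j : {j : Fin q // (I j).Nonempty}, du_u (b j) (f j x))]
    exact congrArg av (funext fun x => by rw [hsplit])
  rw [h1, h2, ← mul_sub, norm_mul]
  refine (mul_le_of_le_one_left (norm_nonneg _) hk1).trans (od_av_le fun b => ?_)
  exact h n hn (fun j : {j : Fin q // (I j).Nonempty} => I j)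
    (fun j x => du_u (b j) (f j x)) (od_blo hO) (fun j => hc j)
    (fun j x y hxy => by show du_u (b j) (f j x) = du_u (b j) (f j y); rw [hf j x y hxy])
    (fun j x => du_u_norm _ (hf1 j x)) B v (fun j => hB j) hBc

end Pool.Agent.MP_ca1109_lc.Ovr
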