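import Pool.Agent.MP_ca1109_lc.Ot.FT
import Pool.Agent.MP_ca1109_lc.Ovr.Defs

/-!
# Boolean functions of gates and thresholds, for a string
-/

namespace Pool.Agent.MP_ca1109_lc.Ovr

open Finset Pool.Agent.H66 Pool.Agent.MP_ca1109_lc.Mpg Pool.Agent.MP_ca1109_lc.Agp
  Pool.Agent.MP_ca1109_lc.Xp Pool.Agent.MP_ca1109_lc.Ov
open Pool.Agent.MP_ca1109_lc.Dnf (one)

theorem ol_one (b : Bool) : one (b = true) = ind b := by
  cases b <;> simp [one, ind]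

theorem oleaf (r B k : ℕ) {ε : ℝ} (hε : 0 < ε) : ∃ ε₀ : ℝ, 0 < ε₀ ∧ ∀ {n q : ℕ}
    {I : Fin q → Finset (Fin n)}, Over r I → ∀ {g : Fin k → (Fin n → Bool) → Bool}
    (F : (Fin k → Bool) → Bool), (∀ i, TGate B I (g i)) → ∀ {Ω : Type} [Fintype Ω] [Nonempty Ω]
    (X : Ω → Fin n → Bool), (∀ f : Fin q → (Fin n → Bool) → ℂ, (∀ j, Dep (I j) (f j)) →
      (∀ j x, ‖f j x‖ ≤ 1) →
      ‖(av fun ω => ∏ j, f j (X ω)) - av fun x => ∏ j, f j x‖ ≤ ε₀) →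
      |(avg fun ω => one (F (fun i => g i (X ω)) = true)) -
        avg fun x => one (F (fun i => g i x) = true)| ≤ ε := by
  classical
  obtain ⟨C, ε₀, hC, hε₀, hg⟩ := ft_gate r B
    (ε₁ := ε / (4 * (2 ^ k * (3 ^ k * ((k : ℝ) + 1))))) (by positivity)
  obtain ⟨ε₂, hε₂⟩ : ∃ ε₂ : ℝ, ε₂ = min ε₀ (ε / (2 * (2 ^ k * (1 + C) ^ k))) := ⟨_, rfl⟩
  have hε₂0 : 0 < ε₂ := by rw [hε₂]; exact lt_min hε₀ (by positivity)
  have hε₂1 : ε₂ ≤ ε₀ := by rw [hε₂]; exact min_le_left _ _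
  have hε₂2 : ε₂ ≤ ε / (2 * (2 ^ k * (1 + C) ^ k)) := by rw [hε₂]; exact min_le_right _ _
  refine ⟨ε₂, hε₂0, ?_⟩
  intro n q I hov g F hgate Ω _ _ X hX'
  have hX : Fool ε₂ I X := fun f h1 h2 => hX' f h1 h2
  choose Gj h01 hPC happ using fun j => hg hov (hgate j)
  have hc1 := Pnh.fi_close F g Gj h01 X fun i => happ i _ (ft_fool_mono hε₂1 hX)
  have hc2 := Pnh.fi_close F g Gj h01 (fun x : Fin n → Bool => x)
    fun i => happ i _ (ft_fool_id hε₀.le)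
  have hpc : PC I (2 ^ k * (1 + C) ^ k) (fun x => Pnh.fi_ext F fun i => Gj i x) :=
    fg_ext_pc F Gj hPC hC
  have hc3 := ft_err hpc hε₂0.le hX
  have key : |(avg fun ω => ind (F fun i => g i (X ω))) -
      avg fun x : Fin n → Bool => ind (F fun i => g i x)| ≤
      2 * (2 ^ k * (3 ^ k * (k * (ε / (4 * (2 ^ k * (3 ^ k * ((k : ℝ) + 1)))))))) +
        2 ^ k * (1 + C) ^ k * ε₂ := by
    rw [← Real.norm_eq_abs, ← Complex.norm_real, Complex.ofReal_sub, Pnh.fi_ofReal_avg,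
      Pnh.fi_ofReal_avg]
    have e : (av fun ω => ((ind (F fun i => g i (X ω)) : ℝ) : ℂ)) -
        (av fun x : Fin n → Bool => ((ind (F fun i => g i x) : ℝ) : ℂ)) =
        ((av fun ω => ((ind (F fun i => g i (X ω)) : ℝ) : ℂ)) -
          av fun ω => Pnh.fi_ext F fun i => Gj i (X ω)) +
        (((av fun ω => Pnh.fi_ext F fun i => Gj i (X ω)) -
          av fun x => Pnh.fi_ext F fun i => Gj i x) -
        ((av fun x : Fin n → Bool => ((ind (F fun i => g i x) : ℝ) : ℂ)) -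
          av fun x => Pnh.fi_ext F fun i => Gj i x)) := by
      ring
    rw [e]
    refine (norm_add_le _ _).trans ?_
    refine (add_le_add hc1 ((norm_sub_le _ _).trans (add_le_add hc3 hc2))).trans_eq ?_
    ring
  simp only [ol_one]
  refine key.trans ?_
  have e3 : 2 * (2 ^ k * (3 ^ k * ((k : ℝ) * (ε / (4 * (2 ^ k * (3 ^ k * ((k : ℝ) + 1)))))))) ≤
      ε / 2 := by
    rw [show 2 * (2 ^ k * (3 ^ k * ((k : ℝ) * (ε / (4 * (2 ^ k * (3 ^ k * ((k : ℝ) + 1)))))))) =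
      ε / 2 * ((k : ℝ) / ((k : ℝ) + 1)) by field_simp; ring]
    have : (k : ℝ) / ((k : ℝ) + 1) ≤ 1 := by
      rw [div_le_one (by positivity)]
      linarith
    nlinarith
  have e4 : 2 ^ k * (1 + C) ^ k * ε₂ ≤ ε / 2 := by
    calc 2 ^ k * (1 + C) ^ k * ε₂ ≤ 2 ^ k * (1 + C) ^ k * (ε / (2 * (2 ^ k * (1 + C) ^ k))) :=
          mul_le_mul_of_nonneg_left hε₂2 (by positivity)
      _ = ε / 2 := by field_simp
  linarith

end Pool.Agent.MP_ca1109_lc.Ovr
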