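import Pool.Agent.MP_ca1109_lc.Ovr.Defs
import Pool.Agent.MP_ca1109_lc.Ov.FN

/-!
# Row OSa: the probability that no predicate holds
-/

namespace Pool.Agent.MP_ca1109_lc.Ovr

open Finset Pool.Agent.H66 Pool.Agent.MP_ca1109_lc.Mpg Pool.Agent.MP_ca1109_lc.Agp
  Pool.Agent.MP_ca1109_lc.Xp Pool.Agent.MP_ca1109_lc.Ov
open Pool.Agent.MP_ca1109_lc.Dnf (Cube ch one On)

theorem osa_prod {J : Type} [DecidableEq J] (P : Finset J) (p : J → Prop) :
    ∏ j ∈ P, one (p j) = one (∀ j ∈ P, p j) := by
  classical
  by_cases h : ∀ j ∈ P, p j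
  · rw [Dnf.one_true h]
    exact prod_eq_one fun j hj => Dnf.one_true (h j hj)
  · rw [Dnf.one_false h]
    push Not at h
    obtain ⟨j, hj, hn⟩ := h
    exact prod_eq_zero hj (Dnf.one_false hn)

theorem os_none {n q r : ℕ} (hr : 1 ≤ r) {I : Fin q → Finset (Fin n)}
    (hI : ∀ i, (univ.filter fun j => i ∈ I j).card ≤ r) {p : Fin q → (Fin n → Bool) → Bool}
    (hp : OnBlocks I p) (P : Finset (Fin q)) :
    (avg fun x : Fin n → Bool => one (∀ j ∈ P, p j x = false)) ≤
      Real.exp (-(∑ j ∈ P, avg fun x => one (p j x = true)) / r) := by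
  set h : Fin q → (Fin n → Bool) → ℝ := fun j x => if j ∈ P then one (p j x = false) else 1
    with hh
  have h01 : ∀ j x, h j x = 0 ∨ h j x = 1 := by
    intro j x
    by_cases hj : j ∈ P
    · by_cases hx : p j x = false
      · exact Or.inr (by rw [hh]; simp only [if_pos hj]; exact Dnf.one_true hx)
      · exact Or.inl (by rw [hh]; simp only [if_pos hj]; exact Dnf.one_false hx)
    · exact Or.inr (by rw [hh]; simp only [if_neg hj])
  have h0 : ∀ j x, 0 ≤ h j x := fun j x => by
    rcases h01 j x with h1 | h1 <;> rw [h1]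
    exact zero_le_one
  have hpow : ∀ j x, h j x ^ r = h j x := fun j x => by
    rcases h01 j x with h1 | h1 <;> rw [h1]
    · exact zero_pow (by omega)
    · exact one_pow r
  have hprod : (fun x : Fin n → Bool => one (∀ j ∈ P, p j x = false)) = fun x => ∏ j, h j x := by
    funext x
    rw [← osa_prod P fun j => p j x = false, hh]
    simp only
    rw [prod_ite_mem, univ_inter]
  have h1 := finner (Ω := fun _ : Fin n => Bool) r I hI h h0 (fun j x y hxy => by
    show (if j ∈ P then one (p j x = false) else (1 : ℝ)) =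
      if j ∈ P then one (p j y = false) else 1
    rw [hp j x y hxy])
  simp only [hpow] at h1
  have h2 : ∏ j, (avg fun x => h j x) ≤
      Real.exp (-(∑ j ∈ P, avg fun x => one (p j x = true))) := by
    calc ∏ j, (avg fun x => h j x)
        ≤ ∏ j, Real.exp (if j ∈ P then -(avg fun x => one (p j x = true)) else 0) := by
          refine prod_le_prod (fun j _ => avg_nonneg fun x => h0 j x) fun j _ => ?_
          by_cases hj : j ∈ P
          · rw [if_pos hj]
            have h3 : (fun x => h j x) = fun x => 1 + (-1) * one (p j x = true) := by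
              funext x
              rw [hh]
              simp only [if_pos hj]
              cases hx : p j x
              · rw [Dnf.one_true rfl, Dnf.one_false (by simp)]
                ring
              · rw [Dnf.one_false (by simp), Dnf.one_true rfl]
                ring
            rw [h3, avg_add, avg_const, avg_mul_left]
            have := Real.add_one_le_exp (-(avg fun x => one (p j x = true)))
            linarith
          · rw [if_neg hj, Real.exp_zero]
            have h3 : (fun x => h j x) = fun _ => 1 := by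
              funext x
              rw [hh]
              simp only [if_neg hj]
            rw [h3, avg_const]
      _ = Real.exp (-(∑ j ∈ P, avg fun x => one (p j x = true))) := by
          rw [← Real.exp_sum, sum_ite_mem, univ_inter, sum_neg_distrib]
  have h3 := h1.trans h2
  rw [hprod]
  have h4 : 0 ≤ avg fun x => ∏ j, h j x := avg_nonneg fun x => prod_nonneg fun j _ => h0 j x
  refine le_of_pow_le_pow_left₀ (show r ≠ 0 by omega) (Real.exp_pos _).le (h3.trans ?_)
  rw [← Real.exp_nat_mul]
  refine le_of_eq ?_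
  congr 1
  have hr0 : (r : ℝ) ≠ 0 := by
    have : (0 : ℝ) < r := by exact_mod_cast hr
    exact this.ne'
  field_simp

theorem osa_over {n q r : ℕ} {I : Fin q → Finset (Fin n)} (h : Over r I) (D : Finset (Fin n)) :
    Over r (fun j => I j \ D) := by
  constructor
  · intro i
    refine (card_le_card fun j hj => ?_).trans (h.1 i)
    rw [mem_filter] at hj ⊢
    exact ⟨hj.1, (mem_sdiff.1 hj.2).1⟩
  · intro j j' hjj i hi i' hi' l
    obtain ⟨h1, h2⟩ := mem_inter.1 hi
    obtain ⟨h3, h4⟩ := mem_inter.1 hi'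
    rw [mem_sdiff] at h1 h2 h3 h4
    have h5 := h.2 j j' hjj i (mem_inter.2 ⟨h1.1, h2.1⟩) i' (mem_inter.2 ⟨h3.1, h4.1⟩) l
    simp only [mem_sdiff, h5, h1.2, h3.2, not_false_eq_true, and_true]

theorem osa_st {n : ℕ} {D : Finset (Fin n)} {v x : Fin n → Bool} (h : Rf.pat D v x) :
    Rf.st D v x = x := by
  funext i
  unfold Rf.st
  by_cases hi : i ∈ D
  · rw [if_pos hi, h i hi]
  · rw [if_neg hi]

theorem os_cf {n q r N b : ℕ} {ε τ : ℝ} {Ω : Type} [Fintype Ω] {X : Ω → Fin n → Bool}
    (hX : OFools N b r ε τ X) {I : Fin q → Finset (Fin n)} (hI : Over r I)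
    (hN : ∀ j, 2 ^ (I j).card ≤ N) {p : Fin q → (Fin n → Bool) → Bool} (hp : OnBlocks I p)
    (P : Finset (Fin q)) (D : Finset (Fin n)) (v : Fin n → Bool) (hD : 2 ^ D.card ≤ N ^ b) :
    (avg fun ω => one (Rf.pat D v (X ω)) * one (∀ j ∈ P, p j (X ω) = false)) ≤
      (1 / 2) ^ D.card * (avg fun x : Fin n → Bool => one (∀ j ∈ P, p j (Rf.st D v x) = false)) +
        (1 / 2) ^ D.card * ε + τ := by
  set f : Fin q → (Fin n → Bool) → ℂ := fun j x =>
    (((if j ∈ P then one (p j (Rf.st D v x) = false) else 1 : ℝ)) : ℂ) with hf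
  have hprod : ∀ x : Fin n → Bool, ∏ j, f j x =
      ((one (∀ j ∈ P, p j (Rf.st D v x) = false) : ℝ) : ℂ) := by
    intro x
    rw [← osa_prod P fun j => p j (Rf.st D v x) = false, hf]
    simp only
    rw [← Complex.ofReal_prod, prod_ite_mem, univ_inter]
  have h1 := hX q (fun j => I j \ D) f (osa_over hI D)
    (fun j => (Nat.pow_le_pow_right (by norm_num) (card_le_card sdiff_subset)).trans (hN j))
    (fun j x y hxy => by
      show (((if j ∈ P then one (p j (Rf.st D v x) = false) else 1 : ℝ)) : ℂ) =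
        ((if j ∈ P then one (p j (Rf.st D v y) = false) else 1 : ℝ) : ℂ)
      rw [hp j (Rf.st D v x) (Rf.st D v y) fun i hi => by
        unfold Rf.st
        by_cases hiD : i ∈ D
        · rw [if_pos hiD, if_pos hiD]
        · rw [if_neg hiD, if_neg hiD]
          exact hxy i (mem_sdiff.2 ⟨hi, hiD⟩)])
    (fun j x => by
      rw [hf]
      simp only
      rw [Complex.norm_real, Real.norm_eq_abs]
      split_ifs
      · rw [abs_of_nonneg (Dnf.one_nonneg _)]
        exact Dnf.one_le _
      · simp)
    D v (fun j => sdiff_disjoint) hD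
  have h2 : (av fun ω => Rf.pc D v (X ω) * ∏ j, f j (X ω)) =
      ((avg fun ω => one (Rf.pat D v (X ω)) * one (∀ j ∈ P, p j (X ω) = false) : ℝ) : ℂ) := by
    rw [← spb_avg_ofReal]
    congr 1
    funext ω
    rw [hprod]
    unfold Rf.pc
    rw [← Complex.ofReal_mul]
    congr 1
    by_cases hpat : Rf.pat D v (X ω)
    · rw [osa_st hpat]
    · rw [Dnf.one_false hpat, zero_mul, zero_mul]
  have h3 : (av fun x => ∏ j, f j x) =
      ((avg fun x : Fin n → Bool => one (∀ j ∈ P, p j (Rf.st D v x) = false) : ℝ) : ℂ) := by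
    rw [← spb_avg_ofReal]
    congr 1
    funext x
    exact hprod x
  rw [h2, h3] at h1
  have h4 : (((avg fun ω => one (Rf.pat D v (X ω)) * one (∀ j ∈ P, p j (X ω) = false) : ℝ) : ℂ)) -
      (1 / 2) ^ D.card *
        ((avg fun x : Fin n → Bool => one (∀ j ∈ P, p j (Rf.st D v x) = false) : ℝ) : ℂ) =
      (((avg fun ω => one (Rf.pat D v (X ω)) * one (∀ j ∈ P, p j (X ω) = false)) -
        (1 / 2) ^ D.card *
          avg fun x : Fin n → Bool => one (∀ j ∈ P, p j (Rf.st D v x) = false) : ℝ) : ℂ) := by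
    push_cast
    ring
  rw [h4, Complex.norm_real, Real.norm_eq_abs] at h1
  have h5 := (abs_le.1 h1).2
  linarith

end Pool.Agent.MP_ca1109_lc.Ovr
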