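import Pool.Agent.MP_ca1109_lc.Ot.Test
import Pool.Agent.MP_ca1109_lc.Rf.Test

/-!
# Search trees over gates on overlapping blocks: the class
-/

namespace Pool.Agent.MP_ca1109_lc.Ovr

open Pool.Agent.MP_ca1109_lc.Ov

/-- `T` searches the blocks `I j` in the order `π` for the first block whose content satisfies the
predicate `p j`. If this is the block `j` and if its content is that of `x`, then `T` continues with
the test `U j x`, which depends on the block and on its content only; if there is no such block, then
`T` continues with `T₀`. All these tests are in `𝒯`. -/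
def Search {n q : ℕ} (I : Fin q → Finset (Fin n)) (𝒯 : ((Fin n → Bool) → Bool) → Prop)
    (T : (Fin n → Bool) → Bool) : Prop :=
  ∃ (π : Equiv.Perm (Fin q)) (p : Fin q → (Fin n → Bool) → Bool)
    (U : Fin q → (Fin n → Bool) → (Fin n → Bool) → Bool) (T₀ : (Fin n → Bool) → Bool),
    OnBlocks I p ∧ OnBlocks I U ∧ 𝒯 T₀ ∧ (∀ j w, 𝒯 (U j w)) ∧
    ∀ x, ((∀ j, p j x = false) → T x = T₀ x) ∧
      ∀ i, p (π i) x = true → (∀ i' < i, p (π i') x = false) → T x = U (π i) x x

/-- Search trees with `D` searches, each after a decision tree with single bit queries of depth at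
most `log N`; the leaves are Boolean functions of `k` gates. Searches and gates are over the same
blocks. -/
def STree (N B k : ℕ) {n q : ℕ} (I : Fin q → Finset (Fin n)) :
    ℕ → ((Fin n → Bool) → Bool) → Prop
  | 0 => fun T => ∃ (g : Fin k → (Fin n → Bool) → Bool) (F : (Fin k → Bool) → Bool),
      (∀ i, TGate B I (g i)) ∧ ∀ x, T x = F fun i => g i x
  | D + 1 => fun T => ∃ d : ℕ, 2 ^ d ≤ N ∧ Rf.DTree (Search I (STree N B k I D)) d T

/-- `T` has a decision tree of depth at most `c log n` whose leaves are search trees with `D`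
searches, over their own family of overlapping blocks of at most `c log n` bits at every leaf. -/
def OVTest (c r B k D n : ℕ) (T : (Fin n → Bool) → Bool) : Prop :=
  ∃ d : ℕ, 2 ^ d ≤ n ^ c ∧ Rf.DTree (fun U : (Fin n → Bool) → Bool =>
    ∃ (q : ℕ) (I : Fin q → Finset (Fin n)), (∀ j, 2 ^ (I j).card ≤ n ^ c) ∧ Over r I ∧
      STree (n ^ c) B k I D U) d T

/-- The last state of a program which reads the blocks in the order `π` and starts in `s`; the
transition at the block `j` is `τ j x`. -/
def run {n q : ℕ} {Q : Type} (π : Equiv.Perm (Fin q)) (τ : Fin q → (Fin n → Bool) → Q → Q) (s : Q)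
    (x : Fin n → Bool) : Q :=
  (List.finRange q).foldl (fun s i => τ (π i) x s) s

end Pool.Agent.MP_ca1109_lc.Ovr
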