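import Pool.Agent.MP_ca1109_lc.Ovr.OCD
import Pool.Agent.MP_ca1109_lc.Ovr.OL
import Pool.Agent.MP_ca1109_lc.Ovr.Test
import Pool.Agent.MP_ca1109_lc.Ovr.OSa
import Pool.Agent.MP_ca1109_lc.Rf.DT
import Pool.Agent.MP_ca1109_lc.Agp.G3

/-!
# Search trees over overlapping blocks are fooled
-/

namespace Pool.Agent.MP_ca1109_lc.Ovr

open Finset Pool.Agent.H66 Pool.Agent.MP_ca1109_lc.Mpg Pool.Agent.MP_ca1109_lc.Agp
  Pool.Agent.MP_ca1109_lc.Xp Pool.Agent.MP_ca1109_lc.Ov
open Pool.Agent.MP_ca1109_lc.Dnf (one one_le one_nonneg one_true one_false)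

variable {n q : ℕ}

theorem os_fmono {N b b' r : ℕ} {ε ε' τ τ' : ℝ} (hN : 1 ≤ N) (hb : b ≤ b') (hε : ε ≤ ε')
    (hτ : τ ≤ τ') {Ω : Type} [Fintype Ω] {X : Ω → Fin n → Bool} (hX : OFools N b' r ε τ X) :
    OFools N b r ε' τ' X := by
  intro q I f hI hc hf h1 B v hB hs
  refine (hX q I f hI hc hf h1 B v hB (hs.trans (Nat.pow_le_pow_right hN hb))).trans ?_
  gcongr

/-! ## Closure -/

theorem os_dand {𝒯 𝒰 : ((Fin n → Bool) → Bool) → Prop} {g : (Fin n → Bool) → Bool}
    (h : ∀ T, 𝒯 T → 𝒰 (fun x => g x && T x)) {d : ℕ} {T : (Fin n → Bool) → Bool}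
    (hT : Rf.DTree 𝒯 d T) : Rf.DTree 𝒰 d (fun x => g x && T x) := by
  induction hT with
  | leaf hT => exact Rf.DTree.leaf (h _ hT)
  | @node d T U i _ _ h1 h2 =>
    have e : (fun x => g x && (if x i = true then U x else T x)) =
        fun x => if x i = true then (g x && U x) else (g x && T x) := by
      funext x
      split_ifs <;> rfl
    rw [e]
    exact Rf.DTree.node i h1 h2

theorem os_dmono {𝒯 𝒰 : ((Fin n → Bool) → Bool) → Prop} (h : ∀ T, 𝒯 T → 𝒰 T) {d : ℕ}
    {T : (Fin n → Bool) → Bool} (hT : Rf.DTree 𝒯 d T) : Rf.DTree 𝒰 d T := by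
  induction hT with
  | leaf hT => exact Rf.DTree.leaf (h _ hT)
  | node i _ _ h1 h2 => exact Rf.DTree.node i h1 h2

theorem os_dst {𝒯 𝒰 : ((Fin n → Bool) → Bool) → Prop} (D : Finset (Fin n)) (v : Fin n → Bool)
    (h : ∀ T, 𝒯 T → 𝒰 (fun x => T (Rf.st D v x))) {d : ℕ} {T : (Fin n → Bool) → Bool}
    (hT : Rf.DTree 𝒯 d T) : Rf.DTree 𝒰 d (fun x => T (Rf.st D v x)) := by
  induction hT with
  | leaf hT => exact Rf.DTree.leaf (h _ hT)
  | @node d T U i _ _ h1 h2 =>
    have key : ∀ {V W : (Fin n → Bool) → Bool}, Rf.DTree 𝒰 d V → Rf.DTree 𝒰 d W →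
        Rf.DTree 𝒰 (d + 1) (fun x => if (Rf.st D v x) i = true then W x else V x) := by
      intro V W hV hW
      by_cases hi : i ∈ D
      · rcases hv : v i with _ | _
        · have e : (fun x => if (Rf.st D v x) i = true then W x else V x) =
              fun x => if x i = true then V x else V x := by
            funext x
            simp [Rf.st, hi, hv]
          rw [e]
          exact Rf.DTree.node i hV hV
        · have e : (fun x => if (Rf.st D v x) i = true then W x else V x) =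
              fun x => if x i = true then W x else W x := by
            funext x
            simp [Rf.st, hi, hv]
          rw [e]
          exact Rf.DTree.node i hW hW
      · have e : (fun x => if (Rf.st D v x) i = true then W x else V x) =
            fun x => if x i = true then W x else V x := by
          funext x
          simp [Rf.st, hi]
        rw [e]
        exact Rf.DTree.node i hV hW
    exact key h1 h2

theorem os_on_st {α : Type} {I : Fin q → Finset (Fin n)} {a : Fin q → (Fin n → Bool) → α}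
    (h : OnBlocks I a) (D : Finset (Fin n)) (v : Fin n → Bool) :
    OnBlocks I (fun j x => a j (Rf.st D v x)) := by
  intro j x y hxy
  refine h j _ _ fun i hi => ?_
  unfold Rf.st
  by_cases hD : i ∈ D
  · rw [if_pos hD, if_pos hD]
  · rw [if_neg hD, if_neg hD]
    exact hxy i hi

theorem os_gate_st {B : ℕ} {I : Fin q → Finset (Fin n)} {g : (Fin n → Bool) → Bool}
    (h : TGate B I g) (D : Finset (Fin n)) (v : Fin n → Bool) :
    TGate B I (fun x => g (Rf.st D v x)) := by
  rcases h with (⟨G, i1, i2, a, A, h1, h2, h3⟩ | ⟨M, i1, i2, a, A, h1, h2, h3⟩) |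
    ⟨w, θ, h1, h2, h3⟩
  · exact Or.inl (Or.inl ⟨G, i1, i2, fun j x => a j (Rf.st D v x), A, h1, os_on_st h2 D v,
      fun x => h3 _⟩)
  · exact Or.inl (Or.inr ⟨M, i1, i2, fun j x => a j (Rf.st D v x), A, h1, os_on_st h2 D v,
      fun x => h3 _⟩)
  · exact Or.inr ⟨fun j x => w j (Rf.st D v x), θ, os_on_st h1 D v, fun j x => h2 j _,
      fun x => h3 _⟩

theorem os_gate_mono {B B' : ℕ} (hB : B ≤ B') {I : Fin q → Finset (Fin n)}
    {g : (Fin n → Bool) → Bool} (h : TGate B I g) : TGate B' I g := by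
  rcases h with (⟨G, i1, i2, a, A, h1, h2, h3⟩ | ⟨M, i1, i2, a, A, h1, h2, h3⟩) |
    ⟨w, θ, h1, h2, h3⟩
  · exact Or.inl (Or.inl ⟨G, i1, i2, a, A, h1.trans hB, h2, h3⟩)
  · exact Or.inl (Or.inr ⟨M, i1, i2, a, A, h1.trans hB, h2, h3⟩)
  · exact Or.inr ⟨w, θ, h1, fun j x => (h2 j x).trans (by exact_mod_cast hB), h3⟩

theorem os_sand {I : Fin q → Finset (Fin n)} {𝒯 𝒰 : ((Fin n → Bool) → Bool) → Prop}
    {g : (Fin n → Bool) → Bool} (h : ∀ T, 𝒯 T → 𝒰 (fun x => g x && T x))
    {T : (Fin n → Bool) → Bool} (hT : Search I 𝒯 T) : Search I 𝒰 (fun x => g x && T x) := by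
  obtain ⟨π, p, U, T₀, hp, hU, h0, h1, hx⟩ := hT
  refine ⟨π, p, fun j w x => g x && U j w x, fun x => g x && T₀ x, hp, ?_, h _ h0,
    fun j w => h _ (h1 j w), fun x => ⟨fun hx0 => ?_, fun i hi hi' => ?_⟩⟩
  · intro j x y hxy
    show (fun z => g z && U j x z) = fun z => g z && U j y z
    rw [hU j x y hxy]
  · show (g x && T x) = (g x && T₀ x)
    rw [(hx x).1 hx0]
  · show (g x && T x) = (g x && U (π i) x x)
    rw [(hx x).2 i hi hi']

theorem os_smono {I : Fin q → Finset (Fin n)} {𝒯 𝒰 : ((Fin n → Bool) → Bool) → Prop}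
    (h : ∀ T, 𝒯 T → 𝒰 T) {T : (Fin n → Bool) → Bool} (hT : Search I 𝒯 T) : Search I 𝒰 T := by
  obtain ⟨π, p, U, T₀, hp, hU, h0, h1, hx⟩ := hT
  exact ⟨π, p, U, T₀, hp, hU, h _ h0, fun j w => h _ (h1 j w), hx⟩

theorem os_sst {I : Fin q → Finset (Fin n)} {𝒯 𝒰 : ((Fin n → Bool) → Bool) → Prop}
    (D : Finset (Fin n)) (v : Fin n → Bool) (h : ∀ T, 𝒯 T → 𝒰 (fun x => T (Rf.st D v x)))
    {T : (Fin n → Bool) → Bool} (hT : Search I 𝒯 T) :
    Search I 𝒰 (fun x => T (Rf.st D v x)) := by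
  obtain ⟨π, p, U, T₀, hp, hU, h0, h1, hx⟩ := hT
  refine ⟨π, fun j x => p j (Rf.st D v x), fun j w x => U j (Rf.st D v w) (Rf.st D v x),
    fun x => T₀ (Rf.st D v x), os_on_st hp D v, ?_, h _ h0, fun j w => h _ (h1 j _),
    fun x => ⟨fun hx0 => (hx _).1 hx0, fun i hi hi' => (hx _).2 i hi hi'⟩⟩
  intro j x y hxy
  have h' : U j (Rf.st D v x) = U j (Rf.st D v y) := os_on_st hU D v j x y hxy
  show (fun z => U j (Rf.st D v x) (Rf.st D v z)) = fun z => U j (Rf.st D v y) (Rf.st D v z)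
  rw [h']

theorem os_tand {N B k : ℕ} {I : Fin q → Finset (Fin n)} {g : (Fin n → Bool) → Bool}
    (hg : TGate B I g) : ∀ (D : ℕ) (T : (Fin n → Bool) → Bool), STree N B k I D T →
      STree N B (k + 1) I D (fun x => g x && T x)
  | 0, T, ⟨g', F, hg', hT⟩ => by
    refine ⟨Fin.cons g g', fun y => y 0 && F (fun i => y i.succ), ?_, fun x => ?_⟩
    · intro i
      refine Fin.cases ?_ (fun i => ?_) i
      · exact hg
      · exact hg' i
    · show (g x && T x) = _
      rw [hT]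
      rfl
  | D + 1, _, ⟨d, hd, hT⟩ => ⟨d, hd, os_dand (fun _ h => os_sand (os_tand hg D) h) hT⟩

theorem os_tst {N B k : ℕ} {I : Fin q → Finset (Fin n)} (E : Finset (Fin n))
    (v : Fin n → Bool) : ∀ (D : ℕ) (T : (Fin n → Bool) → Bool), STree N B k I D T →
      STree N B k I D (fun x => T (Rf.st E v x))
  | 0, _, ⟨g', F, hg', hT⟩ => ⟨fun i x => g' i (Rf.st E v x), F, fun i => os_gate_st (hg' i) E v,
      fun _ => hT _⟩
  | D + 1, _, ⟨d, hd, hT⟩ => ⟨d, hd, os_dst E v (fun _ h => os_sst E v (os_tst E v D) h) hT⟩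

theorem os_tmono {N B B' k : ℕ} (hB : B ≤ B') {I : Fin q → Finset (Fin n)} :
    ∀ (D : ℕ) (T : (Fin n → Bool) → Bool), STree N B k I D T → STree N B' k I D T
  | 0, _, ⟨g', F, hg', hT⟩ => ⟨g', F, fun i => os_gate_mono hB (hg' i), hT⟩
  | D + 1, _, ⟨d, hd, hT⟩ => ⟨d, hd, os_dmono (fun _ h => os_smono (os_tmono hB D) h) hT⟩

/-- The event that `p` holds at no block in a set is a gate. -/
theorem os_gate_no {B : ℕ} (hB : 2 ≤ B) {I : Fin q → Finset (Fin n)}
    {p : Fin q → (Fin n → Bool) → Bool} (hp : OnBlocks I p)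
    (P : Finset (Fin q)) : OGate B I (fun x => decide (∀ j ∈ P, p j x = false)) := by
  classical
  have h2 : Fact (Nat.Prime 2) := ⟨Nat.prime_two⟩
  refine Or.inr ⟨ZMod 2, inferInstance, inferInstance,
    fun j x => if j ∈ P ∧ p j x = true then 0 else 1, {1}, ?_, ?_, ?_⟩
  · rw [ZMod.card]
    exact hB
  · intro j x y hxy
    simp only [hp j x y hxy]
  · intro x
    rw [decide_eq_true_iff, Set.mem_singleton_iff]
    constructor
    · intro h
      refine prod_eq_one fun j _ => if_neg ?_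
      rintro ⟨h1, h3⟩
      rw [h j h1] at h3
      exact Bool.false_ne_true h3
    · intro h j hj
      by_contra hne
      have h3 : p j x = true := by simpa using hne
      have h4 : ∏ j, (if j ∈ P ∧ p j x = true then (0 : ZMod 2) else 1) = 0 :=
        prod_eq_zero (mem_univ j) (if_pos ⟨hj, h3⟩)
      rw [h4] at h
      exact zero_ne_one h

/-! ## Averages -/

theorem os_ofReal {A : Type*} [Fintype A] (f : A → ℝ) :
    ((avg f : ℝ) : ℂ) = av fun a => ((f a : ℝ) : ℂ) := by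
  unfold avg av
  push_cast
  rfl

/-- Independence of a pattern. -/
theorem os_pat (B : Finset (Fin n)) (v : Fin n → Bool) {F : (Fin n → Bool) → ℝ}
    (hF : ∀ x y : Fin n → Bool, (∀ i ∈ Bᶜ, x i = y i) → F x = F y) :
    (avg fun x => one (Rf.pat B v x) * F x) = (1 / 2) ^ B.card * avg F := by
  have h := Rf.av_pc B v (t := fun x => ((F x : ℝ) : ℂ)) (fun x y hxy => by
    show ((F x : ℝ) : ℂ) = ((F y : ℝ) : ℂ)
    rw [hF x y hxy])
  have h1 : (((avg fun x => one (Rf.pat B v x) * F x : ℝ)) : ℂ) =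
      (((1 / 2) ^ B.card * avg F : ℝ) : ℂ) := by
    push_cast
    rw [os_ofReal, os_ofReal]
    push_cast
    exact h
  exact_mod_cast h1

theorem os_pat1 (B : Finset (Fin n)) (x : Fin n → Bool) :
    (avg fun w : Fin n → Bool => one (Rf.pat B w x)) = (1 / 2) ^ B.card := by
  have h := os_pat B x (F := fun _ => 1) (fun _ _ _ => rfl)
  rw [avg_const] at h
  simp only [mul_one] at h
  rw [← h]
  congr 1
  funext w
  have : Rf.pat B w x ↔ Rf.pat B x w := forall₂_congr fun _ _ => eq_comm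
  rw [propext this]

theorem os_comm {A C : Type*} [Fintype A] [Fintype C] (f : A → C → ℝ) :
    (avg fun a => avg fun c => f a c) = avg fun c => avg fun a => f a c := by
  unfold avg
  rw [← Finset.sum_div, ← Finset.sum_div, Finset.sum_comm]
  ring

theorem os_abs {A : Type*} [Fintype A] (f : A → ℝ) : |avg f| ≤ avg fun a => |f a| := by
  unfold avg
  rw [abs_div, Nat.abs_cast]
  exact div_le_div_of_nonneg_right (Finset.abs_sum_le_sum_abs _ _) (Nat.cast_nonneg _)

theorem os_st {D : Finset (Fin n)} {v x : Fin n → Bool} (h : Rf.pat D v x) : Rf.st D v x = x := by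
  funext i
  unfold Rf.st
  split_ifs with hi
  · exact (h i hi).symm
  · rfl

theorem os_st_on {α : Type} (D : Finset (Fin n)) (v : Fin n → Bool) (G : (Fin n → Bool) → α)
    (x y : Fin n → Bool) (h : ∀ i ∈ Dᶜ, x i = y i) : G (Rf.st D v x) = G (Rf.st D v y) := by
  congr 1
  funext i
  unfold Rf.st
  split_ifs with hi
  · rfl
  · exact h i (Finset.mem_compl.2 hi)

/-! ## The blocks before a time -/

/-- The blocks before the time `e`. -/
def bf (π : Equiv.Perm (Fin q)) (e : ℕ) : Finset (Fin q) :=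
  univ.filter fun j => ((π.symm j : Fin q) : ℕ) < e

theorem bf_step (π : Equiv.Perm (Fin q)) {e : ℕ} (he : e < q) :
    bf π (e + 1) = insert (π ⟨e, he⟩) (bf π e) := by
  ext j
  simp only [bf, Finset.mem_filter, Finset.mem_univ, true_and, Finset.mem_insert]
  have : j = π ⟨e, he⟩ ↔ ((π.symm j : Fin q) : ℕ) = e := by
    rw [← Equiv.symm_apply_eq, Fin.ext_iff]
  rw [this]
  omega

theorem bf_notMem (π : Equiv.Perm (Fin q)) {e : ℕ} (he : e < q) : π ⟨e, he⟩ ∉ bf π e := by
  simp [bf]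

/-- The window. -/
theorem bf_window (π : Equiv.Perm (Fin q)) {M : Fin q → ℝ} (hM : ∀ j, M j ≤ 1) {Lam : ℝ}
    (h0 : 0 ≤ Lam) : ∃ e : ℕ, e ≤ q ∧ ∑ j ∈ bf π e, M j ≤ Lam + 1 ∧
      (e = q ∨ Lam < ∑ j ∈ bf π e, M j) := by
  have key : ∀ m : ℕ, m ≤ q → ∃ e : ℕ, e ≤ m ∧ ∑ j ∈ bf π e, M j ≤ Lam + 1 ∧
      (e = m ∨ Lam < ∑ j ∈ bf π e, M j) := by
    intro m
    induction m with
    | zero =>
      intro _
      refine ⟨0, le_rfl, ?_, Or.inl rfl⟩
      simp [bf]
      linarith
    | succ m ih =>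
      intro hm
      obtain ⟨e, he, h2, h3⟩ := ih (by omega)
      rcases h3 with h3 | h3
      · subst h3
        rcases lt_or_ge Lam (∑ j ∈ bf π e, M j) with h4 | h4
        · exact ⟨e, by omega, h2, Or.inr h4⟩
        · refine ⟨e + 1, le_rfl, ?_, Or.inl rfl⟩
          rw [bf_step π (by omega), Finset.sum_insert (bf_notMem π _)]
          have := hM (π ⟨e, by omega⟩)
          linarith
      · exact ⟨e, by omega, h2, Or.inr h3⟩
  exact key q le_rfl

/-- The value of a search up to the time `e`. -/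
theorem os_dec {π : Equiv.Perm (Fin q)} {p : Fin q → (Fin n → Bool) → Bool}
    {V : Fin q → (Fin n → Bool) → (Fin n → Bool) → Bool} {T : (Fin n → Bool) → Bool}
    (hs : ∀ x i, p (π i) x = true → (∀ i' < i, p (π i') x = false) → T x = V (π i) x x) (e : ℕ)
    (x : Fin n → Bool) :
    one (T x = true) = (∑ j ∈ bf π e, one (p j x = true) *
        (one (∀ j' ∈ bf π (π.symm j), p j' x = false) * one (V j x x = true))) +
      one (∀ j ∈ bf π e, p j x = false) * one (T x = true) := by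
  classical
  by_cases h : ∀ j ∈ bf π e, p j x = false
  · rw [Finset.sum_eq_zero, one_true h]
    · ring
    · intro j hj
      have : ¬ p j x = true := by
        rw [h j hj]
        exact Bool.false_ne_true
      rw [one_false this, zero_mul]
  · rw [one_false h, zero_mul, add_zero]
    obtain ⟨S, hS⟩ : ∃ S : Finset (Fin q), S =
      univ.filter (fun i : Fin q => (i : ℕ) < e ∧ p (π i) x = true) := ⟨_, rfl⟩
    have hne : S.Nonempty := by
      by_contra hcon
      rw [Finset.not_nonempty_iff_eq_empty] at hcon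
      refine h fun j hj => ?_
      by_contra h1
      have : π.symm j ∈ S := by
        rw [hS, Finset.mem_filter]
        refine ⟨Finset.mem_univ _, (Finset.mem_filter.1 hj).2, ?_⟩
        rw [Equiv.apply_symm_apply]
        simpa using h1
      rw [hcon] at this
      exact Finset.notMem_empty _ this
    obtain ⟨i₀, hi₀⟩ : ∃ i₀, i₀ = S.min' hne := ⟨_, rfl⟩
    have hmem : i₀ ∈ S := by rw [hi₀]; exact Finset.min'_mem S hne
    rw [hS, Finset.mem_filter] at hmem
    have hmin : ∀ i' < i₀, p (π i') x = false := by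
      intro i' hi'
      by_contra h1
      have h2 : i' ∈ S := by
        rw [hS, Finset.mem_filter]
        refine ⟨Finset.mem_univ _, lt_trans (Fin.lt_def.1 hi') hmem.2.1, by simpa using h1⟩
      have := Finset.min'_le S i' h2
      rw [← hi₀] at this
      exact absurd hi' (not_lt.2 this)
    have hT : T x = V (π i₀) x x := hs x i₀ hmem.2.2 hmin
    have hin : π i₀ ∈ bf π e := by
      rw [bf, Finset.mem_filter, Equiv.symm_apply_apply]
      exact ⟨Finset.mem_univ _, hmem.2.1⟩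
    rw [Finset.sum_eq_single_of_mem (π i₀) hin]
    · have h1 : ∀ j' ∈ bf π (π.symm (π i₀)), p j' x = false := by
        intro j' hj'
        rw [bf, Finset.mem_filter, Equiv.symm_apply_apply] at hj'
        have := hmin (π.symm j') (Fin.lt_def.2 hj'.2)
        rwa [Equiv.apply_symm_apply] at this
      rw [one_true hmem.2.2, one_true h1, hT]
      ring
    · intro j hj hne'
      have hji : π.symm j ≠ i₀ := fun h1 => hne' (by rw [← h1, Equiv.apply_symm_apply])
      rcases lt_or_gt_of_ne hji with h1 | h1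
      · have h2 := hmin _ h1
        rw [Equiv.apply_symm_apply] at h2
        have : ¬ p j x = true := by
          rw [h2]
          exact Bool.false_ne_true
        rw [one_false this, zero_mul]
      · have : ¬ ∀ j' ∈ bf π (π.symm j), p j' x = false := by
          intro h2
          have := h2 (π i₀) (by
            rw [bf, Finset.mem_filter, Equiv.symm_apply_apply]
            exact ⟨Finset.mem_univ _, Fin.lt_def.1 h1⟩)
          rw [hmem.2.2] at this
          exact Bool.noConfusion this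
        rw [one_false this]
        ring

/-! ## One found block -/

/-- One found block, as an average over its contents. -/
theorem os_term (J : Finset (Fin n)) {p : (Fin n → Bool) → Bool}
    (hp : ∀ x y : Fin n → Bool, (∀ i ∈ J, x i = y i) → p x = p y)
    {V : (Fin n → Bool) → (Fin n → Bool) → Bool}
    (hV : ∀ x y : Fin n → Bool, (∀ i ∈ J, x i = y i) → V x = V y) (g : (Fin n → Bool) → Bool)
    (x : Fin n → Bool) :
    one (p x = true) * (one (g x = true) * one (V x x = true)) =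
      avg fun w : Fin n → Bool => 2 ^ J.card * (one (p w = true) *
        (one (Rf.pat J w x) * one ((g (Rf.st J w x) && V w (Rf.st J w x)) = true))) := by
  classical
  have h1 : ∀ w : Fin n → Bool, 2 ^ J.card * (one (p w = true) *
        (one (Rf.pat J w x) * one ((g (Rf.st J w x) && V w (Rf.st J w x)) = true))) =
      (2 ^ J.card * (one (p x = true) * (one (g x = true) * one (V x x = true)))) *
        one (Rf.pat J w x) := by
    intro w
    by_cases h : Rf.pat J w x
    · rw [os_st h, hp w x fun i hi => (h i hi).symm, hV w x fun i hi => (h i hi).symm,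
        one_true h]
      have : one ((g x && V x x) = true) = one (g x = true) * one (V x x = true) := by
        cases g x <;> cases V x x <;> simp [one]
      rw [this]
      ring
    · rw [one_false h]
      ring
  rw [show (fun w : Fin n → Bool => 2 ^ J.card * (one (p w = true) *
        (one (Rf.pat J w x) * one ((g (Rf.st J w x) && V w (Rf.st J w x)) = true)))) =
      fun w => _ from funext h1, avg_mul_left, os_pat1]
  have : (2 : ℝ) ^ J.card * (1 / 2) ^ J.card = 1 := by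
    rw [← mul_pow]
    norm_num
  linear_combination (-(one (p x = true) * (one (g x = true) * one (V x x = true)))) * this

/-- The error for one found block. -/
theorem os_term_err {N s r : ℕ} {ε₁ εx τ : ℝ} (hN : 1 ≤ N) (hεx : 0 ≤ εx) (hεx1 : εx ≤ 1 / 4)
    (hτ : 0 ≤ τ) (hτ1 : τ * N ≤ 1 / 4) {J : Finset (Fin n)} (hJ : 2 ^ J.card ≤ N)
    {p : (Fin n → Bool) → Bool}
    (hp : ∀ x y : Fin n → Bool, (∀ i ∈ J, x i = y i) → p x = p y)
    {V : (Fin n → Bool) → (Fin n → Bool) → Bool}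
    (hV : ∀ x y : Fin n → Bool, (∀ i ∈ J, x i = y i) → V x = V y) (g : (Fin n → Bool) → Bool)
    (H : ∀ w : Fin n → Bool, ∀ {Ω' : Type} [Fintype Ω'] [Nonempty Ω'] (X' : Ω' → Fin n → Bool),
      OFools N s r (8 * εx + 8 * τ * N) (4 * τ * N) X' →
      |(avg fun ω => one ((g (Rf.st J w (X' ω)) && V w (Rf.st J w (X' ω))) = true)) -
        avg fun x => one ((g (Rf.st J w x) && V w (Rf.st J w x)) = true)| ≤ ε₁)
    {Ω : Type} [Fintype Ω] [Nonempty Ω] {X : Ω → Fin n → Bool}
    (hX : OFools N (1 + s) r εx τ X) :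
    |(avg fun ω => one (p (X ω) = true) * (one (g (X ω) = true) * one (V (X ω) (X ω) = true))) -
      avg fun x => one (p x = true) * (one (g x = true) * one (V x x = true))| ≤
      (avg fun x => one (p x = true)) * (ε₁ + εx + N * τ) := by
  have h1 : ∀ w : Fin n → Bool, |(avg fun ω => one (Rf.pat J w (X ω)) *
        one ((g (Rf.st J w (X ω)) && V w (Rf.st J w (X ω))) = true)) -
      avg fun x => one (Rf.pat J w x) * one ((g (Rf.st J w x) && V w (Rf.st J w x)) = true)| ≤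
      (1 / 2) ^ J.card * (ε₁ + εx) + τ := by
    intro w
    have hF : ∀ x y : Fin n → Bool, (∀ i ∈ Jᶜ, x i = y i) →
        one ((g (Rf.st J w x) && V w (Rf.st J w x)) = true) =
        one ((g (Rf.st J w y) && V w (Rf.st J w y)) = true) :=
      os_st_on J w fun x => one ((g x && V w x) = true)
    obtain ⟨Ω', i1, i2, X', hX', hc⟩ := ocond (b := 1) (b' := s) hN hεx hεx1 hτ
      (by rw [pow_one]; exact hτ1) hX (D := J) (by rw [pow_one]; exact hJ) w
    rw [pow_one] at hX'
    have h2 := hc (fun x => one ((g (Rf.st J w x) && V w (Rf.st J w x)) = true)) hF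
      fun x => ⟨one_nonneg _, one_le _⟩
    have h3 := H w X' hX'
    rw [os_pat J w hF]
    refine h2.trans ?_
    gcongr
  have hswap : ∀ {A : Type} [Fintype A] [Nonempty A] (Y : A → Fin n → Bool),
      (avg fun ω => one (p (Y ω) = true) * (one (g (Y ω) = true) * one (V (Y ω) (Y ω) = true))) =
      avg fun w : Fin n → Bool => 2 ^ J.card * (one (p w = true) *
        avg fun ω => one (Rf.pat J w (Y ω)) *
          one ((g (Rf.st J w (Y ω)) && V w (Rf.st J w (Y ω))) = true)) := by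
    intro A _ _ Y
    simp only [os_term J hp hV g]
    rw [os_comm]
    simp only [avg_mul_left]
  rw [hswap X, hswap (fun x : Fin n → Bool => x), ← avg_sub]
  refine (os_abs _).trans ?_
  have h6 : (2 : ℝ) ^ J.card ≤ N := by exact_mod_cast hJ
  have h7 : (2 : ℝ) ^ J.card * τ ≤ N * τ := mul_le_mul_of_nonneg_right h6 hτ
  have h2 : ∀ w : Fin n → Bool, |2 ^ J.card * (one (p w = true) *
        avg fun ω => one (Rf.pat J w (X ω)) *
          one ((g (Rf.st J w (X ω)) && V w (Rf.st J w (X ω))) = true)) -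
      2 ^ J.card * (one (p w = true) * avg fun x => one (Rf.pat J w x) *
        one ((g (Rf.st J w x) && V w (Rf.st J w x)) = true))| ≤
      (ε₁ + εx + N * τ) * one (p w = true) := by
    intro w
    rw [← mul_sub, ← mul_sub, abs_mul, abs_mul, abs_of_nonneg (one_nonneg _),
      abs_of_nonneg (show (0 : ℝ) ≤ 2 ^ J.card by positivity)]
    have h3 : (2 : ℝ) ^ J.card * (1 / 2) ^ J.card = 1 := by
      rw [← mul_pow]
      norm_num
    calc (2 : ℝ) ^ J.card * (one (p w = true) * |_|) ≤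
        2 ^ J.card * (one (p w = true) * ((1 / 2) ^ J.card * (ε₁ + εx) + τ)) :=
          mul_le_mul_of_nonneg_left (mul_le_mul_of_nonneg_left (h1 w) (one_nonneg _))
            (by positivity)
      _ = ((2 ^ J.card * (1 / 2) ^ J.card) * (ε₁ + εx) + 2 ^ J.card * τ) *
            one (p w = true) := by ring
      _ = (ε₁ + εx + 2 ^ J.card * τ) * one (p w = true) := by rw [h3, one_mul]
      _ ≤ _ := mul_le_mul_of_nonneg_right (by linarith) (one_nonneg _)
  refine (avg_mono h2).trans (le_of_eq ?_)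
  rw [avg_mul_left, mul_comm]

/-- One search. -/
theorem os_search {N B s r : ℕ} {ε₁ εx τ Lam : ℝ} (hN : 1 ≤ N) (hB : 2 ≤ B)
    {I : Fin q → Finset (Fin n)} (hI : Over r I) (hb : ∀ j, 2 ^ (I j).card ≤ N)
    {𝒯 𝒰 : ((Fin n → Bool) → Bool) → Prop}
    (h𝒰 : ∀ T, 𝒯 T → ∀ g, TGate B I g → 𝒰 (fun x => g x && T x))
    (h𝒱 : ∀ T, 𝒰 T → ∀ D v, 𝒰 (fun x => T (Rf.st D v x)))
    (H : ∀ {Ω' : Type} [Fintype Ω'] [Nonempty Ω'] (X' : Ω' → Fin n → Bool),
      OFools N s r (8 * εx + 8 * τ * N) (4 * τ * N) X' → ∀ T, 𝒰 T →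
      |(avg fun ω => one (T (X' ω) = true)) - avg fun x => one (T x = true)| ≤ ε₁)
    (hε₁ : 0 ≤ ε₁) (hεx : 0 ≤ εx) (hεx1 : εx ≤ 1 / 4) (hτ : 0 ≤ τ) (hτ1 : τ * N ≤ 1 / 4)
    (hLam : 0 ≤ Lam) {Ω : Type} [Fintype Ω] [Nonempty Ω] {X : Ω → Fin n → Bool}
    (hX : OFools N (1 + s) r εx τ X) {T : (Fin n → Bool) → Bool} (hT : Search I 𝒯 T) :
    |(avg fun ω => one (T (X ω) = true)) - avg fun x => one (T x = true)| ≤
      (Lam + 2) * (ε₁ + εx + N * τ) + Real.exp (-Lam / ((r : ℝ) + 1)) := by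
  classical
  obtain ⟨π, p, U, T₀, hp, hU, h0, h1, hx⟩ := hT
  have hM1 : ∀ j, (avg fun x : Fin n → Bool => one (p j x = true)) ≤ 1 :=
    fun j => avg_le fun x => one_le _
  obtain ⟨e, hen, hms, hor⟩ := bf_window π hM1 hLam
  have hgate : ∀ P : Finset (Fin q), TGate B I (fun x => decide (∀ j ∈ P, p j x = false)) :=
    fun P => Or.inl (os_gate_no hB hp P)
  have hdec : ∀ {A : Type} [Fintype A] [Nonempty A] (Y : A → Fin n → Bool),
      (avg fun a => one (T (Y a) = true)) =
      (∑ j ∈ bf π e, avg fun a => one (p j (Y a) = true) *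
        (one (decide (∀ j' ∈ bf π (π.symm j), p j' (Y a) = false) = true) *
          one (U j (Y a) (Y a) = true))) +
      avg fun a => one (∀ j ∈ bf π e, p j (Y a) = false) * one (T (Y a) = true) := by
    intro A _ _ Y
    rw [← avg_sum, ← avg_add]
    congr 1
    funext a
    simp only [decide_eq_true_eq]
    exact os_dec (fun x i => (hx x).2 i) e (Y a)
  rw [hdec X, hdec (fun x : Fin n → Bool => x)]
  have hNτ0 : 0 ≤ (N : ℝ) * τ := by positivity
  -- the found blocks
  have hterm : ∀ j ∈ bf π e,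
      |(avg fun ω => one (p j (X ω) = true) *
        (one (decide (∀ j' ∈ bf π (π.symm j), p j' (X ω) = false) = true) *
          one (U j (X ω) (X ω) = true))) -
      avg fun x => one (p j x = true) *
        (one (decide (∀ j' ∈ bf π (π.symm j), p j' x = false) = true) *
          one (U j x x = true))| ≤
      (avg fun x : Fin n → Bool => one (p j x = true)) * (ε₁ + εx + N * τ) := by
    intro j _
    refine os_term_err hN hεx hεx1 hτ hτ1 (hb j) (hp j) (hU j)
      (fun x => decide (∀ j' ∈ bf π (π.symm j), p j' x = false)) (fun w Ω' _ _ X' hX' => ?_) hX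
    exact H X' hX' _ (h𝒱 _ (h𝒰 _ (h1 j w) _ (hgate (bf π (π.symm j)))) (I j) w)
  have hsum : |(∑ j ∈ bf π e, avg fun ω => one (p j (X ω) = true) *
        (one (decide (∀ j' ∈ bf π (π.symm j), p j' (X ω) = false) = true) *
          one (U j (X ω) (X ω) = true))) -
      ∑ j ∈ bf π e, avg fun x => one (p j x = true) *
        (one (decide (∀ j' ∈ bf π (π.symm j), p j' x = false) = true) *
          one (U j x x = true))| ≤ (Lam + 1) * (ε₁ + εx + N * τ) := by
    rw [← Finset.sum_sub_distrib]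
    refine (Finset.abs_sum_le_sum_abs _ _).trans ((Finset.sum_le_sum hterm).trans ?_)
    rw [← Finset.sum_mul]
    exact mul_le_mul_of_nonneg_right hms (by linarith)
  -- the rest
  have hrest : |(avg fun ω => one (∀ j ∈ bf π e, p j (X ω) = false) * one (T (X ω) = true)) -
      avg fun x => one (∀ j ∈ bf π e, p j x = false) * one (T x = true)| ≤
      ε₁ + εx + N * τ + Real.exp (-Lam / ((r : ℝ) + 1)) := by
    have hN1 : (1 : ℝ) ≤ N := by exact_mod_cast hN
    have hτN : τ ≤ N * τ := by nlinarith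
    rcases hor with hor | hor
    · -- all blocks
      have e1 : ∀ x, one (∀ j ∈ bf π e, p j x = false) * one (T x = true) =
          one ((decide (∀ j ∈ bf π e, p j x = false) && T₀ x) = true) := by
        intro x
        by_cases h : ∀ j ∈ bf π e, p j x = false
        · have h2 : T x = T₀ x := (hx x).1 fun j => h j (by
            rw [bf, Finset.mem_filter, hor]
            exact ⟨Finset.mem_univ _, (π.symm j).2⟩)
          rw [one_true h, h2, one_mul, decide_eq_true h, Bool.true_and]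
        · rw [one_false h, zero_mul, decide_eq_false h, Bool.false_and]
          exact (one_false Bool.false_ne_true).symm
      simp only [e1]
      have h2 : OFools N s r (8 * εx + 8 * τ * N) (4 * τ * N) X := by
        refine os_fmono hN (by omega) ?_ ?_ hX
        · have : 0 ≤ 8 * τ * N := by positivity
          linarith
        · nlinarith
      have h3 := H X h2 _ (h𝒰 _ h0 _ (hgate (bf π e)))
      refine h3.trans ?_
      have := Real.exp_pos (-Lam / ((r : ℝ) + 1))
      linarith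
    · have h2 := os_none (r := r + 1) (by omega) (fun i => (hI.1 i).trans (by omega)) hp (bf π e)
      have h3 := os_cf (os_fmono hN (Nat.zero_le _) le_rfl le_rfl hX : OFools N 0 r εx τ X) hI hb hp
        (bf π e) ∅ (fun _ => false) (by simp)
      have e2 : ∀ x : Fin n → Bool, one (Rf.pat ∅ (fun _ => false) x) = 1 :=
        fun x => one_true fun i hi => absurd hi (Finset.notMem_empty _)
      have e3 : ∀ x : Fin n → Bool, Rf.st ∅ (fun _ => false) x = x :=
        fun x => os_st fun i hi => absurd hi (Finset.notMem_empty _)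
      simp only [e2, e3, Finset.card_empty, pow_zero, one_mul] at h3
      have h4 : Real.exp (-(∑ j ∈ bf π e, avg fun x : Fin n → Bool => one (p j x = true)) /
          ((r + 1 : ℕ) : ℝ)) ≤ Real.exp (-Lam / ((r : ℝ) + 1)) := by
        push_cast
        refine Real.exp_le_exp.2 (div_le_div_of_nonneg_right (by linarith) (by positivity))
      have h5 : ∀ {A : Type} [Fintype A] (Y : A → Fin n → Bool),
          0 ≤ (avg fun a => one (∀ j ∈ bf π e, p j (Y a) = false) * one (T (Y a) = true)) ∧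
          (avg fun a => one (∀ j ∈ bf π e, p j (Y a) = false) * one (T (Y a) = true)) ≤
            avg fun a => one (∀ j ∈ bf π e, p j (Y a) = false) := by
        intro A _ Y
        refine ⟨avg_nonneg fun a => mul_nonneg (one_nonneg _) (one_nonneg _), avg_mono fun a => ?_⟩
        exact mul_le_of_le_one_right (one_nonneg _) (one_le _)
      obtain ⟨h6, h7⟩ := h5 X
      obtain ⟨h8, h9⟩ := h5 (fun x : Fin n → Bool => x)
      rw [abs_le]
      constructor <;> linarith
  rw [add_sub_add_comm]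
  refine (abs_add_le _ _).trans ((add_le_add hsum hrest).trans (le_of_eq ?_))
  ring

/-! ## Classes which are fooled by all strings with conditional fooling -/

/-- All tests of the class are fooled by the strings with conditional fooling. -/
def Fo (r : ℕ) (𝒞 : ∀ n q : ℕ, ℕ → (Fin q → Finset (Fin n)) → ((Fin n → Bool) → Bool) → Prop) :
    Prop :=
  ∀ ε : ℝ, 0 < ε → ∃ (s K : ℕ) (ε' : ℝ), 0 < ε' ∧ ∀ (n N : ℕ), 1 ≤ N → ∀ τ : ℝ, 0 ≤ τ →
    τ * (K * (N : ℝ) ^ K) ≤ ε' → ∀ {Ω : Type} [Fintype Ω] [Nonempty Ω] (X : Ω → Fin n → Bool),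
    OFools N s r ε' τ X → ∀ (q : ℕ) (I : Fin q → Finset (Fin n)), Over r I →
    (∀ j, 2 ^ (I j).card ≤ N) → ∀ T : (Fin n → Bool) → Bool, 𝒞 n q N I T →
      |(avg fun ω => one (T (X ω) = true)) - avg fun x => one (T x = true)| ≤ ε

theorem os_bd {K m N : ℕ} {a : ℝ} (hN : 1 ≤ N) (ha : a ≤ K) (hm : m ≤ K) :
    a * (N : ℝ) ^ m ≤ K * (N : ℝ) ^ K := by
  have h1 : (1 : ℝ) ≤ N := by exact_mod_cast hN
  exact mul_le_mul ha (pow_le_pow_right₀ h1 hm) (by positivity) (Nat.cast_nonneg _)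

/-- The numbers. -/
theorem os_num {K N : ℕ} {τ η : ℝ} (hN : 1 ≤ N) (hτ : 0 ≤ τ)
    (h : τ * (((8 * K + 8 : ℕ) : ℝ) * (N : ℝ) ^ (8 * K + 8)) ≤ η) : 8 * (N * τ) ≤ η ∧
      4 * τ * N * (K * (N : ℝ) ^ K) ≤ η := by
  have hK : (0 : ℝ) ≤ K := Nat.cast_nonneg K
  have e1 := os_bd (K := 8 * K + 8) (m := 1) (a := 8) hN
    (by push_cast; linarith) (by omega)
  have e2 := os_bd (K := 8 * K + 8) (m := K + 1) (a := 4 * K) hN
    (by push_cast; linarith) (by omega)
  refine ⟨?_, ?_⟩
  · have := mul_le_mul_of_nonneg_left e1 hτ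
    rw [pow_one] at this
    linarith
  · refine le_trans (le_of_eq ?_) ((mul_le_mul_of_nonneg_left e2 hτ).trans h)
    ring

theorem fo_search {r B : ℕ} (hB : 2 ≤ B)
    {𝒯 𝒰 : ∀ n q : ℕ, ℕ → (Fin q → Finset (Fin n)) → ((Fin n → Bool) → Bool) → Prop}
    (h1 : ∀ (n q N : ℕ) (I : Fin q → Finset (Fin n)) (T : (Fin n → Bool) → Bool),
      𝒯 n q N I T → ∀ g, TGate B I g → 𝒰 n q N I (fun x => g x && T x))
    (h2 : ∀ (n q N : ℕ) (I : Fin q → Finset (Fin n)) (T : (Fin n → Bool) → Bool),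
      𝒰 n q N I T → ∀ (D : Finset (Fin n)) (v : Fin n → Bool),
      𝒰 n q N I (fun x => T (Rf.st D v x)))
    (h3 : Fo r 𝒰) : Fo r (fun n q N I => Search I (𝒯 n q N I)) := by
  intro ε hε
  have hr : (0 : ℝ) < (r : ℝ) + 1 := by positivity
  obtain ⟨Lam, hLam⟩ := exists_nat_gt (((r : ℝ) + 1) * (4 / ε))
  have hexp : Real.exp (-(Lam : ℝ) / ((r : ℝ) + 1)) ≤ ε / 4 := by
    rw [neg_div, Real.exp_neg, inv_le_comm₀ (Real.exp_pos _) (by positivity)]
    have e1 := Real.add_one_le_exp ((Lam : ℝ) / ((r : ℝ) + 1))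
    have e2 : (ε / 4)⁻¹ = 4 / ε := by rw [inv_div]
    have e3 : 4 / ε ≤ (Lam : ℝ) / ((r : ℝ) + 1) := by
      rw [le_div_iff₀ hr]
      linarith
    rw [e2]
    linarith
  have hL0 : (0 : ℝ) ≤ Lam := Nat.cast_nonneg _
  obtain ⟨ε₁, hε₁⟩ : ∃ ε₁ : ℝ, ε₁ = ε / (4 * (Lam + 2)) := ⟨_, rfl⟩
  have hε₁0 : 0 < ε₁ := by rw [hε₁]; positivity
  have hε₁2 : (Lam + 2) * ε₁ = ε / 4 := by
    rw [hε₁]
    field_simp
  obtain ⟨s, K, ε', hε', H⟩ := h3 ε₁ hε₁0
  obtain ⟨η, hη⟩ : ∃ η : ℝ, η = min (ε' / 16) (min (1 / 4) (ε₁ / 2)) := ⟨_, rfl⟩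
  have hη0 : 0 < η := by
    rw [hη]
    exact lt_min (by positivity) (lt_min (by norm_num) (by positivity))
  have hη1 : η ≤ ε' / 16 := by rw [hη]; exact min_le_left _ _
  have hη2 : η ≤ 1 / 4 := by rw [hη]; exact (min_le_right _ _).trans (min_le_left _ _)
  have hη3 : η ≤ ε₁ / 2 := by rw [hη]; exact (min_le_right _ _).trans (min_le_right _ _)
  refine ⟨1 + s, 8 * K + 8, η, hη0, ?_⟩
  intro n N hN τ hτ hbd Ω _ _ X hX q I hI hb T hT
  obtain ⟨g2, g3⟩ := os_num hN hτ hbd
  have hNτ : 0 ≤ (N : ℝ) * τ := by positivity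
  have key := os_search (Lam := (Lam : ℝ)) hN hB hI hb (h1 n q N I) (h2 n q N I)
    (fun X' hX' U hU => H n N hN (4 * τ * N) (by positivity) (by linarith) X'
      (os_fmono hN le_rfl (by linarith) le_rfl hX') q I hI hb U hU) hε₁0.le hη0.le hη2 hτ
    (by linarith) hL0 hX hT
  refine key.trans ?_
  have e1 : (Lam + 2) * (ε₁ + η + N * τ) ≤ 2 * (ε / 4) := by
    rw [← hε₁2]
    have : ε₁ + η + N * τ ≤ 2 * ε₁ := by linarith
    nlinarith
  linarith

theorem fo_dtree {r : ℕ}
    {𝒯 : ∀ n q : ℕ, ℕ → (Fin q → Finset (Fin n)) → ((Fin n → Bool) → Bool) → Prop}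
    (h2 : ∀ (n q N : ℕ) (I : Fin q → Finset (Fin n)) (T : (Fin n → Bool) → Bool),
      𝒯 n q N I T → ∀ (D : Finset (Fin n)) (v : Fin n → Bool),
      𝒯 n q N I (fun x => T (Rf.st D v x)))
    (h3 : Fo r 𝒯) : Fo r (fun n q N I T => ∃ d : ℕ, 2 ^ d ≤ N ∧ Rf.DTree (𝒯 n q N I) d T) := by
  intro ε hε
  obtain ⟨s, K, ε', hε', H⟩ := h3 (ε / 4) (by positivity)
  obtain ⟨η, hη⟩ : ∃ η : ℝ, η = min (ε' / 16) (min (1 / 4) (ε / 4)) := ⟨_, rfl⟩
  have hη0 : 0 < η := by
    rw [hη]
    exact lt_min (by positivity) (lt_min (by norm_num) (by positivity))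
  have hη1 : η ≤ ε' / 16 := by rw [hη]; exact min_le_left _ _
  have hη2 : η ≤ 1 / 4 := by rw [hη]; exact (min_le_right _ _).trans (min_le_left _ _)
  have hη3 : η ≤ ε / 4 := by rw [hη]; exact (min_le_right _ _).trans (min_le_right _ _)
  refine ⟨1 + s, 8 * K + 8, η, hη0, ?_⟩
  intro n N hN τ hτ hbd Ω _ _ X hX q I hI hb T hT
  obtain ⟨d, hd, hT⟩ := hT
  obtain ⟨g2, g3⟩ := os_num hN hτ hbd
  have hNτ : 0 ≤ (N : ℝ) * τ := by positivity
  have hleaf : ∀ U : (Fin n → Bool) → Bool, 𝒯 n q N I U → ∀ (D : Finset (Fin n))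
      (v : Fin n → Bool), D.card ≤ d →
      |(avg fun ω => one (Rf.pat D v (X ω)) * one (U (X ω) = true)) -
        avg fun x => one (Rf.pat D v x) * one (U x = true)| ≤
        (1 / 2) ^ D.card * (ε / 2) + τ := by
    intro U hU D v hD
    have hD' : 2 ^ D.card ≤ N := (Nat.pow_le_pow_right (by norm_num) hD).trans hd
    obtain ⟨Ω', i1, i2, X', hX', hc⟩ := ocond (b := 1) (b' := s) hN hη0.le hη2 hτ
      (by rw [pow_one]; linarith) hX (D := D) (by rw [pow_one]; exact hD') v
    rw [pow_one] at hX'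
    have h4 := H n N hN (4 * τ * N) (by positivity) (by linarith) X'
      (os_fmono hN le_rfl (by linarith) le_rfl hX') q I hI hb _ (h2 n q N I U hU D v)
    have hF : ∀ x y : Fin n → Bool, (∀ i ∈ Dᶜ, x i = y i) →
        one (U (Rf.st D v x) = true) = one (U (Rf.st D v y) = true) :=
      os_st_on D v fun x => one (U x = true)
    have h5 := hc (fun x => one (U (Rf.st D v x) = true)) hF (fun x => ⟨one_nonneg _, one_le _⟩)
    have e1 : ∀ x, one (Rf.pat D v x) * one (U x = true) =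
        one (Rf.pat D v x) * one (U (Rf.st D v x) = true) := by
      intro x
      by_cases h : Rf.pat D v x
      · rw [os_st h]
      · rw [one_false h, zero_mul, zero_mul]
    simp only [e1]
    rw [os_pat D v hF]
    refine h5.trans ?_
    have h6 : (0 : ℝ) ≤ (1 / 2) ^ D.card := by positivity
    have h7 := mul_le_mul_of_nonneg_left (add_le_add h4 hη3) h6
    rw [show ε / 4 + ε / 4 = ε / 2 by ring] at h7
    linarith
  have key : |(avg fun ω => one (T (X ω) = true)) - avg fun x => one (T x = true)| ≤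
      ε / 2 + 2 ^ d * τ := by
    first
      | exact Rf.dtree (N := 1) (b := 0) (by positivity) hτ X hleaf hT
      | exact Rf.dtree (by positivity) hτ X hleaf hT
  refine key.trans ?_
  have h8 : (2 : ℝ) ^ d * τ ≤ N * τ := mul_le_mul_of_nonneg_right (by exact_mod_cast hd) hτ
  linarith

/-- Boolean functions of gates are fooled. -/
theorem fo_leaf (r B k : ℕ) : Fo r (fun n q N I => STree N B k (n := n) (q := q) I 0) := by
  intro ε hε
  obtain ⟨ε₀, hε₀, H⟩ := oleaf r B k hε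
  refine ⟨0, 1, ε₀ / 2, by positivity, ?_⟩
  intro n N hN τ hτ hbd Ω _ _ X hX q I hI hb T hT
  obtain ⟨g, F, hg, hT⟩ := hT
  have hN1 : (1 : ℝ) ≤ N := by exact_mod_cast hN
  have hτ2 : τ ≤ ε₀ / 2 := by
    refine le_trans ?_ hbd
    rw [Nat.cast_one, one_mul, pow_one]
    exact le_mul_of_one_le_right hτ hN1
  have h1 := H hI F hg X fun f hf hf1 => by
    have h2 := hX q I f hI hb hf hf1 ∅ (fun _ => false)
      (fun j => Finset.disjoint_empty_right _) (by simp)
    have e2 : ∀ x : Fin n → Bool, Rf.pc ∅ (fun _ => false) x = 1 := by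
      intro x
      have h3 : Rf.pat ∅ (fun _ => false) x := fun i hi => absurd hi (Finset.notMem_empty _)
      unfold Rf.pc
      rw [one_true h3, Complex.ofReal_one]
    simp only [e2, Finset.card_empty, pow_zero, one_mul] at h2
    exact h2.trans (by linarith)
  simp only [hT]
  exact h1

/-- Search trees are fooled. -/
theorem fo_stree (r : ℕ) {B : ℕ} (hB : 2 ≤ B) : ∀ D k : ℕ,
    Fo r (fun n q N I => STree N B k (n := n) (q := q) I D)
  | 0, k => fo_leaf r B k
  | D + 1, k => by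
    have h1 := fo_search (r := r) hB (𝒯 := fun n q N I => STree N B k (n := n) (q := q) I D)
      (𝒰 := fun n q N I => STree N B (k + 1) (n := n) (q := q) I D)
      (fun n q N I T hT g hg => os_tand hg D T hT)
      (fun n q N I T hT D' v => os_tst D' v D T hT) (fo_stree r hB D (k + 1))
    exact fo_dtree (fun n q N I T hT D' v => os_sst D' v (os_tst D' v D) hT) h1

/-- The numbers for `n` bits. -/
theorem os_num' (c K' : ℕ) {ε' : ℝ} (hε' : 0 < ε') : ∃ K n₀ : ℕ, c + 1 ≤ K ∧ ∀ n ≥ n₀,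
    1 ≤ n ^ c ∧ 1 / ((n : ℝ) + 1) ^ K * ((n ^ c : ℕ) : ℝ) ≤ 1 / 4 ∧
      1 / ((n : ℝ) + 1) ^ K * ((n ^ c : ℕ) : ℝ) ≤ ε' / 16 ∧
      4 * (1 / ((n : ℝ) + 1) ^ K) * ((n ^ c : ℕ) : ℝ) *
        (K' * ((n ^ c : ℕ) : ℝ) ^ K') ≤ ε' := by
  obtain ⟨M, hM⟩ : ∃ M : ℝ, M = 4 + 16 / ε' + 4 * K' / ε' := ⟨_, rfl⟩
  refine ⟨c + c * K' + 1, max ⌈M⌉₊ 1, by omega, fun n hn => ?_⟩
  have hn1 : 1 ≤ n := (le_max_right _ _).trans hn
  have hnM : M ≤ (n : ℝ) + 1 := (Nat.ceil_le.1 ((le_max_left _ _).trans hn)).trans (by linarith)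
  have h16 : 0 ≤ 16 / ε' := by positivity
  have h4 : 0 ≤ 4 * K' / ε' := by positivity
  obtain ⟨x, hx⟩ : ∃ x : ℝ, x = (n : ℝ) + 1 := ⟨_, rfl⟩
  have hx1 : 1 ≤ x := by
    rw [hx]
    have : (0 : ℝ) ≤ n := Nat.cast_nonneg n
    linarith
  have hx0 : 0 < x := by linarith
  have hNx : ((n ^ c : ℕ) : ℝ) ≤ x ^ c := by
    push_cast
    exact pow_le_pow_left₀ (Nat.cast_nonneg n) (by rw [hx]; linarith) c
  have hN0 : (0 : ℝ) ≤ ((n ^ c : ℕ) : ℝ) := Nat.cast_nonneg _
  rw [← hx] at hnM ⊢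
  have hix : 0 < 1 / x := by positivity
  have hinv : 1 / x * M ≤ 1 := by
    rw [one_div, inv_mul_le_iff₀ hx0, mul_one]
    exact hnM
  have a1 : 1 / x ≤ 1 / 4 := by
    have : 1 / x * 4 ≤ 1 := (mul_le_mul_of_nonneg_left (by linarith) hix.le).trans hinv
    linarith
  have a2 : 1 / x ≤ ε' / 16 := by
    have : 1 / x * (16 / ε') ≤ 1 := (mul_le_mul_of_nonneg_left (by linarith) hix.le).trans hinv
    rw [← mul_div_assoc, div_le_one hε'] at this
    linarith
  have a4 : 4 * K' * (1 / x) ≤ ε' := by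
    have : 1 / x * (4 * K' / ε') ≤ 1 := (mul_le_mul_of_nonneg_left (by linarith) hix.le).trans hinv
    rw [← mul_div_assoc, div_le_one hε'] at this
    linarith
  have key : 1 / x ^ (c + c * K' + 1) * ((n ^ c : ℕ) : ℝ) ≤ 1 / x * (1 / x ^ (c * K')) := by
    calc 1 / x ^ (c + c * K' + 1) * ((n ^ c : ℕ) : ℝ)
        ≤ 1 / x ^ (c + c * K' + 1) * x ^ c := mul_le_mul_of_nonneg_left hNx (by positivity)
      _ = 1 / x * (1 / x ^ (c * K')) := by
          rw [pow_add, pow_add, pow_one]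
          field_simp
  have hle1 : 1 / x ^ (c * K') ≤ 1 := by
    rw [div_le_one (by positivity)]
    exact one_le_pow₀ hx1
  have key1 : 1 / x ^ (c + c * K' + 1) * ((n ^ c : ℕ) : ℝ) ≤ 1 / x :=
    key.trans (mul_le_of_le_one_right hix.le hle1)
  refine ⟨Nat.one_le_pow _ _ hn1, key1.trans a1, key1.trans a2, ?_⟩
  have hbd : (K' : ℝ) * ((n ^ c : ℕ) : ℝ) ^ K' ≤ K' * x ^ (c * K') := by
    refine mul_le_mul_of_nonneg_left ?_ (Nat.cast_nonneg _)
    rw [pow_mul]
    exact pow_le_pow_left₀ hN0 hNx _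
  have hbd0 : 0 ≤ (K' : ℝ) * ((n ^ c : ℕ) : ℝ) ^ K' := by positivity
  calc 4 * (1 / x ^ (c + c * K' + 1)) * ((n ^ c : ℕ) : ℝ) * (K' * ((n ^ c : ℕ) : ℝ) ^ K')
      = 4 * (1 / x ^ (c + c * K' + 1) * ((n ^ c : ℕ) : ℝ)) * (K' * ((n ^ c : ℕ) : ℝ) ^ K') := by
        ring
    _ ≤ 4 * (1 / x * (1 / x ^ (c * K'))) * (K' * x ^ (c * K')) :=
        mul_le_mul (mul_le_mul_of_nonneg_left key (by norm_num)) hbd hbd0 (by positivity)
    _ = 4 * K' * (1 / x) := by field_simp
    _ ≤ ε' := a4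

theorem ostree (c r B k D : ℕ) {ε : ℝ} (hε : 0 < ε) : ∃ K : ℕ, ∃ ε₂ : ℝ, 0 < ε₂ ∧ ∃ b n₀ : ℕ,
    ∀ n ≥ n₀, ∀ {Ω : Type} [Fintype Ω] [Nonempty Ω] (X : Ω → Fin n → Bool),
    OFools (n ^ c) b r ε₂ (1 / ((n : ℝ) + 1) ^ K) X → ∀ {q : ℕ} {I : Fin q → Finset (Fin n)},
    Over r I → (∀ j, 2 ^ (I j).card ≤ n ^ c) → ∀ {T : (Fin n → Bool) → Bool},
    STree (n ^ c) B k I D T → ∀ (E : Finset (Fin n)) (v : Fin n → Bool), 2 ^ E.card ≤ n ^ c →
      |(avg fun ω => one (Rf.pat E v (X ω)) * one (T (X ω) = true)) -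
        avg fun x => one (Rf.pat E v x) * one (T x = true)| ≤
        (1 / 2) ^ E.card * ε + 1 / ((n : ℝ) + 1) ^ (c + 1) := by
  obtain ⟨s, K', ε', hε', H⟩ := fo_stree r (le_max_right B 2) D k (ε / 2) (by positivity)
  obtain ⟨K, n₀, hKc, hnum⟩ := os_num' c K' hε'
  obtain ⟨η, hη⟩ : ∃ η : ℝ, η = min (ε' / 16) (min (1 / 4) (ε / 2)) := ⟨_, rfl⟩
  have hη0 : 0 < η := by
    rw [hη]
    exact lt_min (by positivity) (lt_min (by norm_num) (by positivity))
  have hη1 : η ≤ ε' / 16 := by rw [hη]; exact min_le_left _ _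
  have hη2 : η ≤ 1 / 4 := by rw [hη]; exact (min_le_right _ _).trans (min_le_left _ _)
  have hη3 : η ≤ ε / 2 := by rw [hη]; exact (min_le_right _ _).trans (min_le_right _ _)
  refine ⟨K, η, hη0, 1 + s, n₀, fun n hn => ?_⟩
  obtain ⟨hN1, hq, h16, hbd⟩ := hnum n hn
  intro Ω _ _ X hX q I hI hb T hT E v hE
  have hτK : 1 / ((n : ℝ) + 1) ^ K ≤ 1 / ((n : ℝ) + 1) ^ (c + 1) := by
    have hx1 : (1 : ℝ) ≤ (n : ℝ) + 1 := by
      have : (0 : ℝ) ≤ n := Nat.cast_nonneg n
      linarith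
    exact one_div_le_one_div_of_le (by positivity) (pow_le_pow_right₀ hx1 hKc)
  obtain ⟨τ, hτ⟩ : ∃ τ : ℝ, τ = 1 / ((n : ℝ) + 1) ^ K := ⟨_, rfl⟩
  rw [← hτ] at hX hq h16 hbd hτK
  have hτ0 : 0 ≤ τ := by
    rw [hτ]
    positivity
  obtain ⟨Ω', i1, i2, X', hX', hc⟩ := ocond (N := n ^ c) (b := 1) (b' := s) hN1 hη0.le hη2 hτ0
    (by rw [pow_one]; exact hq) hX (D := E) (by rw [pow_one]; exact hE) v
  rw [pow_one] at hX'
  have h3 := H n (n ^ c) hN1 _ (by positivity) hbd X'
    (os_fmono hN1 le_rfl (by linarith) le_rfl hX') q I hI hb _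
    (os_tst E v D T (os_tmono (le_max_left B 2) D T hT))
  have hF : ∀ x y : Fin n → Bool, (∀ i ∈ Eᶜ, x i = y i) →
      one (T (Rf.st E v x) = true) = one (T (Rf.st E v y) = true) :=
    os_st_on E v fun x => one (T x = true)
  have h4 := hc (fun x => one (T (Rf.st E v x) = true)) hF (fun x => ⟨one_nonneg _, one_le _⟩)
  have e1 : ∀ x, one (Rf.pat E v x) * one (T x = true) =
      one (Rf.pat E v x) * one (T (Rf.st E v x) = true) := by
    intro x
    by_cases h : Rf.pat E v x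
    · rw [os_st h]
    · rw [one_false h, zero_mul, zero_mul]
  simp only [e1]
  rw [os_pat E v hF]
  refine h4.trans ?_
  have h5 : (0 : ℝ) ≤ (1 / 2) ^ E.card := by positivity
  have h6 := mul_le_mul_of_nonneg_left (add_le_add h3 hη3) h5
  rw [add_halves] at h6
  linarith

end Pool.Agent.MP_ca1109_lc.Ovr
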