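import Pool.Agent.MP_ca1109_lc.Ovr.OD
import Pool.Agent.MP_ca1109_lc.Ovr.OS
import Pool.Agent.MP_ca1109_lc.Rf.DT
import Pool.Agent.MP_ca1109_lc.Agp.G3

/-!
# Row OF: the theorem
-/

namespace Pool.Agent.MP_ca1109_lc.Ovr

open Finset Pool.Agent.H66 Pool.Agent.MP_ca1109_lc.Mpg Pool.Agent.MP_ca1109_lc.Agp
  Pool.Agent.MP_ca1109_lc.Xp Pool.Agent.MP_ca1109_lc.Ov
open Pool.Agent.MP_ca1109_lc.Dnf (one)

variable {n : ℕ}

theorem of_ind (b : Bool) : ind b = one (b = true) := by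
  cases b
  · rw [Dnf.one_false (by simp)]
    rfl
  · rw [Dnf.one_true rfl]
    rfl

theorem of_avg_fin (M : ℕ) (F : ℕ → ℝ) : avg (fun a : Fin M => F a) = nr M F := by
  unfold avg nr
  rw [Fintype.card_fin, Fin.sum_univ_eq_sum_range F M]

/-- Larger classes for small `n` do not matter. -/
theorem of_eventually {𝒯 𝒯' : ∀ n : ℕ, ((Fin n → Bool) → Bool) → Prop} {ε : ℝ}
    (h : LogGen 𝒯 ε) (n₀ : ℕ) (h' : ∀ n ≥ n₀, ∀ T, 𝒯' n T → 𝒯 n T) : LogGen 𝒯' ε := by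
  obtain ⟨D, G, hD, hG, hl, c, hc⟩ := h
  refine ⟨D, G, hD, hG, hl, c, ?_⟩
  filter_upwards [hc, Filter.eventually_ge_atTop n₀] with n hn hn'
  exact ⟨hn.1, hn.2.1, fun T hT => hn.2.2 T (h' n hn' T hT)⟩

/-- The numbers. -/
theorem of_num (c : ℕ) {ε : ℝ} (hε : 0 < ε) : ∃ n₀ : ℕ, ∀ n ≥ n₀,
    ((n ^ c : ℕ) : ℝ) * (1 / ((n : ℝ) + 1) ^ (c + 1)) ≤ ε := by
  refine ⟨⌈1 / ε⌉₊, fun n hn => ?_⟩
  have h1 : 1 / ε ≤ (n : ℝ) + 1 := (Nat.ceil_le.1 hn).trans (by linarith)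
  obtain ⟨x, hx⟩ : ∃ x : ℝ, x = (n : ℝ) + 1 := ⟨_, rfl⟩
  rw [← hx] at h1 ⊢
  have hx0 : 0 < x := by rw [hx]; positivity
  have hN : ((n ^ c : ℕ) : ℝ) ≤ x ^ c := by
    push_cast
    exact pow_le_pow_left₀ (Nat.cast_nonneg n) (by rw [hx]; linarith) c
  calc ((n ^ c : ℕ) : ℝ) * (1 / x ^ (c + 1)) ≤ x ^ c * (1 / x ^ (c + 1)) :=
        mul_le_mul_of_nonneg_right hN (by positivity)
    _ = 1 / x := by
        rw [pow_succ]
        field_simp
    _ ≤ ε := by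
        rw [div_le_iff₀ hx0]
        rw [div_le_iff₀ hε] at h1
        linarith

/-- One string. -/
theorem final_ng (c r B k D : ℕ) {ε : ℝ} (hε : 0 < ε) : ∃ E G, NG E G ∧ ∃ n₀ : ℕ, ∀ n ≥ n₀,
    ∀ T : (Fin n → Bool) → Bool, OVTest c r B k D n T →
      |nr (2 ^ E n) (fun p => ind (T (out G n p))) - prob T| ≤ ε := by
  obtain ⟨K, ε', hε', b, n₁, hst⟩ := ostree c r B k D (ε := ε / 2) (by positivity)
  obtain ⟨E, G, hNG, n₀, hG⟩ := omain c b r K hε'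
  obtain ⟨n₂, hnum⟩ := of_num c (ε := ε / 2) (by positivity)
  refine ⟨E, G, hNG, max n₀ (max n₁ n₂), fun n hn T hT => ?_⟩
  obtain ⟨d, hd, hT⟩ := hT
  have hn0 : n₀ ≤ n := (le_max_left _ _).trans hn
  have hn1 : n₁ ≤ n := ((le_max_left _ _).trans (le_max_right _ _)).trans hn
  have hn2 : n₂ ≤ n := ((le_max_right _ _).trans (le_max_right _ _)).trans hn
  have hne : Nonempty (Fin (2 ^ E n)) := ⟨⟨0, by positivity⟩⟩
  have hτ := hnum n hn2
  obtain ⟨τ', hτ'⟩ : ∃ τ' : ℝ, τ' = 1 / ((n : ℝ) + 1) ^ (c + 1) := ⟨_, rfl⟩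
  rw [← hτ'] at hτ
  have hτ'0 : 0 ≤ τ' := by rw [hτ']; positivity
  have H : ∀ T : (Fin n → Bool) → Bool,
      (∃ (q : ℕ) (I : Fin q → Finset (Fin n)), (∀ j, 2 ^ (I j).card ≤ n ^ c) ∧ Over r I ∧
        STree (n ^ c) B k I D T) → ∀ (S : Finset (Fin n)) (v : Fin n → Bool),
      S.card ≤ d → |(avg fun ω : Fin (2 ^ E n) => one (Rf.pat S v (out G n ω)) *
        one (T (out G n ω) = true)) - avg fun x => one (Rf.pat S v x) * one (T x = true)| ≤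
        (1 / 2) ^ S.card * (ε / 2) + τ' := by
    rintro T ⟨q, I, hI, hr, hT⟩ S v hS
    rw [hτ']
    exact hst n hn1 (fun ω : Fin (2 ^ E n) => out G n ω) (hG n hn0) hr hI hT S v
      ((Nat.pow_le_pow_right (by norm_num) hS).trans hd)
  have key : |(avg fun ω : Fin (2 ^ E n) => one (T (out G n ω) = true)) -
      avg fun x => one (T x = true)| ≤ ε / 2 + 2 ^ d * τ' := by
    first
      | exact Rf.dtree (by positivity) hτ'0 (fun ω : Fin (2 ^ E n) => out G n ω) H hT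
      | exact Rf.dtree (N := 1) (b := 0) (by positivity) hτ'0
          (fun ω : Fin (2 ^ E n) => out G n ω) H hT
  have e1 : nr (2 ^ E n) (fun p => ind (T (out G n p))) =
      avg fun ω : Fin (2 ^ E n) => one (T (out G n ω) = true) := by
    rw [← of_avg_fin]
    congr 1
    funext p
    exact of_ind _
  have e2 : prob T = avg fun x : Fin n → Bool => one (T x = true) := by
    rw [prob_eq_avg]
    congr 1
    funext x
    exact of_ind _
  rw [e1, e2]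
  refine key.trans ?_
  have h1 : (2 : ℝ) ^ d * τ' ≤ ε / 2 := by
    refine le_trans ?_ hτ
    refine mul_le_mul_of_nonneg_right ?_ hτ'0
    exact_mod_cast hd
  linarith

/-- The theorem. -/
theorem final (c r B k D : ℕ) {ε : ℝ} (hε : 0 < ε) : LogGen (OVTest c r B k D) ε := by
  obtain ⟨E, G, hNG, n₀, h⟩ := final_ng c r B k D hε
  exact of_eventually (𝒯 := fun n T => n₀ ≤ n ∧ OVTest c r B k D n T)
    (logGen_of hNG fun n T hT => h n hT.1 T hT.2) n₀ fun n hn T hT => ⟨hn, hT⟩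

end Pool.Agent.MP_ca1109_lc.Ovr
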