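import Pool.Agent.MP_ca1109_lc.Ovr.Test

/-!
# Programs over overlapping blocks have search trees with one search
-/

namespace Pool.Agent.MP_ca1109_lc.Ovr

open Finset Pool.Agent.MP_ca1109_lc.Ov

/-- The action of a product of commuting maps. -/
theorem op_fold {Q ι M : Type} [CommMonoid M] (act : M → Q → Q) (h0 : ∀ s, act 1 s = s)
    (hmul : ∀ a b s, act (a * b) s = act a (act b s)) (F : ι → Q → Q) (a : ι → M)
    (l : List ι) (hF : ∀ i ∈ l, F i = act (a i)) (s : Q) :
    l.foldl (fun s i => F i s) s = act (l.map a).prod s := by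
  induction l generalizing s with
  | nil => rw [List.foldl_nil, List.map_nil, List.prod_nil, h0]
  | cons i l ih =>
    rw [List.foldl_cons, ih (fun k hk => hF k (List.mem_cons_of_mem _ hk)),
      hF i List.mem_cons_self, List.map_cons, List.prod_cons, mul_comm, hmul]

/-- A constant map, followed by commuting maps. -/
theorem op_last {Q M : Type} [CommMonoid M] (act : M → Q → Q) (h0 : ∀ s, act 1 s = s)
    (hmul : ∀ a b s, act (a * b) s = act a (act b s)) {q : ℕ} (F : Fin q → Q → Q)
    (a : Fin q → M) (k : Fin q) (c : Q) (hk : ∀ s, F k s = c)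
    (l : List (Fin q)) (hl : l.Pairwise (· < ·)) (hkl : k ∈ l) (h1 : ∀ i ≤ k, a i = 1)
    (h2 : ∀ i, k < i → F i = act (a i)) (s : Q) :
    l.foldl (fun s i => F i s) s = act (l.map a).prod c := by
  induction l generalizing s with
  | nil => simp at hkl
  | cons i l ih =>
    rw [List.pairwise_cons] at hl
    rw [List.foldl_cons, List.map_cons, List.prod_cons]
    by_cases hik : i = k
    · subst hik
      rw [hk, h1 i le_rfl, one_mul]
      exact op_fold act h0 hmul F a l (fun j hj => h2 j (hl.1 j hj)) c
    · have hkl' : k ∈ l := by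
        rcases List.mem_cons.1 hkl with h | h
        · exact absurd h.symm hik
        · exact h
      rw [h1 i (hl.1 k hkl').le, one_mul]
      exact ih hl.2 hkl' (F i s)

open Classical in
/-- The statement for an action of a commutative monoid. -/
theorem op_main {n q B : ℕ} {I : Fin q → Finset (Fin n)} {Q M : Type} [CommMonoid M] [Fintype M]
    (act : M → Q → Q) (h0 : ∀ s, act 1 s = s) (hmul : ∀ a b s, act (a * b) s = act a (act b s))
    (hcard : Fintype.card M ≤ B) (π : Equiv.Perm (Fin q)) (τ : Fin q → (Fin n → Bool) → Q → Q)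
    (hτ : OnBlocks I τ) (m : Fin q → (Fin n → Bool) → M) (hm : OnBlocks I m)
    (hmc : ∀ j x, ¬ Rf.Const (τ j x) → τ j x = act (m j x)) (s : Q) (A : Set Q)
    {T : (Fin n → Bool) → Bool} (hT : ∀ x, T x = true ↔ run π τ s x ∈ A) :
    STree 1 B 1 I 1 T := by
  have hleaf : ∀ (P : Fin q → Prop) [DecidablePred P] (t : Q), STree 1 B 1 I 0
      (fun x => decide (act (∏ j, if P j then m j x else 1) t ∈ A)) := by
    intro P _ t
    refine ⟨fun _ x => decide (act (∏ j, if P j then m j x else 1) t ∈ A), fun v => v 0,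
      fun _ => Or.inl (Or.inr ?_), fun x => rfl⟩
    refine ⟨M, inferInstance, inferInstance, fun j x => if P j then m j x else 1,
      {f | act f t ∈ A}, hcard, ?_, fun x => ?_⟩
    · intro j x y hxy
      simp only [hm j x y hxy]
    · rw [decide_eq_true_eq]
      rfl
  have h1 : ∀ x, (∀ j, ¬ Rf.Const (τ j x)) →
      run π τ s x = act (∏ j', if True then m j' x else 1) s := by
    intro x h
    unfold run
    rw [op_fold act h0 hmul (fun i => τ (π i) x) (fun i => m (π i) x) _
      (fun i _ => hmc _ _ (h _)), ← Fin.prod_univ_def, Equiv.prod_comp π (fun j => m j x)]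
    simp only [if_true]
  have h2 : ∀ x k, Rf.Const (τ (π k) x) → (∀ k', k < k' → ¬ Rf.Const (τ (π k') x)) →
      run π τ s x = act (∏ j', if k < π.symm j' then m j' x else 1) (τ (π k) x s) := by
    intro x k hk hk'
    obtain ⟨c, hcc⟩ := hk
    unfold run
    rw [hcc s, op_last act h0 hmul (fun i => τ (π i) x) (fun i => if k < i then m (π i) x else 1)
      k c hcc _ (List.pairwise_lt_finRange q) (List.mem_finRange _)
      (fun i hi => if_neg (not_lt.2 hi)) ?_, ← Fin.prod_univ_def]
    · rw [← Equiv.prod_comp π (fun j' => if k < π.symm j' then m j' x else 1)]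
      simp only [Equiv.symm_apply_apply]
    · intro i hi
      simp only [if_pos hi]
      exact hmc _ _ (hk' i hi)
  refine ⟨0, by norm_num, Rf.DTree.leaf ⟨Fin.revPerm.trans π, fun j x => decide (Rf.Const (τ j x)),
    fun j w x => decide (act (∏ j', if π.symm j < π.symm j' then m j' x else 1) (τ j w s) ∈ A),
    fun x => decide (act (∏ j', if True then m j' x else 1) s ∈ A), ?_, ?_, hleaf _ _,
    fun j w => hleaf (fun j' => π.symm j < π.symm j') (τ j w s), fun x => ⟨?_, ?_⟩⟩⟩
  · intro j x y hxy
    simp only [hτ j x y hxy]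
  · intro j x y hxy
    simp only [hτ j x y hxy]
  · intro h
    rw [Bool.eq_iff_iff, hT, h1 x (fun j => by simpa using h j), decide_eq_true_eq]
  · intro i hi hlt
    have hi' : Rf.Const (τ (π (Fin.rev i)) x) := by simpa using hi
    have hlt' : ∀ k, Fin.rev i < k → ¬ Rf.Const (τ (π k) x) := by
      intro k hk
      have h3 : Fin.rev k < i := by
        have := Fin.rev_lt_rev.2 hk
        rwa [Fin.rev_rev] at this
      have h4 := hlt (Fin.rev k) h3
      simpa using h4
    have h5 : (Fin.revPerm.trans π) i = π (Fin.rev i) := rfl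
    rw [Bool.eq_iff_iff, hT, h2 x _ hi' hlt', h5, decide_eq_true_eq]
    simp only [Equiv.symm_apply_apply]

/-! ## OP: programs over overlapping blocks have search trees with one search -/

theorem program_tree {n q : ℕ} {I : Fin q → Finset (Fin n)} {Q : Type} [Fintype Q]
    (π : Equiv.Perm (Fin q)) (τ : Fin q → (Fin n → Bool) → Q → Q) (hτ : OnBlocks I τ)
    (hc : ∀ j x j' x', Rf.Const (τ j x) ∨ Rf.Const (τ j' x') ∨
      ∀ s, τ j x (τ j' x' s) = τ j' x' (τ j x s)) (s : Q) (A : Set Q)
    {T : (Fin n → Bool) → Bool} (hT : ∀ x, T x = true ↔ run π τ s x ∈ A) :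
    STree 1 (Fintype.card Q ^ Fintype.card Q + 1) 1 I 1 T := by
  classical
  let S : Set (Function.End Q) := {f | ∃ j x, ¬ Rf.Const (τ j x) ∧ f = (τ j x : Q → Q)}
  have hS : ∀ f ∈ S, ∀ g ∈ S, f * g = g * f := by
    rintro f ⟨j, x, h, rfl⟩ g ⟨j', x', h', rfl⟩
    funext t
    rcases hc j x j' x' with h0 | h0 | h0
    · exact absurd h0 h
    · exact absurd h0 h'
    · exact h0 t
  have hcomm := Submonoid.isMulCommutative_closure (Function.End Q) hS
  let cm : CommMonoid (Submonoid.closure S) :=
    { (inferInstance : Monoid (Submonoid.closure S)) with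
      mul_comm := hcomm.is_comm.comm }
  have hfin : Finite (Function.End Q) := inferInstanceAs (Finite (Q → Q))
  let fm : Fintype (Submonoid.closure S) := Fintype.ofFinite _
  let m : Fin q → (Fin n → Bool) → Submonoid.closure S := fun j x =>
    if h : Rf.Const (τ j x) then 1 else ⟨τ j x, Submonoid.subset_closure ⟨j, x, h, rfl⟩⟩
  have hm : OnBlocks I m := by
    intro j x y hxy
    have h := hτ j x y hxy
    simp only [m]
    by_cases hx : Rf.Const (τ j x)
    · have hy : Rf.Const (τ j y) := h ▸ hx
      rw [dif_pos hx, dif_pos hy]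
    · have hy : ¬ Rf.Const (τ j y) := h ▸ hx
      rw [dif_neg hx, dif_neg hy]
      exact Subtype.ext h
  have hcard : Fintype.card (Submonoid.closure S) ≤ Fintype.card Q ^ Fintype.card Q + 1 := by
    have h1 : Fintype.card (Submonoid.closure S) ≤ Fintype.card (Q → Q) :=
      Fintype.card_le_of_injective (fun f => ((f : Function.End Q) : Q → Q))
        fun f g h => Subtype.ext h
    rw [Fintype.card_fun] at h1
    omega
  exact op_main (M := Submonoid.closure S) (fun f => ((f : Function.End Q) : Q → Q))
    (fun _ => rfl) (fun _ _ _ => rfl) hcard π τ hτ m hm (fun j x h => by simp only [m, dif_neg h])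
    s A hT

end Pool.Agent.MP_ca1109_lc.Ovr
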