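import Pool.Agent.MP_ca1109_lc.Ov.CE
import Pool.Agent.MP_ca1109_lc.Ov.BI
import Pool.Agent.MP_ca1109_lc.Ov.GA
import Pool.Agent.MP_ca1109_lc.Rf.RE

/-!
# Row R1: conditional fooling in the case of noise `1 / 4`
-/

namespace Pool.Agent.MP_ca1109_lc.Ovr

open Finset Pool.Agent.H66 Pool.Agent.MP_ca1109_lc.Mpg Pool.Agent.MP_ca1109_lc.Agp
  Pool.Agent.MP_ca1109_lc.Xp Pool.Agent.MP_ca1109_lc.Rf Pool.Agent.MP_ca1109_lc.Ov
open Pool.Agent.MP_ca1109_lc.Dnf (Cube ch one On)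

variable {n : ℕ}

/-- The blocks and the cells are outside `B`. -/
theorem r1_bc {J : Type} [Fintype J] {I : J → Finset (Fin n)} {B : Finset (Fin n)}
    (hB : ∀ j, Disjoint (I j) B) (i : J ⊕ Fin n) : Disjoint (bc I i) B := by
  classical
  cases i with
  | inl j => exact hB j
  | inr i =>
    show Disjoint (cell I i) B
    rw [Finset.disjoint_left]
    intro i' hi'
    unfold cell at hi'
    rw [mem_filter] at hi'
    obtain ⟨l, hl⟩ := hi'.2.2
    exact Finset.disjoint_left.1 (hB l) ((hi'.2.1 l).1 hl)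

/-- Simple functions of sets outside `B`. -/
theorem r1_on {A ι : Type} {S : ι → Finset (Fin n)} {K : ℕ} {L : ℝ} {t : (Fin n → A) → ℂ}
    {B : Finset (Fin n)} (hS : ∀ i, Disjoint (S i) B) (h : Smp S K L t) : Dep Bᶜ t := by
  classical
  obtain ⟨q, u, a, b, hu, -, ht⟩ := h
  intro x y hxy
  rw [ht, ht]
  refine sum_congr rfl fun i _ => (hu i).2.1 x y fun k hk => hxy k ?_
  rw [mem_compl]
  obtain ⟨c, _, hc⟩ := mem_biUnion.1 hk
  exact Finset.disjoint_left.1 (hS c) hc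

theorem r1_sub {A : Type*} [Fintype A] (F G : A → ℂ) :
    av (fun a => F a - G a) = av F - av G := by
  unfold av
  rw [Finset.sum_sub_distrib, sub_div]

/-- Approximations, conditionally. -/
theorem r1_apx {B : Finset (Fin n)} {v : Cube n} {M δ : ℝ} {F t : Cube n → ℂ} {R : Cube n → ℝ}
    (hF : ∀ x, ‖F x - t x‖ ≤ R x) (ht : Sp M t) (hR : Sp M fun x => ((R x : ℝ) : ℂ))
    (hB : Dep Bᶜ t) (hRB : Dep Bᶜ R) {Ω : Type} [Fintype Ω] [Nonempty Ω] {Y : Ω → Cube n}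
    (hδ : 0 ≤ δ) (hY : Bias δ Y) :
    ‖av (fun ω => pc B v (Y ω) * F (Y ω)) - (1 / 2) ^ B.card * av F‖ ≤
      (1 / 2) ^ B.card * (2 * avg R) + δ * (2 * M) := by
  have h1 := Rf.rel (v := v) ht hB hδ hY
  have h2 := re_real (v := v) hR hRB hδ hY
  have h3 : ‖av (fun ω => pc B v (Y ω) * F (Y ω)) - av (fun ω => pc B v (Y ω) * t (Y ω))‖ ≤
      avg fun ω => one (pat B v (Y ω)) * R (Y ω) := by
    rw [← r1_sub]
    refine (norm_av_le _).trans (avg_mono fun ω => ?_)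
    rw [← mul_sub, norm_mul]
    have h5 : ‖pc B v (Y ω)‖ = one (pat B v (Y ω)) := by
      unfold Rf.pc
      rw [Complex.norm_real, Real.norm_eq_abs, abs_of_nonneg (Dnf.one_nonneg _)]
    rw [h5]
    exact mul_le_mul_of_nonneg_left (hF _) (Dnf.one_nonneg _)
  have h4 : ‖av F - av t‖ ≤ avg R := by
    rw [← r1_sub]
    exact (norm_av_le _).trans (avg_mono fun x => hF x)
  have hp : (0 : ℝ) ≤ (1 / 2) ^ B.card := by positivity
  have h6 : ‖((1 / 2 : ℂ)) ^ B.card * (av F - av t)‖ ≤ (1 / 2) ^ B.card * avg R := by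
    rw [norm_mul, norm_pow, norm_div, norm_one, Complex.norm_ofNat]
    exact mul_le_mul_of_nonneg_left h4 hp
  set a := av (fun ω => pc B v (Y ω) * F (Y ω))
  set b := av F
  set c := av (fun ω => pc B v (Y ω) * t (Y ω))
  set d := av t
  have e7 : ‖a - (1 / 2) ^ B.card * b‖ ≤ ‖a - c‖ + ‖c - (1 / 2) ^ B.card * d‖ +
      ‖((1 / 2 : ℂ)) ^ B.card * (b - d)‖ := by
    have : a - (1 / 2) ^ B.card * b = (a - c) + (c - (1 / 2) ^ B.card * d) -
        (1 / 2) ^ B.card * (b - d) := by ring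
    rw [this]
    exact (norm_sub_le _ _).trans (add_le_add (norm_add_le _ _) le_rfl)
  linarith

theorem rov_case1 (r : ℕ) {ε e : ℝ} (hε : 0 < ε) (he : 0 < e) : ∃ K : ℕ, ∀ {n N : ℕ} {J : Type}
    [Fintype J] [DecidableEq J] {I : J → Finset (Fin n)} {f : J → (Fin n → Bool) → ℂ},
    Blo r I → (∀ j, 2 ^ (I j).card ≤ N) → 1 ≤ N → (∀ j, Dep (I j) (f j)) →
    (∀ j x, ‖f j x‖ = 1) → ε ≤ Sf (fun x => ∏ j, f j x) (1 / 4) →
    ∀ (B : Finset (Fin n)), (∀ j, Disjoint (I j) B) → ∀ (v : Fin n → Bool)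
    {Ω : Type} [Fintype Ω] [Nonempty Ω] (Y : Ω → Fin n → Bool) (δ : ℝ), 0 ≤ δ → Bias δ Y →
      ‖(av fun ω => Rf.pc B v (Y ω) * ∏ j, f j (Y ω)) -
        (1 / 2) ^ B.card * av fun x => ∏ j, f j x‖ ≤
        (1 / 2) ^ B.card * e + δ * Pt.bd K n N := by
  obtain ⟨K, hK⟩ := st_noise r hε (half_pos he)
  refine ⟨2 * K + K * 1, ?_⟩
  intro n N J _ _ I f hI hN hN1 hd hf hS B hB v Ω _ _ Y δ hδ hY
  obtain ⟨t, R, h1, h2, h3, h4⟩ := hK hI hd hf hS
  have hb := ga_bc hN hN1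
  have h5 := sp_of_smp hN1 hb h3
  have h6 := sp_of_smp hN1 hb h4
  have h7 := ga_bd (K := K) hN1 n 1
  rw [mul_one] at h7
  have h8 : Dep Bᶜ t := r1_on (r1_bc hB) h3
  have h9 : Dep Bᶜ R := by
    intro x y hxy
    have := r1_on (r1_bc hB) h4 x y hxy
    exact_mod_cast this
  have h10 := r1_apx (v := v) h1 h5 h6 h8 h9 hδ hY
  have hp : (0 : ℝ) ≤ (1 / 2) ^ B.card := by positivity
  have h11 : (1 / 2 : ℝ) ^ B.card * (2 * avg R) ≤ (1 / 2) ^ B.card * e :=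
    mul_le_mul_of_nonneg_left (by linarith) hp
  have h12 := mul_le_mul_of_nonneg_left h7 hδ
  rw [mul_one]
  linarith

end Pool.Agent.MP_ca1109_lc.Ovr
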