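import Pool.Agent.MP_ca1109_lc.Ovr.OB
import Pool.Agent.MP_ca1109_lc.Ovr.R1
import Pool.Agent.MP_ca1109_lc.Ov.SS
import Pool.Agent.MP_ca1109_lc.Ov.FB

/-!
# Row R2: conditional fooling, the shift of density `2 ^ -(l + 1)`
-/

namespace Pool.Agent.MP_ca1109_lc.Ovr

open Finset Pool.Agent.H66 Pool.Agent.MP_ca1109_lc.Mpg Pool.Agent.MP_ca1109_lc.Agp
  Pool.Agent.MP_ca1109_lc.Xp Pool.Agent.MP_ca1109_lc.Ov
open Pool.Agent.MP_ca1109_lc.Dnf (one)

/-! ## Averages -/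

private theorem r2_norm_av {A : Type*} [Fintype A] {F : A → ℂ} {G : A → ℝ}
    (h : ∀ a, ‖F a‖ ≤ G a) : ‖av F‖ ≤ avg G := by
  unfold av avg
  rw [norm_div, Complex.norm_natCast]
  exact div_le_div_of_nonneg_right ((norm_sum_le _ _).trans (Finset.sum_le_sum fun a _ => h a))
    (Nat.cast_nonneg _)

private theorem r2_av_sub {A : Type*} [Fintype A] (F G : A → ℂ) :
    av (fun a => F a - G a) = av F - av G := by
  unfold av
  rw [Finset.sum_sub_distrib, sub_div]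

private theorem r2_avg_re {A : Type*} [Fintype A] (F : A → ℂ) :
    (avg fun a => (F a).re) = (av F).re := by
  unfold av avg
  rw [Complex.div_natCast_re, Complex.re_sum]

private theorem r2_av_ofReal {A : Type*} [Fintype A] (R : A → ℝ) :
    (av fun a => ((R a : ℝ) : ℂ)) = ((avg R : ℝ) : ℂ) := by
  unfold av avg
  push_cast
  rfl

/-! ## The density -/

/-- All bits are `true`. -/
private def rom (l : ℕ) (v : Fin (l + 1) → Bool) : Bool := decide (∀ k, v k = true)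

private theorem rom_dens (l : ℕ) : ((1 : ℝ) / 2) ^ (l + 1) =
    (univ.filter fun v => rom l v = true).card / (Fintype.card (Fin (l + 1) → Bool) : ℝ) := by
  have h2 : (univ.filter fun v : Fin (l + 1) → Bool => rom l v = true) = {fun _ => true} := by
    ext b
    simp [rom, funext_iff]
  rw [h2, Finset.card_singleton, Fintype.card_fun, Fintype.card_bool, Fintype.card_fin]
  push_cast
  rw [one_div, inv_pow, one_div]

private theorem r2_bd (K n N : ℕ) (hN : 1 ≤ N) :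
    2 * (2 * (K * ((n : ℝ) + 1) ^ K) * (N : ℝ) ^ (4 * K)) ≤ Pt.bd (8 * K) n N := by
  have hn : (1 : ℝ) ≤ (n : ℝ) + 1 := by
    have : (0 : ℝ) ≤ n := Nat.cast_nonneg n
    linarith
  have hN' : (1 : ℝ) ≤ (N : ℝ) := by exact_mod_cast hN
  have hK0 : (0 : ℝ) ≤ K := Nat.cast_nonneg K
  have h1 : ((n : ℝ) + 1) ^ K ≤ ((n : ℝ) + 1) ^ (8 * K) := pow_le_pow_right₀ hn (by omega)
  have h2 : (N : ℝ) ^ (4 * K) ≤ (N : ℝ) ^ (8 * K) := pow_le_pow_right₀ hN' (by omega)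
  have h3 : ((n : ℝ) + 1) ^ K * (N : ℝ) ^ (4 * K) ≤ (((n : ℝ) + 1) * N) ^ (8 * K) := by
    rw [mul_pow]
    exact mul_le_mul h1 h2 (by positivity) (by positivity)
  unfold Pt.bd
  calc 2 * (2 * (K * ((n : ℝ) + 1) ^ K) * (N : ℝ) ^ (4 * K))
      = (4 * K) * (((n : ℝ) + 1) ^ K * (N : ℝ) ^ (4 * K)) := by ring
    _ ≤ ((8 * K : ℕ) : ℝ) * (((n : ℝ) + 1) * N) ^ (8 * K) := by
      refine mul_le_mul ?_ h3 (by positivity) (by positivity)
      push_cast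
      linarith

theorem rov_case2 (r : ℕ) {ε e : ℝ} (hε : 0 < ε) (he : 0 < e) : ∃ K : ℕ, ∀ {n N : ℕ} {J : Type}
    [Fintype J] [DecidableEq J] {I : J → Finset (Fin n)} {f : J → (Fin n → Bool) → ℂ},
    Blo r I → (∀ j, 2 ^ (I j).card ≤ N) → 1 ≤ N → (∀ j, Dep (I j) (f j)) →
    (∀ j x, ‖f j x‖ = 1) → ∀ {L T l t : ℕ}, l ≤ L → t ≤ T → ∀ {d : Fin T → Bool},
    (¬ ∀ r : Fin T, (r : ℕ) < t → d r = false) →
    ε ≤ Sf (fun x => ∏ j, f j x) ((1 / 2) ^ (l + 1)) →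
    ∀ (B : Finset (Fin n)), (∀ j, Disjoint (I j) B) → ∀ (v : Fin n → Bool) (u : Fin T → Bool)
      {Ω₁ Ω₂ : Type} [Fintype Ω₁] [Nonempty Ω₁] [Fintype Ω₂] [Nonempty Ω₂]
      (Y : Ω₁ → Fin n → Bool) (Z : Ω₂ → Fin (n * (L + T)) → Bool) (sh : Ω₂ → Fin n → Bool)
      (δ : ℝ), 0 ≤ δ → Bias δ Y → Bias δ Z →
      ‖av fun ω₂ => ((Rf.wB B l t d (Z ω₂) : ℝ) : ℂ) * av fun ω₁ =>
          Rf.pc B v (xo (xo (Y ω₁) (sh ω₂)) (Rf.Wd l t (Z ω₂) u)) *
          Pt.dr (fun x => ∏ j, f j x) (Rf.Wd l t (Z ω₂) d)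
            (xo (xo (Y ω₁) (sh ω₂)) (Rf.Wd l t (Z ω₂) u))‖ ≤
        (1 / 2) ^ B.card * (Sf (fun x => ∏ j, f j x) ((1 / 2) ^ (l + 1)) + e) +
          δ * (2 ^ B.card * Pt.bd K n N) := by
  classical
  obtain ⟨K, hK⟩ := st_mean r (show 0 < ε ^ 2 by positivity) (show 0 < e / 2 by positivity)
  refine ⟨8 * K, ?_⟩
  intro n N J _ _ I f hI hIN hN hf hu L T l t hlL htT d hd hS B hB v u Ω₁ Ω₂ _ _ _ _ Y Z sh δ hδ
    hY hZ
  set F : (Fin n → Bool) → ℂ := fun x => ∏ j, f j x with hF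
  set p : ℝ := (1 / 2) ^ (l + 1) with hp
  let V : Type := Fin (l + 1) → Bool
  let ω : V → Bool := rom l
  have hpω : p = (univ.filter fun v => ω v = true).card / (Fintype.card V : ℝ) := rom_dens l
  have h1 : ∃ v, ω v = true := ⟨fun _ => true, by simp [ω, rom]⟩
  have h0 : ∃ v, ω v = false := by
    refine ⟨fun _ => false, ?_⟩
    have : ¬ ∀ k : Fin (l + 1), (fun _ : Fin (l + 1) => false) k = true := fun h => by
      simpa using h ⟨0, by omega⟩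
    simp only [ω, rom, decide_eq_false_iff_not]
    exact this
  have hp0 : 0 ≤ p := by rw [hp]; positivity
  have hp1 : p ≤ 1 := by
    rw [hp]
    exact pow_le_one₀ (by norm_num) (by norm_num)
  -- the product over the pairs
  let F' : (Fin n → Bool × Bool) → ℂ := fun x => Pt.dr F (fun i => (x i).2) (fun i => (x i).1)
  let g : J → (Fin n → Bool × V) → ℂ := fun j x =>
    Pt.dr (f j) (fun i => ω (x i).2) (fun i => (x i).1)
  have hg : ∀ x, ∏ j, g j x = F' fun i => ((x i).1, ω (x i).2) := by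
    intro x
    simp only [g, F', F, Pt.dr, map_prod, Finset.prod_mul_distrib]
  have hgd : ∀ j, Dep (I j) (g j) := by
    intro j x y hxy
    simp only [g, Pt.dr]
    rw [hf j (fun i => (x i).1) (fun i => (y i).1) fun i hi => by rw [hxy i hi],
      hf j (xo (fun i => (x i).1) fun i => ω (x i).2) (xo (fun i => (y i).1) fun i => ω (y i).2)
        fun i hi => by simp only [xo]; rw [hxy i hi]]
  have hgu : ∀ j x, ‖g j x‖ = 1 := by
    intro j x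
    simp only [g, Pt.dr]
    rw [norm_mul, RCLike.norm_conj, hu, hu, one_mul]
  -- pulled back functions are constant on the fibres
  have hfib : fib ω (fun x : Fin n → Bool × V => ∏ j, g j x) = F' := by
    funext x
    have e1 := fib_close h0 h1 F' (fun x : Fin n → Bool × V => ∏ j, g j x) (fun _ => 0)
      (fun x => by rw [hg x, sub_self, norm_zero]) x
    have e2 : fib ω (fun _ : Fin n → Bool × V => (((0 : ℝ)) : ℂ)) x = 0 := by
      unfold fib av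
      simp
    rw [e2, Complex.zero_re] at e1
    exact (sub_eq_zero.mp (norm_le_zero_iff.mp e1)).symm
  have hav : (av fun x : Fin n → Bool × V => ∏ j, g j x) = ((Sf F p : ℝ) : ℂ) := by
    rw [← fib_avp h0 h1 hpω, hfib]
    exact Sf_avp F hp0 hp1
  have hS0 : 0 < Sf F p := hε.trans_le hS
  have hn1 : ‖av fun x : Fin n → Bool × V => ∏ j, g j x‖ = Sf F p := by
    rw [hav, Complex.norm_real, Real.norm_of_nonneg hS0.le]
  obtain ⟨t', R, htR, hR, ht', hRs⟩ := hK (A := Bool × V) (f := g) hI hgd hgu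
    (by rw [hn1]; exact pow_le_pow_left₀ hε.le hS 2)
  -- the mean of the approximation
  have hmt : ‖av t'‖ ≤ Sf F p + e / 2 := by
    have e1 : ‖(av fun x => ∏ j, g j x) - av t'‖ ≤ e / 2 := by
      rw [← r2_av_sub]
      exact (r2_norm_av htR).trans hR
    have e2 : av t' = (av fun x => ∏ j, g j x) - ((av fun x => ∏ j, g j x) - av t') := by ring
    rw [e2]
    refine (norm_sub_le _ _).trans ?_
    rw [hn1]
    linarith
  -- the fibre averages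
  have hbc := ga_bc (I := I) hIN hN
  have b1 := bias_pair_w hlL htT hd u hN hbc (r1_bc hB) v (fib_smp h0 h1 ht') Y Z sh hδ hY hZ
  have b2 := bias_pair_w hlL htT hd u hN hbc (r1_bc hB) v (fib_smp h0 h1 hRs) Y Z sh hδ hY hZ
  rw [← hp, fib_avp h0 h1 hpω] at b1 b2
  have hcl := fib_close h0 h1 F' t' R (fun x => by rw [← hg x]; exact htR x)
  set X : Ω₂ → Ω₁ → Fin n → Bool := fun ω₂ ω₁ =>
    xo (xo (Y ω₁) (sh ω₂)) (Rf.Wd l t (Z ω₂) u) with hX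
  set X' : Ω₂ → Ω₁ → Fin n → Bool × Bool := fun ω₂ ω₁ i =>
    (X ω₂ ω₁ i, Rf.Wd l t (Z ω₂) d i) with hX'
  set w : Ω₂ → ℝ := fun ω₂ => Rf.wB B l t d (Z ω₂) with hw
  have hw0 : ∀ ω₂, 0 ≤ w ω₂ := by
    intro ω₂
    rw [hw]
    simp only
    rw [Rf.wB_eq]
    exact mul_nonneg (by positivity) (Dnf.one_nonneg _)
  have hpcn : ∀ x, ‖Rf.pc B v x‖ = one (Rf.pat B v x) := by
    intro x
    unfold Rf.pc
    rw [Complex.norm_real, Real.norm_eq_abs, abs_of_nonneg (Dnf.one_nonneg _)]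
  set err : ℝ := δ * (2 * (K * ((n : ℝ) + 1) ^ K) * (2 ^ B.card * (N : ℝ) ^ (4 * K))) with herr
  have c1 : ‖(av fun ω₂ => ((w ω₂ : ℝ) : ℂ) * av fun ω₁ => Rf.pc B v (X ω₂ ω₁) * F' (X' ω₂ ω₁)) -
      av fun ω₂ => ((w ω₂ : ℝ) : ℂ) * av fun ω₁ => Rf.pc B v (X ω₂ ω₁) * fib ω t' (X' ω₂ ω₁)‖ ≤
      (av fun ω₂ => ((w ω₂ : ℝ) : ℂ) * av fun ω₁ =>
        Rf.pc B v (X ω₂ ω₁) * fib ω (fun x => ((R x : ℝ) : ℂ)) (X' ω₂ ω₁)).re := by
    rw [← r2_av_sub, ← r2_avg_re]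
    refine r2_norm_av fun ω₂ => ?_
    rw [← mul_sub, norm_mul, Complex.norm_real, Real.norm_of_nonneg (hw0 ω₂),
      Complex.re_ofReal_mul]
    refine mul_le_mul_of_nonneg_left ?_ (hw0 ω₂)
    rw [← r2_av_sub, ← r2_avg_re]
    refine r2_norm_av fun ω₁ => ?_
    rw [← mul_sub, norm_mul, hpcn]
    have e1 : (Rf.pc B v (X ω₂ ω₁) * fib ω (fun x => ((R x : ℝ) : ℂ)) (X' ω₂ ω₁)).re =
        one (Rf.pat B v (X ω₂ ω₁)) * (fib ω (fun x => ((R x : ℝ) : ℂ)) (X' ω₂ ω₁)).re := by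
      unfold Rf.pc
      rw [Complex.re_ofReal_mul]
    rw [e1]
    exact mul_le_mul_of_nonneg_left (hcl (X' ω₂ ω₁)) (Dnf.one_nonneg _)
  have hq : (0 : ℝ) ≤ (1 / 2) ^ B.card := by positivity
  have hqc : ((1 / 2 : ℂ)) ^ B.card = (((1 / 2 : ℝ) ^ B.card : ℝ) : ℂ) := by
    push_cast
    rfl
  have c2 : (av fun ω₂ => ((w ω₂ : ℝ) : ℂ) * av fun ω₁ =>
        Rf.pc B v (X ω₂ ω₁) * fib ω (fun x => ((R x : ℝ) : ℂ)) (X' ω₂ ω₁)).re ≤
      (1 / 2) ^ B.card * (e / 2) + err := by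
    have e1 := (Complex.abs_re_le_norm _).trans b2
    rw [r2_av_ofReal, hqc, ← Complex.ofReal_mul, Complex.sub_re, Complex.ofReal_re] at e1
    have e2 := (abs_le.mp e1).2
    have e3 : (1 / 2 : ℝ) ^ B.card * avg R ≤ (1 / 2) ^ B.card * (e / 2) :=
      mul_le_mul_of_nonneg_left hR hq
    rw [herr]
    linarith
  have c3 : ‖av fun ω₂ => ((w ω₂ : ℝ) : ℂ) * av fun ω₁ =>
        Rf.pc B v (X ω₂ ω₁) * fib ω t' (X' ω₂ ω₁)‖ ≤
      (1 / 2) ^ B.card * (Sf F p + e / 2) + err := by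
    have e1 : (av fun ω₂ => ((w ω₂ : ℝ) : ℂ) * av fun ω₁ =>
        Rf.pc B v (X ω₂ ω₁) * fib ω t' (X' ω₂ ω₁)) =
        ((av fun ω₂ => ((w ω₂ : ℝ) : ℂ) * av fun ω₁ =>
          Rf.pc B v (X ω₂ ω₁) * fib ω t' (X' ω₂ ω₁)) - (1 / 2) ^ B.card * av t') +
          (1 / 2) ^ B.card * av t' := by ring
    rw [e1]
    refine (norm_add_le _ _).trans ?_
    have e2 : ‖((1 / 2 : ℂ)) ^ B.card * av t'‖ ≤ (1 / 2) ^ B.card * (Sf F p + e / 2) := by
      rw [norm_mul, norm_pow, norm_div, norm_one, Complex.norm_ofNat]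
      exact mul_le_mul_of_nonneg_left hmt hq
    rw [herr]
    linarith
  have c5 : (av fun ω₂ => ((Rf.wB B l t d (Z ω₂) : ℝ) : ℂ) * av fun ω₁ =>
      Rf.pc B v (xo (xo (Y ω₁) (sh ω₂)) (Rf.Wd l t (Z ω₂) u)) *
      Pt.dr F (Rf.Wd l t (Z ω₂) d) (xo (xo (Y ω₁) (sh ω₂)) (Rf.Wd l t (Z ω₂) u))) =
      av fun ω₂ => ((w ω₂ : ℝ) : ℂ) * av fun ω₁ => Rf.pc B v (X ω₂ ω₁) * F' (X' ω₂ ω₁) := rfl
  have c4 : (av fun ω₂ => ((w ω₂ : ℝ) : ℂ) * av fun ω₁ =>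
      Rf.pc B v (X ω₂ ω₁) * F' (X' ω₂ ω₁)) =
      ((av fun ω₂ => ((w ω₂ : ℝ) : ℂ) * av fun ω₁ => Rf.pc B v (X ω₂ ω₁) * F' (X' ω₂ ω₁)) -
      av fun ω₂ => ((w ω₂ : ℝ) : ℂ) * av fun ω₁ => Rf.pc B v (X ω₂ ω₁) * fib ω t' (X' ω₂ ω₁)) +
      av fun ω₂ => ((w ω₂ : ℝ) : ℂ) * av fun ω₁ =>
        Rf.pc B v (X ω₂ ω₁) * fib ω t' (X' ω₂ ω₁) := by ring
  rw [c5, c4]
  refine (norm_add_le _ _).trans ?_
  have c6 : 2 * err ≤ δ * (2 ^ B.card * Pt.bd (8 * K) n N) := by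
    have e1 := r2_bd K n N hN
    have e2 : 2 * err = δ * (2 ^ B.card * (2 * (2 * (K * ((n : ℝ) + 1) ^ K) *
        (N : ℝ) ^ (4 * K)))) := by
      rw [herr]
      ring
    rw [e2]
    exact mul_le_mul_of_nonneg_left (mul_le_mul_of_nonneg_left e1 (by positivity)) hδ
  have c7 : (1 / 2 : ℝ) ^ B.card * (Sf F p + e) = (1 / 2) ^ B.card * (e / 2) +
      (1 / 2) ^ B.card * (Sf F p + e / 2) := by ring
  rw [c7]
  linarith

end Pool.Agent.MP_ca1109_lc.Ovr
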