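import Pool.Agent.MP_ca1109_lc.Ovr.OC
import Pool.Agent.MP_ca1109_lc.Ovr.R1
import Pool.Agent.MP_ca1109_lc.Ovr.R2
import Pool.Agent.MP_ca1109_lc.Ov.SS
import Pool.Agent.MP_ca1109_lc.Ov.GM
import Pool.Agent.MP_ca1109_lc.Rf.RM

/-!
# Row OU: the unimodular main theorem
-/

namespace Pool.Agent.MP_ca1109_lc.Ovr

open Finset Pool.Agent.H66 Pool.Agent.MP_ca1109_lc.Mpg Pool.Agent.MP_ca1109_lc.Agp
  Pool.Agent.MP_ca1109_lc.Xp Pool.Agent.MP_ca1109_lc.Ov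
open Pool.Agent.MP_ca1109_lc.Dnf (one)
open Pool.Agent.MP_ca1109_lc.Rf (pc Wd wB gr r2_pc r2_pc_norm r2_one_nonneg r2_one_le r2_one_pos
  r2_one_neg mw_one ip_zero wB_eq rmP rm_const rm_unif rm_err rm_sq gr_level xgenR)
open Pool.Agent.MP_ca1109_lc.Pt (bd dr bd_add bd_nonneg)

variable {n : ℕ}

theorem ou_wB0 {L T : ℕ} (B : Finset (Fin n)) (l t : ℕ) (d : Fin T → Bool)
    (z : Fin (n * (L + T)) → Bool) : 0 ≤ wB B l t d z := by
  rw [wB_eq B l t d z]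
  exact mul_nonneg (by positivity) (r2_one_nonneg _)

theorem ou_dr {F : (Fin n → Bool) → ℂ} (hF : ∀ x, ‖F x‖ ≤ 1) (w x : Fin n → Bool) :
    ‖dr F w x‖ ≤ 1 := by
  unfold Pt.dr
  rw [norm_mul, RCLike.norm_conj]
  exact mul_le_one₀ (hF _) (norm_nonneg _) (hF _)

/-- The trivial bound of one shift. -/
theorem ou_triv {L T l t : ℕ} (hl : l ≤ L) (ht : t ≤ T) (B : Finset (Fin n)) (v : Fin n → Bool)
    {F : (Fin n → Bool) → ℂ} (hF : ∀ x, ‖F x‖ ≤ 1) {Ω₁ Ω₂ : Type} [Fintype Ω₁] [Nonempty Ω₁]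
    [Fintype Ω₂] [Nonempty Ω₂] (Y : Ω₁ → Fin n → Bool) (Z : Ω₂ → Fin (n * (L + T)) → Bool)
    (sh : Ω₂ → Fin n → Bool) {δ : ℝ} (hδ : 0 ≤ δ) (hY : Bias δ Y) (hZ : Bias δ Z)
    (d : Fin T → Bool) :
    (avg fun u : Fin T → Bool => ‖av fun ω₂ => ((wB B l t d (Z ω₂) : ℝ) : ℂ) * av fun ω₁ =>
      pc B v (xo (xo (Y ω₁) (sh ω₂)) (Wd l t (Z ω₂) u)) *
        dr F (Wd l t (Z ω₂) d) (xo (xo (Y ω₁) (sh ω₂)) (Wd l t (Z ω₂) u))‖) ≤
      ((1 / 2) ^ B.card + δ) * (1 + (1 + (1 / 2) ^ l) ^ B.card + δ * 2 ^ B.card) := by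
  refine Agp.avg_le fun u => (norm_av_le _).trans ?_
  have h1 : ∀ ω₂, ‖((wB B l t d (Z ω₂) : ℝ) : ℂ) * av fun ω₁ =>
      pc B v (xo (xo (Y ω₁) (sh ω₂)) (Wd l t (Z ω₂) u)) *
        dr F (Wd l t (Z ω₂) d) (xo (xo (Y ω₁) (sh ω₂)) (Wd l t (Z ω₂) u))‖ ≤
      ((1 / 2) ^ B.card + δ) * wB B l t d (Z ω₂) := by
    intro ω₂
    rw [norm_mul, Complex.norm_real, Real.norm_eq_abs, abs_of_nonneg (ou_wB0 B l t d _), mul_comm]
    refine mul_le_mul_of_nonneg_right ?_ (ou_wB0 B l t d _)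
    refine (norm_av_le _).trans ((avg_mono fun ω => ?_).trans
      (r2_pc B v hδ ((hY.xo (sh ω₂)).xo (Wd l t (Z ω₂) u))))
    rw [norm_mul]
    exact mul_le_of_le_one_right (norm_nonneg _) (ou_dr hF _ _)
  refine (avg_mono h1).trans ?_
  rw [avg_mul_left]
  refine mul_le_mul_of_nonneg_left ?_ (by positivity)
  refine (mw_one B hl ht d Z δ hδ hZ).trans ?_
  have h2 : (1 + (1 / 2 : ℝ) ^ l) ^ B.card * one (∀ r : Fin T, (r : ℕ) < t → d r = false) ≤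
      (1 + (1 / 2) ^ l) ^ B.card := mul_le_of_le_one_right (by positivity) (r2_one_le _)
  linarith

/-- The numbers of the main case. -/
theorem ou_num {P Q R S ε δ e e₁ b h : ℝ} (hP : 0 ≤ P) (hP1 : P ≤ 1) (hPQ : P * Q = 1)
    (hR : 1 ≤ R) (hδ : 0 ≤ δ) (hδ1 : δ ≤ 1) (hh : 0 ≤ h) (hRh : 2 * (R * h) ≤ ε)
    (hε : ε ≤ 1) (he : e ≤ ε) (he₁ : e₁ ≤ ε)
    (hS : S ≤ h * ((P + δ) * (1 + R + δ * Q)) + (P * (e₁ + e) + δ * (Q * b))) :
    P * S + δ ≤ P ^ 2 * (4 * ε) + δ * (b + 5) := by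
  have h0 : h * (1 + R) ≤ ε := by nlinarith
  have h1 : h ≤ 1 := by nlinarith
  have hε0 : 0 ≤ P ^ 2 * ε := mul_nonneg (sq_nonneg P)
    (le_trans (mul_nonneg (by norm_num) (mul_nonneg (by linarith) hh)) hRh)
  have e1 : P * S ≤ P * (h * ((P + δ) * (1 + R + δ * Q)) + (P * (e₁ + e) + δ * (Q * b))) :=
    mul_le_mul_of_nonneg_left hS hP
  have e2 : P * (h * ((P + δ) * (1 + R + δ * Q)) + (P * (e₁ + e) + δ * (Q * b))) =
      P ^ 2 * (h * (1 + R)) + P * δ * (h * (1 + R)) + (P + δ) * δ * h * (P * Q) +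
        P ^ 2 * (e₁ + e) + δ * ((P * Q) * b) := by ring
  rw [e2, hPQ] at e1
  have f1 : P ^ 2 * (h * (1 + R)) ≤ P ^ 2 * ε := mul_le_mul_of_nonneg_left h0 (sq_nonneg P)
  have f2 : P * δ * (h * (1 + R)) ≤ 1 * δ * 1 :=
    mul_le_mul (mul_le_mul_of_nonneg_right hP1 hδ) (h0.trans hε)
      (mul_nonneg hh (by linarith)) (by linarith)
  have f3 : (P + δ) * δ * h ≤ (1 + 1) * δ * 1 :=
    mul_le_mul (mul_le_mul_of_nonneg_right (by linarith) hδ) h1 hh (by linarith)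
  have f4 : P ^ 2 * (e₁ + e) ≤ P ^ 2 * (2 * ε) :=
    mul_le_mul_of_nonneg_left (by linarith) (sq_nonneg P)
  nlinarith

theorem omain_uni (c b r K : ℕ) {ε : ℝ} (hε : 0 < ε) : ∃ E G, NG E G ∧ ∃ n₀ : ℕ, ∀ n ≥ n₀,
    ∀ {J : Type} [Fintype J] [DecidableEq J] (I : J → Finset (Fin n))
      (f : J → (Fin n → Bool) → ℂ), Blo r I → (∀ j, 2 ^ (I j).card ≤ n ^ c) →
      (∀ j, Dep (I j) (f j)) → (∀ j x, ‖f j x‖ = 1) → ∀ (B : Finset (Fin n)) (v : Fin n → Bool),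
      (∀ j, Disjoint (I j) B) → 2 ^ B.card ≤ (n ^ c) ^ b →
      ‖av (fun ω : Fin (2 ^ E n) => Rf.pc B v (out G n ω) * ∏ j, f j (out G n ω)) -
        (1 / 2) ^ B.card * av (fun x => ∏ j, f j x)‖ ≤
        (1 / 2) ^ B.card * ε + 1 / ((n : ℝ) + 1) ^ K := by
  classical
  obtain ⟨ε₀, hε₀⟩ : ∃ ε₀ : ℝ, ε₀ = min (ε ^ 2 / 16) (1 / 4) := ⟨_, rfl⟩
  have hε₀0 : 0 < ε₀ := by rw [hε₀]; exact lt_min (by positivity) (by norm_num)
  have hε₀1 : ε₀ ≤ ε ^ 2 / 16 := by rw [hε₀]; exact min_le_left _ _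
  have hε₀2 : ε₀ ≤ 1 / 4 := by rw [hε₀]; exact min_le_right _ _
  obtain ⟨T₀, hT₀⟩ : ∃ T₀ : ℕ, (1 / 2 : ℝ) ^ T₀ < ε₀ / 2 :=
    exists_pow_lt_of_lt_one (by positivity) (by norm_num)
  obtain ⟨ε₃, hε₃⟩ : ∃ ε₃ : ℝ, ε₃ = ε₀ ^ 4 := ⟨_, rfl⟩
  have hε₃0 : 0 < ε₃ := by rw [hε₃]; positivity
  have hε₃1 : ε₃ ≤ ε₀ := by
    rw [hε₃]
    exact pow_le_of_le_one hε₀0.le (by linarith) (by omega)
  have hε₃2 : ε₃ ≤ Real.exp (-4) := by
    have h1 : ε₀ ≤ Real.exp (-1) := by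
      refine hε₀2.trans ?_
      rw [Real.exp_neg, one_div]
      refine inv_anti₀ (Real.exp_pos _) ?_
      have := Real.exp_one_lt_d9
      linarith
    rw [hε₃]
    refine (pow_le_pow_left₀ hε₀0.le h1 4).trans (le_of_eq ?_)
    rw [← Real.exp_nat_mul]
    norm_num
  obtain ⟨K₁, h1⟩ := rov_case1 r hε₃0 hε
  obtain ⟨K₂, h2⟩ := rov_case2 r hε₃0 hε₀0
  obtain ⟨K', hK'⟩ : ∃ K' : ℕ, K' = K₁ + K₂ + 5 := ⟨_, rfl⟩
  obtain ⟨K₃, hK₃⟩ : ∃ K₃ : ℕ, K₃ = (c + 1) * K' + 2 * K + 1 := ⟨_, rfl⟩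
  obtain ⟨E, G, hG, hgen⟩ := xgenR (c * b) T₀ K₃
  refine ⟨E, G, hG, max (4 * K') 1, fun n hn J _ _ I f hI hc hf hf1 B v hB hb => ?_⟩
  have hn1 : 1 ≤ n := (le_max_right _ _).trans hn
  have hn4 : 4 * K' ≤ n := (le_max_left _ _).trans hn
  have hn0 : (0 : ℝ) ≤ n := Nat.cast_nonneg n
  have hN1 : 1 ≤ n ^ c := Nat.one_le_iff_ne_zero.2 (pow_ne_zero _ (by omega))
  obtain ⟨δ, hδ⟩ : ∃ δ : ℝ, δ = 1 / ((n : ℝ) + 1) ^ K₃ := ⟨_, rfl⟩
  obtain ⟨τ, hτ⟩ : ∃ τ : ℝ, τ = 1 / ((n : ℝ) + 1) ^ K := ⟨_, rfl⟩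
  obtain ⟨P, hP⟩ : ∃ P : ℝ, P = (1 / 2) ^ B.card := ⟨_, rfl⟩
  have hδ0 : 0 ≤ δ := by rw [hδ]; positivity
  have hδ1 : δ ≤ 1 := by
    rw [hδ, div_le_one (by positivity)]
    exact one_le_pow₀ (by linarith)
  have hτ0 : 0 ≤ τ := by rw [hτ]; positivity
  have hτ1 : τ ≤ 1 := by
    rw [hτ, div_le_one (by positivity)]
    exact one_le_pow₀ (by linarith)
  have hP0 : 0 ≤ P := by rw [hP]; positivity
  have hP1 : P ≤ 1 := by rw [hP]; exact pow_le_one₀ (by norm_num) (by norm_num)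
  have hPQ : P * 2 ^ B.card = 1 := by
    rw [hP, ← mul_pow]
    norm_num
  have herr : ∀ K'' : ℕ, K'' ≤ K' → δ * bd K'' n (n ^ c) ≤ τ ^ 2 / 4 := by
    intro K'' h
    rw [hδ, hτ]
    refine rm_err n c K'' K K₃ ?_ (by omega)
    rw [hK₃]
    have := Nat.mul_le_mul_left (c + 1) h
    omega
  have hττ : τ ^ 2 / 4 ≤ τ := by nlinarith
  obtain ⟨F, hF⟩ : ∃ F : (Fin n → Bool) → ℂ, F = fun x => ∏ j, f j x := ⟨_, rfl⟩
  have hF1 : ∀ x, ‖F x‖ = 1 := by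
    intro x
    rw [hF]
    show ‖∏ j, f j x‖ = 1
    rw [norm_prod]
    exact Finset.prod_eq_one fun j _ => hf1 j x
  obtain ⟨T, t, ht, htm, M₁, M₂, hM₁, hM₂, Y, Z, hY, hZ, hout⟩ := hgen n
  have : Nonempty (Fin M₁) := ⟨⟨0, hM₁⟩⟩
  have : Nonempty (Fin M₂) := ⟨⟨0, hM₂⟩⟩
  rw [← hδ] at hY hZ
  have hU : Bias δ (fun x : Fin n → Bool => x) := Bias.mono Bias.unif hδ0
  have hout' : av (fun ω : Fin (2 ^ E n) => pc B v (out G n ω) * ∏ j, f j (out G n ω)) =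
      rmP Y Z t (fun x => pc B v x * F x) := by
    rw [av_fin (2 ^ E n) (fun p => pc B v (out G n p) * ∏ j, f j (out G n p)), hF]
    exact hout (fun x => pc B v x * ∏ j, f j x)
  -- the uniform distribution
  have hon : Dnf.On Bᶜ F := by
    intro x y hxy
    rw [hF]
    refine prod_congr rfl fun j _ => hf j x y fun i hi => hxy i ?_
    rw [mem_compl]
    exact Finset.disjoint_left.1 (hB j) hi
  have hpu : av (fun x => pc B v x * F x) = (1 / 2) ^ B.card * av F := Rf.av_pc B v hon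
  have hgoal : (av fun x : Fin n → Bool => ∏ j, f j x) = av F := by rw [hF]
  rw [hout', hgoal, ← hτ, ← hP]
  rcases le_or_gt ε₃ (Sf F (1 / 4)) with hA | hA
  · -- noise stability
    refine rm_const Y Z t fun s => ?_
    rw [hF] at hA ⊢
    have e1 := h1 hI hc hN1 hf hf1 hA B hB v (fun ω => xo (Y ω) s) δ hδ0 (hY.xo s)
    have e2 := herr K₁ (by omega)
    rw [← hP] at e1
    linarith
  · -- the main case
    obtain ⟨l', hl3, hl, hl1, hl2⟩ := Sf_level hF1 hε₃2 hA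
    obtain ⟨l, rfl⟩ : ∃ l, l' = l + 1 := ⟨l' - 1, by omega⟩
    rw [Nat.add_sub_cancel] at hl2
    have hlt : l < Nat.clog 2 n + 1 := by omega
    have hm := htm l B.card (by rw [pow_mul]; exact hb)
    have hupp : Sf F ((1 / 2) ^ (l + 1)) ≤ ε₀ := by
      have hq : (1 / 2 : ℝ) ^ l ≤ 1 / 4 := by
        have : (1 / 2 : ℝ) ^ l ≤ (1 / 2) ^ 2 :=
          pow_le_pow_of_le_one (by norm_num) (by norm_num) (by omega)
        norm_num at this ⊢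
        linarith
      have h3 := Sf_pow hF1 (p := (1 / 2 : ℝ) ^ l) (by positivity) hq (k := 2) (by norm_num)
      have e1 : (1 / 2 : ℝ) ^ l / ((2 : ℕ) : ℝ) = (1 / 2) ^ (l + 1) := by
        push_cast
        rw [pow_succ]
        ring
      rw [e1] at h3
      have h4 : Sf F ((1 / 2) ^ (l + 1)) ^ 4 ≤ ε₀ ^ 4 := h3.trans (hl2.le.trans (le_of_eq hε₃))
      exact gm_root (hε₃0.le.trans hl1) hε₀0.le (by omega) h4
    have e1 : ∀ {Ω : Type} [Fintype Ω] [Nonempty Ω] (X : Ω → Fin n → Bool), Bias δ X →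
        ‖rmP X Z t (fun x => pc B v x * F x)‖ ≤ P * ε / 2 + τ / 2 := by
      intro Ω _ _ X hX
      unfold rmP
      rw [gr_level ⟨l, hlt⟩ t X Z (fun x => pc B v x * F x)]
      refine Pt.pma_norm_av fun w => rm_sq (by positivity) hτ0 ?_
      obtain ⟨sh, hsh⟩ : ∃ sh : Fin M₂ → Fin n → Bool, sh = fun ω₂ => gr (fun _ => false)
          (fun l : Fin (Nat.clog 2 n + 1) => eta (Z ω₂) (l : ℕ)) (Rf.hv (Z ω₂)) t
          (Function.update w ⟨l, hlt⟩ fun _ => false) := ⟨_, rfl⟩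
      have e3 := rcs_out (l := l) (t := t l) B v (g := F) (fun x => (hF1 x).le) X Z sh hδ0 hX
      obtain ⟨S, hS⟩ : ∃ S : (Fin T → Bool) → ℝ, S = fun d => avg fun u : Fin T → Bool =>
        ‖av fun ω₂ => ((wB B l (t l) d (Z ω₂) : ℝ) : ℂ) * av fun ω₁ =>
          pc B v (xo (xo (X ω₁) (sh ω₂)) (Wd l (t l) (Z ω₂) u)) *
          dr F (Wd l (t l) (Z ω₂) d) (xo (xo (X ω₁) (sh ω₂)) (Wd l (t l) (Z ω₂) u))‖ := ⟨_, rfl⟩
      have e4 : (avg fun d => S d) ≤ (1 / 2) ^ t l * ((P + δ) * (1 + (1 + (1 / 2) ^ l) ^ B.card +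
          δ * 2 ^ B.card)) + (P * (ε₀ + ε₀) + δ * (2 ^ B.card * bd K₂ n (n ^ c))) := by
        have e5 : ∀ d, S d ≤ ((P + δ) * (1 + (1 + (1 / 2) ^ l) ^ B.card + δ * 2 ^ B.card)) *
            one (∀ r : Fin T, (r : ℕ) < t l → d r = false) +
            (P * (ε₀ + ε₀) + δ * (2 ^ B.card * bd K₂ n (n ^ c))) := by
          intro d
          have hb0 := bd_nonneg K₂ n (n ^ c)
          by_cases hd : ∀ r : Fin T, (r : ℕ) < t l → d r = false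
          · rw [r2_one_pos hd, mul_one, hS, hP]
            have e6 := ou_triv (l := l) (t := t l) (by omega : l ≤ Nat.clog 2 n + 1) (ht l) B v
              (F := F) (fun x => (hF1 x).le) X Z sh hδ0 hX hZ d
            refine e6.trans (le_add_of_nonneg_right ?_)
            positivity
          · rw [r2_one_neg hd, mul_zero, zero_add, hS]
            refine Agp.avg_le fun u => ?_
            have e6 := h2 hI hc hN1 hf hf1 (L := Nat.clog 2 n + 1) (l := l) (t := t l) (by omega)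
              (ht l) hd (by rw [← hF]; exact hl1) B hB v u X Z sh δ hδ0 hX hZ
            rw [← hF, ← hP] at e6
            refine e6.trans (add_le_add_left (mul_le_mul_of_nonneg_left ?_ hP0) _)
            linarith
        refine (avg_mono e5).trans (le_of_eq ?_)
        rw [avg_add, avg_const, avg_mul_left, ip_zero (ht l), mul_comm ((1 / 2 : ℝ) ^ t l)]
      have hRh : 2 * ((1 + (1 / 2 : ℝ) ^ l) ^ B.card * (1 / 2) ^ t l) ≤ ε₀ := by
        have f1 : (2 : ℝ) ^ t l * (1 / 2) ^ t l = 1 := by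
          rw [← mul_pow]
          norm_num
        have f2 : (2 : ℝ) ^ T₀ * (1 / 2) ^ T₀ = 1 := by
          rw [← mul_pow]
          norm_num
        have f3 : (1 + (1 / 2 : ℝ) ^ l) ^ B.card * (1 / 2) ^ t l ≤ (1 / 2) ^ T₀ := by
          calc (1 + (1 / 2 : ℝ) ^ l) ^ B.card * (1 / 2) ^ t l
              = (1 + (1 / 2 : ℝ) ^ l) ^ B.card * 2 ^ T₀ * ((1 / 2) ^ t l * (1 / 2) ^ T₀) := by
                rw [show (1 + (1 / 2 : ℝ) ^ l) ^ B.card * 2 ^ T₀ * ((1 / 2) ^ t l * (1 / 2) ^ T₀) =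
                  (1 + (1 / 2 : ℝ) ^ l) ^ B.card * (1 / 2) ^ t l * (2 ^ T₀ * (1 / 2) ^ T₀) by ring,
                  f2, mul_one]
            _ ≤ 2 ^ t l * ((1 / 2) ^ t l * (1 / 2) ^ T₀) :=
                mul_le_mul_of_nonneg_right hm (by positivity)
            _ = (1 / 2) ^ T₀ := by rw [← mul_assoc, f1, one_mul]
        linarith
      have hR1 : 1 ≤ (1 + (1 / 2 : ℝ) ^ l) ^ B.card := by
        refine one_le_pow₀ ?_
        have : (0 : ℝ) ≤ (1 / 2) ^ l := by positivity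
        linarith
      have e7 := ou_num hP0 hP1 hPQ hR1 hδ0 hδ1 (by positivity) hRh
        (by linarith) le_rfl le_rfl e4
      have e8 : δ * (bd K₂ n (n ^ c) + 5) ≤ τ ^ 2 / 4 := by
        refine le_trans (mul_le_mul_of_nonneg_left ?_ hδ0) (herr (K₂ + 5) (by omega))
        have f1 := bd_add (K := K₂) (K' := 5) hN1 n
        have f2 : (5 : ℝ) ≤ bd 5 n (n ^ c) := by
          unfold bd
          have hX : (1 : ℝ) ≤ ((n : ℝ) + 1) * ((n ^ c : ℕ) : ℝ) := by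
            have h1 : (1 : ℝ) ≤ ((n ^ c : ℕ) : ℝ) := by exact_mod_cast hN1
            nlinarith
          have h4 : (1 : ℝ) ≤ (((n : ℝ) + 1) * ((n ^ c : ℕ) : ℝ)) ^ 5 := one_le_pow₀ hX
          push_cast at h4 ⊢
          linarith
        linarith
      have e9 : P ^ 2 * (4 * ε₀) ≤ (P * ε) ^ 2 / 4 := by
        have := mul_le_mul_of_nonneg_left hε₀1 (sq_nonneg P)
        nlinarith
      rw [← hP] at e3
      have e10 : (1 : ℝ) * ((avg fun d => S d)) = avg fun d : Fin T → Bool => avg fun u :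
        Fin T → Bool => ‖av fun ω₂ => ((wB B l (t l) d (Z ω₂) : ℝ) : ℂ) * av fun ω₁ =>
          pc B v (xo (xo (X ω₁) (sh ω₂)) (Wd l (t l) (Z ω₂) u)) *
          dr F (Wd l (t l) (Z ω₂) d) (xo (xo (X ω₁) (sh ω₂)) (Wd l (t l) (Z ω₂) u))‖ := by
        rw [one_mul, hS]
      rw [← e10, one_mul] at e3
      rw [hsh] at e3
      refine le_trans e3 ?_
      linarith
    have e2 := e1 Y hY
    have e3 : ‖((1 / 2 : ℂ)) ^ B.card * av F‖ ≤ P * ε / 2 + τ / 2 := by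
      have h3 := e1 (fun x : Fin n → Bool => x) hU
      rw [rm_unif, hpu] at h3
      exact h3
    exact (norm_sub_le _ _).trans (by linarith)

end Pool.Agent.MP_ca1109_lc.Ovr
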