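import Pool.Agent.MP_ca1109_lc.Ovr.Test

/-!
# Partitions, search trees, programs and gates over overlapping blocks: the class
-/

namespace Pool.Agent.MP_ca1109_lc.Ovr

open Pool.Agent.MP_ca1109_lc.Ov

/-- A gate over the blocks `I j`. It tests one of the following:
* whether a sum of functions of the blocks with values in any abelian group (finite or infinite) lies
  in a set of at most `B` elements;
* whether a sum of functions of the blocks with integer values in `[-B, B]` is at least `θ`;
* whether the last state of a program with at most `B` states is in `A`. The program reads the blocks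
  in its own order `π`, the transition at a block is a function of the bits of the block, and any two
  transitions which are not constant commute (no condition for two states), or the rank `ρ` of the
  state increases whenever the state changes. -/
def FGate (B : ℕ) {n q : ℕ} (I : Fin q → Finset (Fin n)) (g : (Fin n → Bool) → Bool) : Prop :=
  (∃ (G : Type) (_ : AddCommGroup G) (a : Fin q → (Fin n → Bool) → G) (A : Finset G),
    A.card ≤ B ∧ OnBlocks I a ∧ ∀ x, g x = true ↔ ∑ j, a j x ∈ A) ∨
  (∃ (w : Fin q → (Fin n → Bool) → ℤ) (θ : ℤ), OnBlocks I w ∧ (∀ j x, |w j x| ≤ B) ∧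
    ∀ x, g x = true ↔ θ ≤ ∑ j, w j x) ∨
  ∃ (Q : Type) (_ : Fintype Q) (π : Equiv.Perm (Fin q)) (τ : Fin q → (Fin n → Bool) → Q → Q)
    (s : Q) (A : Set Q), Fintype.card Q ≤ B ∧ OnBlocks I τ ∧
    ((∀ j x j' x', Rf.Const (τ j x) ∨ Rf.Const (τ j' x') ∨
      ∀ s, τ j x (τ j' x' s) = τ j' x' (τ j x s)) ∨
    ∃ ρ : Q → ℕ, ∀ j x s, τ j x s = s ∨ ρ s < ρ (τ j x s)) ∧
    ∀ x, g x = true ↔ run π τ s x ∈ A

/-- Search trees with `D` searches, each after a decision tree with single bit queries of depth at
most `log N`; the leaves are Boolean functions of `k` gates. Searches and gates are over the same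
blocks. -/
def FTree (N B k : ℕ) {n q : ℕ} (I : Fin q → Finset (Fin n)) :
    ℕ → ((Fin n → Bool) → Bool) → Prop
  | 0 => fun T => ∃ (g : Fin k → (Fin n → Bool) → Bool) (F : (Fin k → Bool) → Bool),
      (∀ i, FGate B I (g i)) ∧ ∀ x, T x = F fun i => g i x
  | D + 1 => fun T => ∃ d : ℕ, 2 ^ d ≤ N ∧ Rf.DTree (Search I (FTree N B k I D)) d T

/-- The cube is partitioned into any number of subcubes (the subcube `j` is given by the values `a j`
of the bits in `L j`), of average codimension at most `h ⌈log₂ n⌉`: this is the sum of
`|L j| 2 ^ (-|L j|)`, the average of `|L j|` for the subcube `j` of a random point. On each of them `T`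
agrees with a search tree with `D` searches, over its own family of overlapping blocks of at most
`c log n` bits. For instance, the subcubes are the leaves of a decision tree of average depth at most
`h ⌈log₂ n⌉`, of any size and any depth. -/
def FTest (c r B k D h n : ℕ) (T : (Fin n → Bool) → Bool) : Prop :=
  ∃ (N : ℕ) (L : Fin N → Finset (Fin n)) (a : Fin N → Fin n → Bool)
    (g : Fin N → (Fin n → Bool) → Bool),
    ∑ j, ((L j).card : ℝ) * (1 / 2) ^ (L j).card ≤ h * Nat.clog 2 n ∧
    (∀ x : Fin n → Bool, ∃! j, ∀ i ∈ L j, x i = a j i) ∧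
    (∀ j, ∃ (q : ℕ) (I : Fin q → Finset (Fin n)), (∀ i, 2 ^ (I i).card ≤ n ^ c) ∧ Over r I ∧
      FTree (n ^ c) B k I D (g j)) ∧
    ∀ (j : Fin N) (x : Fin n → Bool), (∀ i ∈ L j, x i = a j i) → T x = g j x

end Pool.Agent.MP_ca1109_lc.Ovr
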